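import Pool.Agent.H438R3.BSD.Hyp

/-! The products of Birch and Swinnerton-Dyer for Jacobians of hyperelliptic curves. -/

set_option autoImplicit false

open Filter Topology Finset

namespace Pool.Agent.H438R3.BSD.Jac

open Pool.Agent.H341R2 (GoodPrime curveCount traceH1)

/-- `p^m + 1 - N` for the number `N` of `𝔽_{p^m}`-points of the smooth projective curve `y² = f(x)` -/
noncomputable def trace (f : Polynomial ℤ) (p : Nat.Primes) (m : ℕ) : ℤ :=
  haveI : Fact (p : ℕ).Prime := ⟨p.2⟩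
  ((p : ℕ) : ℤ) ^ m + 1 - curveCount (GaloisField p m) f 1

open Classical in
/-- `F` is an entire function, equal for `Re s > 3/2` to the product over the good primes of the
Euler factors `exp(∑_{m ≥ 1} trace m * p^(-m s) / m)` of the Jacobian -/
def IsL (f : Polynomial ℤ) (F : ℂ → ℂ) : Prop :=
  Differentiable ℂ F ∧ ∀ s : ℂ, (3 : ℝ) / 2 < s.re →
    HasProd (fun p : Nat.Primes => if GoodPrime f 1 p then
      Complex.exp (∑' m : ℕ, (trace f p (m + 1) : ℂ) * ((p : ℕ) : ℂ) ^ (-((m + 1 : ℂ) * s)) / (m + 1 : ℂ))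
      else 1) (F s)

/-- the inverse of the Euler factor of the Jacobian at `s = 1`; it is the number of points of the
Jacobian modulo `p`, divided by `p^g` -/
noncomputable def localPts (f : Polynomial ℤ) (p : Nat.Primes) : ℝ :=
  Real.exp (-∑' m : ℕ, (trace f p (m + 1) : ℝ) / (((m : ℝ) + 1) * ((p : ℕ) : ℝ) ^ (m + 1)))

open Classical in
/-- the product of `localPts` over the good primes `p ≤ x` -/
noncomputable def EP (f : Polynomial ℤ) (x : ℕ) : ℝ :=
  ∏ p ∈ Finset.Icc 1 x, if h : p.Prime then (if GoodPrime f 1 ⟨p, h⟩ then localPts f ⟨p, h⟩ else 1)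
    else 1

/-- the logarithmic average of `log EP(n) - κ log log n` over `2 ≤ n ≤ x` -/
noncomputable def LA (f : Polynomial ℤ) (κ : ℝ) (x : ℕ) : ℝ :=
  (∑ n ∈ Finset.Icc 2 x, (Real.log (EP f n) - κ * Real.log (Real.log n)) / n) / Real.log x

lemma trace_eq (f : Polynomial ℤ) (p : Nat.Primes) (m : ℕ) :
    Pool.Agent.H341R2.traceH 1 1 f 1 p m = trace f p m := by
  have : Pool.Agent.H341R2.traceH 1 1 f 1 p m =
      ((1 + Polynomial.C (traceH1 f 1 p m) * Polynomial.X +
        Polynomial.C (((p : ℕ) : ℤ) ^ m) * Polynomial.X ^ 2 : Polynomial ℤ) ^ 1).coeff 1 := rfl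
  rw [this, pow_one]
  simp only [Polynomial.coeff_add, Polynomial.coeff_C_mul, Polynomial.coeff_X_pow,
    Polynomial.coeff_X_one, Polynomial.coeff_one]
  unfold trace traceH1
  norm_num

lemma localPts_pos (f : Polynomial ℤ) (p : Nat.Primes) : 0 < localPts f p := Real.exp_pos _

open Classical in
lemma EP_pos (f : Polynomial ℤ) (x : ℕ) : 0 < EP f x := by
  unfold EP
  refine Finset.prod_pos fun p _ => ?_
  split_ifs
  · exact localPts_pos f _
  · exact one_pos
  · exact one_pos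

open Classical in
lemma log_EP (f : Polynomial ℤ) (x : ℕ) : Real.log (EP f x) = Gen.lH f 1 0 x := by
  unfold EP Gen.lH
  rw [Real.log_prod]
  · refine Finset.sum_congr rfl fun p _ => ?_
    split_ifs with h1 h2
    · unfold localPts
      rw [Real.log_exp]
      congr 1
      refine tsum_congr fun m => ?_
      rw [← trace_eq]
      simp
    · exact Real.log_one
    · exact Real.log_one
  · intro p _
    split_ifs
    · exact (localPts_pos f _).ne'
    · exact one_ne_zero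
    · exact one_ne_zero

lemma LA_eq (f : Polynomial ℤ) (κ : ℝ) (x : ℕ) : LA f κ x = Gen.LA (Gen.lH f 1 0) κ x := by
  unfold LA Gen.LA
  simp_rw [log_EP]

open Classical in
lemma isLH {f : Polynomial ℤ} {F : ℂ → ℂ} (hF : IsL f F) : Gen.IsLH f 1 0 F := by
  refine ⟨hF.1, fun s hs => ?_⟩
  have h1 := hF.2 s hs
  have e : (fun p : Nat.Primes => if GoodPrime f 1 p then
      Pool.Agent.H341R2.goodFactor 1 (2 * 0 + 1) f 1 p (s + (0 : ℕ)) else 1) =
      fun p : Nat.Primes => if GoodPrime f 1 p then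
      Complex.exp (∑' m : ℕ, (trace f p (m + 1) : ℂ) * ((p : ℕ) : ℂ) ^ (-((m + 1 : ℂ) * s)) / (m + 1 : ℂ))
      else 1 := by
    funext p
    split_ifs with h
    · unfold Pool.Agent.H341R2.goodFactor
      congr 1
      refine tsum_congr fun m => ?_
      rw [← trace_eq]
      simp
    · rfl
  rw [e]
  exact h1

theorem main (f : Polynomial ℤ) (hd : 1 ≤ f.natDegree) {F : ℂ → ℂ} (hF : IsL f F) :
    ∃ m : ℕ, analyticOrderAt F 1 = m ∧
    (∀ κ : ℝ, (κ < m ∨ ∃ ρ : ℂ, 1 < ρ.re ∧ F ρ = 0) → ∀ C : ℝ,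
      (∃ᶠ x : ℕ in atTop, C < LA f κ x) ∧
      ∃ᶠ x : ℕ in atTop, C * Real.log x ^ κ < EP f x) ∧
    ((∀ σ : ℝ, 1 < σ → F σ ≠ 0) →
      ∀ κ : ℝ, ((m : ℝ) < κ ∨ ∃ ρ : ℂ, 1 < ρ.re ∧ F ρ = 0) → ∀ C : ℝ, 0 < C →
      (∃ᶠ x : ℕ in atTop, LA f κ x < -C) ∧
      ∃ᶠ x : ℕ in atTop, EP f x < C * Real.log x ^ κ) := by
  obtain ⟨m, hm, h1, h2⟩ := Gen.hyp_main f hd 1 0 (isLH hF)
  have hlog : ∀ᶠ x : ℕ in atTop, (1 : ℝ) < Real.log x :=
    (Real.tendsto_log_atTop.comp tendsto_natCast_atTop_atTop).eventually_gt_atTop _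
  refine ⟨m, hm, fun κ hκ C => ⟨?_, ?_⟩, fun hreal κ hκ C hC => ⟨?_, ?_⟩⟩
  · refine (h1 κ hκ C).1.mono fun x hx => ?_
    rwa [LA_eq]
  · refine ((h1 κ hκ (Real.log |C|)).2.and_eventually hlog).mono fun x hx => ?_
    obtain ⟨hx1, hx2⟩ := hx
    rw [← log_EP] at hx1
    have h3 : 0 < Real.log (x : ℝ) ^ κ := Real.rpow_pos_of_pos (by linarith) _
    rcases le_or_gt C 0 with hC | hC
    · have := EP_pos f x
      have h4 := mul_nonpos_of_nonpos_of_nonneg hC h3.le
      linarith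
    · rw [abs_of_pos hC] at hx1
      have h5 : Real.log (C * Real.log x ^ κ) < Real.log (EP f x) := by
        rw [Real.log_mul hC.ne' h3.ne', Real.log_rpow (by linarith)]
        linarith
      exact (Real.log_lt_log_iff (by positivity) (EP_pos f x)).1 h5
  · refine (h2 hreal κ hκ (-C)).1.mono fun x hx => ?_
    rwa [LA_eq]
  · refine ((h2 hreal κ hκ (Real.log C)).2.and_eventually hlog).mono fun x hx => ?_
    obtain ⟨hx1, hx2⟩ := hx
    rw [← log_EP] at hx1
    have h3 : 0 < Real.log (x : ℝ) ^ κ := Real.rpow_pos_of_pos (by linarith) _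
    have h5 : Real.log (EP f x) < Real.log (C * Real.log x ^ κ) := by
      rw [Real.log_mul hC.ne' h3.ne', Real.log_rpow (by linarith)]
      linarith
    exact (Real.log_lt_log_iff (EP_pos f x) (by positivity)).1 h5

end Pool.Agent.H438R3.BSD.Jac
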