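import Pool.Agent.H438R3.BSD.Gen

/-! The final form of the abstract theorem. -/

set_option autoImplicit false

open Complex Filter Topology Finset

namespace Pool.Agent.H438R3.BSD.Gen

open Pool.Agent.H438R3.BSD

variable {LL : ℕ → ℂ → ℂ} {ell : ℕ → ℝ} {A : ℝ}

/-- the logarithm of the product over the primes `p ≤ n` -/
noncomputable def lE (ell : ℕ → ℝ) (n : ℕ) : ℝ := ∑ k ∈ Finset.Icc 1 n, ell k

/-- the logarithmic average of `f n - κ log log n` over `n ≤ x` -/
noncomputable def LA (f : ℕ → ℝ) (κ : ℝ) (x : ℕ) : ℝ :=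
  (∑ n ∈ Finset.Icc 2 x, (f n - κ * Real.log (Real.log n)) / n) / Real.log x

lemma PS_eq (h : Loc LL ell A) (ε κ C : ℝ) (n : ℕ) :
    PS C (mm ell ε κ) n =
      C + ε * (κ * ∑ p ∈ (Finset.Icc 1 n).filter Nat.Prime, (1 : ℝ) / p - lE ell n) := by
  unfold PS lE
  rw [Finset.sum_filter, Finset.mul_sum, ← Finset.sum_sub_distrib, Finset.mul_sum]
  congr 1
  refine Finset.sum_congr rfl fun p _ => ?_
  unfold mm
  by_cases hp : p.Prime
  · rw [if_pos hp, if_pos hp]; ring
  · rw [if_neg hp, if_neg hp, h.zeroE p hp]; ring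

/-- the hypotheses of the abstract theorem from a one-sided bound for large `x` -/
lemma exists_const (h : Loc LL ell A) (ε κ : ℝ) (hε : ε = 1 ∨ ε = -1) (C0 : ℝ)
    (hb : ∀ᶠ n : ℕ in atTop, ε * (lE ell n - κ * Real.log (Real.log n)) ≤ C0) :
    ∃ C : ℝ, ∀ n, 0 ≤ PS C (mm ell ε κ) n := by
  have hApos := h.pos
  have hε1 : |ε| = 1 := by rcases hε with h | h <;> rw [h] <;> simp
  obtain ⟨C1, hC1, hup⟩ := Pool.Agent.Helper256.KM.mertens_upper
  obtain ⟨C2, hC2, hlow⟩ := Pool.Agent.Helper256.KM.mertens_lower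
  obtain ⟨n0, hn0⟩ := eventually_atTop.1 hb
  set n1 := max n0 2 with hn1
  set Kc : ℝ := |(0 : ℝ)| + 2 * (|κ| + A) with hKc
  refine ⟨|C0| + |κ| * (C1 + C2) + Kc * (n1 : ℝ) ^ (1 / 2 : ℝ), fun n => ?_⟩
  have hPS : PS (|C0| + |κ| * (C1 + C2) + Kc * (n1 : ℝ) ^ (1 / 2 : ℝ)) (mm ell ε κ) n =
      (|C0| + |κ| * (C1 + C2) + Kc * (n1 : ℝ) ^ (1 / 2 : ℝ)) + PS 0 (mm ell ε κ) n := by
    unfold PS; ring
  have hpos1 : 0 ≤ |κ| * (C1 + C2) := by positivity
  have hpos2 : 0 ≤ Kc * (n1 : ℝ) ^ (1 / 2 : ℝ) := by positivity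
  have hpos3 : 0 ≤ |C0| := abs_nonneg _
  rcases Nat.lt_or_ge n n1 with hlt | hge
  · rw [hPS]
    rcases Nat.eq_zero_or_pos n with h0 | h0
    · rw [h0, PS_zero]; linarith
    · have h1 := PS_le h ε κ 0 hε1 n h0
      have h2 : (n : ℝ) ^ (1 / 2 : ℝ) ≤ (n1 : ℝ) ^ (1 / 2 : ℝ) :=
        Real.rpow_le_rpow (by positivity) (by exact_mod_cast hlt.le) (by norm_num)
      have h3 : |PS 0 (mm ell ε κ) n| ≤ Kc * (n1 : ℝ) ^ (1 / 2 : ℝ) :=
        h1.trans (mul_le_mul_of_nonneg_left h2 (by positivity))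
      have h4 := (abs_le.1 h3).1
      linarith
  · have hn2 : (2 : ℝ) ≤ n := by exact_mod_cast (le_trans (le_max_right _ _) hge)
    have h1 := hup n hn2
    have h2 := hlow n hn2
    rw [Nat.floor_natCast] at h1 h2
    have h3 := hn0 n ((le_max_left _ _).trans hge)
    rw [PS_eq h]
    set S : ℝ := ∑ p ∈ (Finset.Icc 1 n).filter Nat.Prime, (1 : ℝ) / p with hS
    set ll := Real.log (Real.log (n : ℝ)) with hll
    have h4 : |κ * (S - ll)| ≤ |κ| * (C1 + C2) := by
      rw [abs_mul]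
      refine mul_le_mul_of_nonneg_left ?_ (abs_nonneg _)
      rw [abs_le]
      constructor <;> linarith
    have h5 := abs_le.1 h4
    have h6 := le_abs_self C0
    rcases hε with h | h
    · rw [h] at h3 ⊢
      nlinarith [h5.1, h5.2]
    · rw [h] at h3 ⊢
      nlinarith [h5.1, h5.2]

lemma exists_const2 (h : Loc LL ell A) (ε κ : ℝ) (hε : ε = 1 ∨ ε = -1) (C0 : ℝ)
    (hb : ∀ᶠ n : ℕ in atTop, ε * (∑ k ∈ Finset.Icc 2 n,
      (lE ell k - κ * Real.log (Real.log k)) / k) ≤ C0 * Real.log n) :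
    ∃ C : ℝ, ∀ n, 0 ≤ AS C (mm ell ε κ) n := by
  have hApos := h.pos
  have hε1 : |ε| = 1 := by rcases hε with h | h <;> rw [h] <;> simp
  obtain ⟨C1, hC1, hup⟩ := Pool.Agent.Helper256.KM.mertens_upper
  obtain ⟨C2, hC2, hlow⟩ := Pool.Agent.Helper256.KM.mertens_lower
  obtain ⟨n0, hn0⟩ := eventually_atTop.1 hb
  set n1 := max n0 2 with hn1
  set Kc : ℝ := |(0 : ℝ)| + 2 * (|κ| + A) with hKc
  have hKc0 : 0 ≤ Kc := by positivity
  set K' := |κ| * (C1 + C2) with hK'
  have hK'0 : 0 ≤ K' := by positivity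
  set C : ℝ := |C0| + K' + 2 * Kc * (n1 : ℝ) ^ (1 / 2 : ℝ) with hC
  have hpos2 : 0 ≤ 2 * Kc * (n1 : ℝ) ^ (1 / 2 : ℝ) := by positivity
  have hpos3 : 0 ≤ |C0| := abs_nonneg _
  have hCpos : 0 ≤ C := by positivity
  refine ⟨C, fun n => ?_⟩
  set m := mm ell ε κ with hm
  rcases Nat.eq_zero_or_pos n with h0 | h0
  · rw [h0]
    unfold AS
    rw [PS_zero]
  rcases Nat.lt_or_ge n n1 with hlt | hge
  · rw [AS_lin]
    have h1 := AS_le hKc0 (fun k hk => PS_le h ε κ 0 hε1 k hk) n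
    have h2 : (n : ℝ) ^ (1 / 2 : ℝ) ≤ (n1 : ℝ) ^ (1 / 2 : ℝ) :=
      Real.rpow_le_rpow (by positivity) (by exact_mod_cast hlt.le) (by norm_num)
    have h3 : |AS 0 m n| ≤ 2 * Kc * (n1 : ℝ) ^ (1 / 2 : ℝ) :=
      h1.trans (mul_le_mul_of_nonneg_left h2 (by positivity))
    have h4 := (abs_le.1 h3).1
    have h5 : 1 ≤ ∑ k ∈ Finset.Icc 1 n, (1 : ℝ) / k := by
      rw [Icc_split h0, Finset.sum_insert (by simp)]
      have : 0 ≤ ∑ k ∈ Finset.Icc 2 n, (1 : ℝ) / k := Finset.sum_nonneg fun k _ => by positivity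
      simp only [Nat.cast_one, div_one]
      linarith
    have h6 : C * 1 ≤ C * ∑ k ∈ Finset.Icc 1 n, (1 : ℝ) / k := mul_le_mul_of_nonneg_left h5 hCpos
    linarith
  · have hn2 : 2 ≤ n := le_trans (le_max_right _ _) hge
    have hnr : (2 : ℝ) ≤ n := by exact_mod_cast hn2
    have h3 := hn0 n ((le_max_left _ _).trans hge)
    have hAS : AS C m n = C + ∑ k ∈ Finset.Icc 2 n, PS C m k / k := by
      unfold AS
      rw [PS, zero_add, Icc_split h0, Finset.sum_insert (by simp)]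
      congr 1
      rw [Nat.cast_one, div_one, hm]
      unfold PS mm
      simp [Nat.not_prime_one]
    have hterm : ∀ k ∈ Finset.Icc 2 n, (C - K') * (1 / (k : ℝ)) -
        ε * ((lE ell k - κ * Real.log (Real.log k)) / k) ≤ PS C m k / k := by
      intro k hk
      have hk2 : 2 ≤ k := (Finset.mem_Icc.1 hk).1
      have hkr : (2 : ℝ) ≤ k := by exact_mod_cast hk2
      have hk0 : (0 : ℝ) < k := by linarith
      have h1 := hup k hkr
      have h2 := hlow k hkr
      rw [Nat.floor_natCast] at h1 h2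
      rw [hm, PS_eq h]
      set S : ℝ := ∑ p ∈ (Finset.Icc 1 k).filter Nat.Prime, (1 : ℝ) / p with hS
      set ll := Real.log (Real.log (k : ℝ)) with hll
      have h4 : |ε * (κ * (S - ll))| ≤ K' := by
        rw [abs_mul, hε1, one_mul, abs_mul, hK']
        refine mul_le_mul_of_nonneg_left ?_ (abs_nonneg _)
        rw [abs_le]
        constructor <;> linarith
      have h5 := (abs_le.1 h4).1
      have e1 : (C - K') * (1 / (k : ℝ)) - ε * ((lE ell k - κ * ll) / k) =
          (C - K' - ε * (lE ell k - κ * ll)) / k := by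
        field_simp
      rw [e1]
      apply div_le_div_of_nonneg_right _ hk0.le
      have e2 : C + ε * (κ * S - lE ell k) =
          C + ε * (κ * (S - ll)) - ε * (lE ell k - κ * ll) := by ring
      rw [e2]
      linarith
    have hsum := Finset.sum_le_sum hterm
    rw [Finset.sum_sub_distrib, ← Finset.mul_sum, ← Finset.mul_sum] at hsum
    rw [hAS]
    have h7 := log_le_sum n h0
    have h8 : Real.log n ≤ Real.log (n + 1) := Real.log_le_log (by linarith) (by linarith)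
    have h9 : 0 ≤ Real.log n := Real.log_nonneg (by linarith)
    have h10 : C0 * Real.log n ≤ |C0| * Real.log n := mul_le_mul_of_nonneg_right (le_abs_self _) h9
    have hCK : 0 ≤ C - K' := by rw [hC]; linarith
    have h11 : (C - K') * (Real.log n - 1) ≤ (C - K') * ∑ k ∈ Finset.Icc 2 n, (1 : ℝ) / k :=
      mul_le_mul_of_nonneg_left (by linarith) hCK
    have h12 : |C0| * Real.log n ≤ (C - K') * Real.log n :=
      mul_le_mul_of_nonneg_right (by rw [hC]; linarith) h9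
    nlinarith

/-- the order of vanishing from a bound on the real axis -/
lemma order_of_bound {F : ℂ → ℂ} (hF : Differentiable ℂ F) (ε κ K : ℝ) (hε : ε = 1 ∨ ε = -1)
    (hK : ∀ᶠ w : ℝ in 𝓝[>] 0, ε * (κ * Real.log w) - K ≤ ε * Real.log ‖F (1 + w)‖)
    (m : ℕ) (hm : analyticOrderAt F 1 = m) : ε * (m - κ) ≤ 0 := by
  have han : AnalyticAt ℂ F 1 := hF.analyticAt 1
  have hmer : meromorphicOrderAt F 1 = ((m : ℤ) : WithTop ℤ) := by
    rw [han.meromorphicOrderAt_eq, hm]
    rfl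
  obtain ⟨C3, hC3⟩ := Pool.Agent.H341R2.log_norm_meromorphic han.meromorphicAt hmer
  by_contra hcon
  push Not at hcon
  have hbot : Tendsto (fun w : ℝ => Real.log w) (𝓝[>] 0) atBot := Real.tendsto_log_nhdsGT_zero
  have hev : ∀ᶠ w : ℝ in 𝓝[>] 0, ε * (m - κ) * Real.log w < -(K + |C3|) := by
    have := hbot.const_mul_atBot hcon
    exact this.eventually (eventually_lt_atBot _)
  obtain ⟨w, hw1, hw2, hw3⟩ := (hK.and (hC3.and hev)).exists
  have h5 := hw2.2
  have h6 := le_abs_self C3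
  push_cast at h5
  have h7 := abs_le.1 h5
  have e2 : ε * (m - κ) * Real.log w = ε * (m * Real.log w) - ε * (κ * Real.log w) := by ring
  rw [e2] at hw3
  rcases hε with h | h
  · rw [h] at hw1 hw3
    linarith [h7.1, h7.2]
  · rw [h] at hw1 hw3
    linarith [h7.1, h7.2]

theorem order_finite (h : Loc LL ell A) {F : ℂ → ℂ} (hF : Differentiable ℂ F)
    (hprod : ∀ s : ℂ, 3 / 2 < s.re → HasProd (fun p : ℕ => exp (LL p s)) (F s)) :
    ∃ m : ℕ, analyticOrderAt F 1 = m := by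
  have h1 : analyticOrderAt F 1 ≠ ⊤ := by
    intro htop
    rw [analyticOrderAt_eq_top] at htop
    have h2 := (hF.differentiableOn (s := Set.univ)).analyticOnNhd isOpen_univ
    have h3 := h2.eqOn_zero_of_preconnected_of_eventuallyEq_zero isPreconnected_univ (Set.mem_univ 1) htop
    have h4 := prod_eq h (s := 2) (by norm_num) (hprod 2 (by norm_num))
    rw [h3 (Set.mem_univ 2)] at h4
    exact Complex.exp_ne_zero _ h4.symm
  exact ⟨(analyticOrderAt F 1).toNat, (ENat.coe_toNat h1).symm⟩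

/-- The final theorem. `g` is any sequence at bounded distance from `lE ell`. -/
theorem main (h : Loc LL ell A) {F : ℂ → ℂ} (hF : Differentiable ℂ F)
    (hprod : ∀ s : ℂ, 3 / 2 < s.re → HasProd (fun p : ℕ => exp (LL p s)) (F s))
    (g : ℕ → ℝ) (B : ℝ) (hg : ∀ n, |g n - lE ell n| ≤ B) :
    ∃ m : ℕ, analyticOrderAt F 1 = m ∧
    (∀ κ : ℝ, (κ < m ∨ ∃ ρ : ℂ, 1 < ρ.re ∧ F ρ = 0) → ∀ C : ℝ,
      (∃ᶠ x : ℕ in atTop, C < LA g κ x) ∧
      ∃ᶠ x : ℕ in atTop, C < g x - κ * Real.log (Real.log x)) ∧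
    ((∀ σ : ℝ, 1 < σ → F σ ≠ 0) →
      ∀ κ : ℝ, ((m : ℝ) < κ ∨ ∃ ρ : ℂ, 1 < ρ.re ∧ F ρ = 0) → ∀ C : ℝ,
      (∃ᶠ x : ℕ in atTop, LA g κ x < C) ∧
      ∃ᶠ x : ℕ in atTop, g x - κ * Real.log (Real.log x) < C) := by
  obtain ⟨m, hm⟩ := order_finite h hF hprod
  have hlog : ∀ᶠ x : ℕ in atTop, (1 : ℝ) < Real.log x :=
    (Real.tendsto_log_atTop.comp tendsto_natCast_atTop_atTop).eventually_gt_atTop _
  have hB : 0 ≤ B := (abs_nonneg _).trans (hg 0)
  -- comparison of the averages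
  have hsumle : ∀ x : ℕ, 1 ≤ x → ∑ n ∈ Finset.Icc 2 x, (1 : ℝ) / n ≤ Real.log x := by
    intro x hx
    induction x, hx using Nat.le_induction with
    | base => simp
    | succ n hn ih =>
      rw [Finset.sum_Icc_succ_top (by omega)]
      have hn0 : (0 : ℝ) < (n : ℝ) := by exact_mod_cast hn
      have h1 : 1 / ((n + 1 : ℕ) : ℝ) ≤ Real.log ((n + 1 : ℕ) : ℝ) - Real.log n := by
        have h2 := Real.one_sub_inv_le_log_of_pos (x := ((n + 1 : ℕ) : ℝ) / n) (by positivity)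
        rw [Real.log_div (by positivity) hn0.ne'] at h2
        have e : 1 - (((n + 1 : ℕ) : ℝ) / n)⁻¹ = 1 / ((n + 1 : ℕ) : ℝ) := by
          push_cast
          field_simp
          ring
        linarith
      linarith
  have hcmp : ∀ (κ : ℝ) (x : ℕ), 1 ≤ x →
      |(∑ n ∈ Finset.Icc 2 x, (g n - κ * Real.log (Real.log n)) / n) -
        ∑ n ∈ Finset.Icc 2 x, (lE ell n - κ * Real.log (Real.log n)) / n| ≤ B * Real.log x := by
    intro κ x hx
    rw [← Finset.sum_sub_distrib]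
    calc |∑ n ∈ Finset.Icc 2 x, ((g n - κ * Real.log (Real.log n)) / n -
          (lE ell n - κ * Real.log (Real.log n)) / n)|
        ≤ ∑ n ∈ Finset.Icc 2 x, |(g n - κ * Real.log (Real.log n)) / n -
          (lE ell n - κ * Real.log (Real.log n)) / n| := Finset.abs_sum_le_sum_abs _ _
      _ ≤ ∑ n ∈ Finset.Icc 2 x, B * (1 / n) := by
          refine Finset.sum_le_sum fun n hn => ?_
          have hn0 : (0 : ℝ) < n := by
            have := (Finset.mem_Icc.1 hn).1
            exact_mod_cast (by omega : 0 < n)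
          rw [← sub_div, abs_div, abs_of_pos hn0, div_eq_mul_one_div]
          refine mul_le_mul_of_nonneg_right ?_ (by positivity)
          have := hg n
          have e : g n - κ * Real.log (Real.log n) - (lE ell n - κ * Real.log (Real.log n)) =
            g n - lE ell n := by ring
          rwa [e]
      _ = B * ∑ n ∈ Finset.Icc 2 x, (1 : ℝ) / n := by rw [Finset.mul_sum]
      _ ≤ _ := mul_le_mul_of_nonneg_left (hsumle x hx) hB
  refine ⟨m, hm, fun κ hκ C => ⟨?_, ?_⟩, fun hreal κ hκ C => ⟨?_, ?_⟩⟩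
  · by_contra hcon
    rw [Filter.not_frequently] at hcon
    obtain ⟨C', hC'⟩ := exists_const2 h 1 κ (Or.inl rfl) (C + B) (by
      filter_upwards [hcon, hlog, eventually_ge_atTop 1] with n hn1 hn2 hn3
      push Not at hn1
      unfold LA at hn1
      rw [div_le_iff₀ (by linarith)] at hn1
      have := (abs_le.1 (hcmp κ n hn3)).1
      rw [one_mul]
      linarith)
    obtain ⟨h1, K, hK⟩ := main_abs2 h 1 κ C' (Or.inl rfl) hC' F hF hprod (by norm_num)
    have h2 := order_of_bound hF 1 κ K (Or.inl rfl) hK m hm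
    rcases hκ with h3 | ⟨ρ, h3, h4⟩
    · linarith
    · exact h1 ρ h3 h4
  · by_contra hcon
    rw [Filter.not_frequently] at hcon
    obtain ⟨C', hC'⟩ := exists_const h 1 κ (Or.inl rfl) (C + B) (by
      filter_upwards [hcon] with n hn1
      push Not at hn1
      have := (abs_le.1 (hg n)).1
      linarith)
    obtain ⟨h1, K, hK⟩ := main_abs h 1 κ C' (Or.inl rfl) hC' F hF hprod (by norm_num)
    have h2 := order_of_bound hF 1 κ K (Or.inl rfl) hK m hm
    rcases hκ with h3 | ⟨ρ, h3, h4⟩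
    · linarith
    · exact h1 ρ h3 h4
  · by_contra hcon
    rw [Filter.not_frequently] at hcon
    obtain ⟨C', hC'⟩ := exists_const2 h (-1) κ (Or.inr rfl) (-C + B) (by
      filter_upwards [hcon, hlog, eventually_ge_atTop 1] with n hn1 hn2 hn3
      push Not at hn1
      unfold LA at hn1
      rw [le_div_iff₀ (by linarith)] at hn1
      have := (abs_le.1 (hcmp κ n hn3)).2
      linarith)
    obtain ⟨h1, K, hK⟩ := main_abs2 h (-1) κ C' (Or.inr rfl) hC' F hF hprod (fun _ => hreal)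
    have h2 := order_of_bound hF (-1) κ K (Or.inr rfl) hK m hm
    rcases hκ with h3 | ⟨ρ, h3, h4⟩
    · linarith
    · exact h1 ρ h3 h4
  · by_contra hcon
    rw [Filter.not_frequently] at hcon
    obtain ⟨C', hC'⟩ := exists_const h (-1) κ (Or.inr rfl) (-C + B) (by
      filter_upwards [hcon] with n hn1
      push Not at hn1
      have := (abs_le.1 (hg n)).2
      linarith)
    obtain ⟨h1, K, hK⟩ := main_abs h (-1) κ C' (Or.inr rfl) hC' F hF hprod (fun _ => hreal)
    have h2 := order_of_bound hF (-1) κ K (Or.inr rfl) hK m hm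
    rcases hκ with h3 | ⟨ρ, h3, h4⟩
    · linarith
    · exact h1 ρ h3 h4

end Pool.Agent.H438R3.BSD.Gen
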