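import Pool.Agent.H438R3.BSD.NF2

/-! Elliptic curves over number fields: the final theorem. -/

set_option autoImplicit false

open Filter Topology Finset NumberField IsDedekindDomain
open Pool.Agent.H921R2.TatePole (nm two_le_nm)

namespace Pool.Agent.H438R3.BSD.NF

variable {K : Type} [Field K] [NumberField K]

open Classical in
/-- `F` is an entire function, equal for `Re s > 3/2` to the Euler product of
`y² = x³ + a x + b` over the places of `K` not dividing twice the discriminant -/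
def IsL (a b : 𝓞 K) (F : ℂ → ℂ) : Prop :=
  Differentiable ℂ F ∧ ∀ s : ℂ, (3 : ℝ) / 2 < s.re →
    HasProd (fun v : HeightOneSpectrum (𝓞 K) => if Good a b v then
      (1 - ((Ideal.absNorm v.asIdeal : ℂ) - (Np a b v : ℂ)) * (Ideal.absNorm v.asIdeal : ℂ) ^ (-s) +
        (Ideal.absNorm v.asIdeal : ℂ) ^ (1 - 2 * s))⁻¹ else 1) (F s)

open Classical in
/-- the product of `(Np + 1) / N v` over the good places with `N v ≤ x` -/
noncomputable def EP (a b : 𝓞 K) (x : ℕ) : ℝ :=
  ∏ᶠ v : HeightOneSpectrum (𝓞 K), if Good a b v ∧ Ideal.absNorm v.asIdeal ≤ x then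
    ((Np a b v : ℝ) + 1) / (Ideal.absNorm v.asIdeal : ℝ) else 1

/-- the logarithmic average of `log EP(n) - κ log log n` over `2 ≤ n ≤ x` -/
noncomputable def LA (a b : 𝓞 K) (κ : ℝ) (x : ℕ) : ℝ :=
  (∑ n ∈ Finset.Icc 2 x, (Real.log (EP a b n) - κ * Real.log (Real.log n)) / n) / Real.log x

variable (a b : 𝓞 K)

open Classical in
lemma EP_eq (x : ℕ) : EP a b x = ∏ n ∈ Finset.Icc 1 x, ∏ v ∈ fib K n,
    if Good a b v then ((Np a b v : ℝ) + 1) / nm v else 1 := by
  unfold EP
  have hsub : Function.mulSupport (fun v : HeightOneSpectrum (𝓞 K) =>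
      if Good a b v ∧ Ideal.absNorm v.asIdeal ≤ x then
      ((Np a b v : ℝ) + 1) / (Ideal.absNorm v.asIdeal : ℝ) else 1) ⊆
      ((Finset.Icc 1 x).biUnion (fib K) : Finset (HeightOneSpectrum (𝓞 K))) := by
    intro v hv
    rw [Function.mem_mulSupport] at hv
    have h1 : Good a b v ∧ Ideal.absNorm v.asIdeal ≤ x := by
      by_contra h
      exact hv (if_neg h)
    rw [Finset.mem_coe, Finset.mem_biUnion]
    refine ⟨nm v, Finset.mem_Icc.2 ⟨?_, h1.2⟩, mem_fib.2 rfl⟩
    have := two_le_nm v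
    omega
  rw [finprod_eq_prod_of_mulSupport_subset _ hsub, Finset.prod_biUnion]
  · refine Finset.prod_congr rfl fun n hn => Finset.prod_congr rfl fun v hv => ?_
    have h1 : nm v = n := mem_fib.1 hv
    have h2 : Ideal.absNorm v.asIdeal ≤ x := by
      have : Ideal.absNorm v.asIdeal = n := h1
      rw [this]
      exact (Finset.mem_Icc.1 hn).2
    by_cases h : Good a b v
    · rw [if_pos ⟨h, h2⟩, if_pos h]
      rfl
    · rw [if_neg (fun hh => h hh.1), if_neg h]
  · intro m _ n _ hmn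
    rw [Function.onFun, Finset.disjoint_left]
    intro v h1 h2
    exact hmn ((mem_fib.1 h1).symm.trans (mem_fib.1 h2))

open Classical in
lemma term_pos (v : HeightOneSpectrum (𝓞 K)) :
    (0 : ℝ) < if Good a b v then ((Np a b v : ℝ) + 1) / nm v else 1 := by
  split_ifs
  · have := nm_pos v
    positivity
  · exact one_pos

open Classical in
lemma EP_pos (x : ℕ) : 0 < EP a b x := by
  rw [EP_eq]
  exact Finset.prod_pos fun n _ => Finset.prod_pos fun v _ => term_pos a b v

open Classical in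
lemma log_EP (x : ℕ) : Real.log (EP a b x) = GenN.lE (GenN.ellc (good a b) (cc a b)) x := by
  rw [EP_eq, Real.log_prod]
  · unfold GenN.lE
    refine Finset.sum_congr rfl fun n _ => ?_
    rw [ellc_eq, Real.log_prod]
    · refine Finset.sum_congr rfl fun v _ => ?_
      split_ifs
      · rfl
      · exact Real.log_one
    · intro v _
      exact (term_pos a b v).ne'
  · intro n _
    exact (Finset.prod_pos fun v _ => term_pos a b v).ne'

open Classical in
theorem main {F : ℂ → ℂ} (hF : IsL a b F) :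
    ∃ m : ℕ, analyticOrderAt F 1 = m ∧
    (∀ κ : ℝ, (κ < m ∨ ∃ ρ : ℂ, 1 < ρ.re ∧ F ρ = 0) → ∀ C : ℝ,
      (∃ᶠ x : ℕ in atTop, C < LA a b κ x) ∧
      ∃ᶠ x : ℕ in atTop, C * Real.log x ^ κ < EP a b x) ∧
    ((∀ σ : ℝ, 1 < σ → F σ ≠ 0) →
      ∀ κ : ℝ, ((m : ℝ) < κ ∨ ∃ ρ : ℂ, 1 < ρ.re ∧ F ρ = 0) → ∀ C : ℝ, 0 < C →
      (∃ᶠ x : ℕ in atTop, LA a b κ x < -C) ∧
      ∃ᶠ x : ℕ in atTop, EP a b x < C * Real.log x ^ κ) := by
  set g : ℕ → ℝ := GenN.lE (GenN.ellc (good a b) (cc a b)) with hg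
  obtain ⟨m, hm, h1, h2⟩ := GenN.main (locNF a b) hF.1
    (fun s hs => prodNF a b (by linarith : 1 ≤ s.re) (hF.2 s hs)) g 0 (fun n => by rw [hg]; simp)
  have hLA : ∀ κ x, LA a b κ x = GenN.LA g κ x := by
    intro κ x
    unfold LA GenN.LA
    simp_rw [log_EP]
    rfl
  have hlog : ∀ᶠ x : ℕ in atTop, (1 : ℝ) < Real.log x :=
    (Real.tendsto_log_atTop.comp tendsto_natCast_atTop_atTop).eventually_gt_atTop _
  refine ⟨m, hm, fun κ hκ C => ⟨?_, ?_⟩, fun hreal κ hκ C hC => ⟨?_, ?_⟩⟩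
  · refine (h1 κ hκ C).1.mono fun x hx => ?_
    rwa [hLA]
  · refine ((h1 κ hκ (Real.log |C|)).2.and_eventually hlog).mono fun x hx => ?_
    obtain ⟨hx1, hx2⟩ := hx
    rw [hg, ← log_EP] at hx1
    have h3 : 0 < Real.log (x : ℝ) ^ κ := Real.rpow_pos_of_pos (by linarith) _
    rcases le_or_gt C 0 with hC | hC
    · have := EP_pos a b x
      have h4 := mul_nonpos_of_nonpos_of_nonneg hC h3.le
      linarith
    · rw [abs_of_pos hC] at hx1
      have h5 : Real.log (C * Real.log x ^ κ) < Real.log (EP a b x) := by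
        rw [Real.log_mul hC.ne' h3.ne', Real.log_rpow (by linarith)]
        linarith
      exact (Real.log_lt_log_iff (by positivity) (EP_pos a b x)).1 h5
  · refine (h2 hreal κ hκ (-C)).1.mono fun x hx => ?_
    rwa [hLA]
  · refine ((h2 hreal κ hκ (Real.log C)).2.and_eventually hlog).mono fun x hx => ?_
    obtain ⟨hx1, hx2⟩ := hx
    rw [hg, ← log_EP] at hx1
    have h3 : 0 < Real.log (x : ℝ) ^ κ := Real.rpow_pos_of_pos (by linarith) _
    have h5 : Real.log (EP a b x) < Real.log (C * Real.log x ^ κ) := by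
      rw [Real.log_mul hC.ne' h3.ne', Real.log_rpow (by linarith)]
      linarith
    exact (Real.log_lt_log_iff (EP_pos a b x) (by positivity)).1 h5

end Pool.Agent.H438R3.BSD.NF
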