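import Pool.Agent.H438R3.BSD.Gen2

/-! Local data of weight one from traces of Frobenius. -/

set_option autoImplicit false

open Complex Filter Topology Finset

namespace Pool.Agent.H438R3.BSD.Gen

open Pool.Agent.H438R3.BSD

section

variable (good : ℕ → Prop) [DecidablePred good] (c : ℕ → ℕ → ℝ)

/-- the logarithm of the Euler factor -/
noncomputable def LLc (p : ℕ) (s : ℂ) : ℂ :=
  if good p then ∑' m : ℕ, (c p (m + 1) : ℂ) * (p : ℂ) ^ (-((m + 1 : ℂ) * s)) / (m + 1 : ℂ) else 0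

/-- minus its value at `s = 1` -/
noncomputable def ellc (p : ℕ) : ℝ :=
  if good p then -∑' m : ℕ, c p (m + 1) * (p : ℝ) ^ (-((m : ℝ) + 1)) / ((m : ℝ) + 1) else 0

variable {good c}
variable {K : ℝ} (hgood : ∀ p, good p → p.Prime) (hK : 0 ≤ K)
  (hc : ∀ p, good p → ∀ m : ℕ, 1 ≤ m → |c p m| ≤ K * (p : ℝ) ^ ((m : ℝ) / 2))

include hgood hK hc

omit hK hc in
lemma r_le {p : ℕ} (hp : good p) : (p : ℝ) ^ (-(1 / 2) : ℝ) ≤ 0.71 := by
  have hp2 : (2 : ℝ) ≤ p := by exact_mod_cast (hgood p hp).two_le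
  exact x_rpow_le hp2 (by norm_num)

omit hK hc in
lemma r_pow {p : ℕ} (hp : good p) (k : ℕ) (x : ℝ) (hx : x = -((k : ℝ) / 2)) :
    (p : ℝ) ^ x = ((p : ℝ) ^ (-(1 / 2) : ℝ)) ^ k := by
  have hp0 : (0 : ℝ) < p := by exact_mod_cast (hgood p hp).pos
  rw [← Real.rpow_natCast, ← Real.rpow_mul hp0.le, hx]
  congr 1
  ring

lemma term_le {p : ℕ} (hp : good p) (m : ℕ) (x y : ℝ) (hx : x ≤ -((m + 1 : ℕ) : ℝ)) (hy : 0 ≤ y)
    (hyx : y ≤ (p : ℝ) ^ x) :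
    |c p (m + 1)| * y / ((m : ℝ) + 1) ≤ K * ((p : ℝ) ^ (-(1 / 2) : ℝ)) ^ (m + 1) := by
  have hp0 : (0 : ℝ) < p := by exact_mod_cast (hgood p hp).pos
  have hp1 : (1 : ℝ) ≤ p := by exact_mod_cast (hgood p hp).one_le
  have h1 := hc p hp (m + 1) (by omega)
  have h2 : |c p (m + 1)| * y ≤ K * ((p : ℝ) ^ (-(1 / 2) : ℝ)) ^ (m + 1) := by
    calc |c p (m + 1)| * y ≤ (K * (p : ℝ) ^ (((m + 1 : ℕ) : ℝ) / 2)) * (p : ℝ) ^ (-((m + 1 : ℕ) : ℝ)) := by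
          refine mul_le_mul h1 (hyx.trans ?_) hy (by positivity)
          exact Real.rpow_le_rpow_of_exponent_le hp1 hx
      _ = K * ((p : ℝ) ^ (((m + 1 : ℕ) : ℝ) / 2) * (p : ℝ) ^ (-((m + 1 : ℕ) : ℝ))) := by ring
      _ = K * (p : ℝ) ^ (-(((m + 1 : ℕ) : ℝ) / 2)) := by
          rw [← Real.rpow_add hp0]; congr 2; ring
      _ = _ := by rw [r_pow hgood hp (m + 1) _ rfl]
  have h3 : (0 : ℝ) ≤ |c p (m + 1)| * y := by positivity
  calc |c p (m + 1)| * y / ((m : ℝ) + 1) ≤ |c p (m + 1)| * y := by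
        apply div_le_self h3
        have : (0 : ℝ) ≤ m := by positivity
        linarith
    _ ≤ _ := h2

omit hK hc in
lemma geom {p : ℕ} (hp : good p) : HasSum (fun m : ℕ => ((p : ℝ) ^ (-(1 / 2) : ℝ)) ^ m)
    (1 - (p : ℝ) ^ (-(1 / 2) : ℝ))⁻¹ ∧ (1 - (p : ℝ) ^ (-(1 / 2) : ℝ))⁻¹ ≤ 4 := by
  have h1 := r_le hgood hp
  refine ⟨hasSum_geometric_of_lt_one (by positivity) (by linarith), ?_⟩
  rw [inv_le_comm₀ (by linarith) (by norm_num)]
  norm_num at h1 ⊢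
  linarith

lemma termC_le {p : ℕ} (hp : good p) (m : ℕ) (s : ℂ) (hs : 1 ≤ s.re) :
    ‖(c p (m + 1) : ℂ) * (p : ℂ) ^ (-((m + 1 : ℂ) * s)) / (m + 1 : ℂ)‖ ≤
      K * ((p : ℝ) ^ (-(1 / 2) : ℝ)) ^ (m + 1) := by
  have hp0 : 0 < p := (hgood p hp).pos
  have e1 : ‖(m + 1 : ℂ)‖ = (m : ℝ) + 1 := by
    have : ((m : ℂ) + 1) = ((m + 1 : ℕ) : ℂ) := by push_cast; rfl
    rw [this, Complex.norm_natCast]; push_cast; rfl
  rw [norm_div, norm_mul, e1, Complex.norm_real, Real.norm_eq_abs, Complex.norm_natCast_cpow_of_pos hp0]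
  have e2 : (-((m + 1 : ℂ) * s)).re = -(((m : ℝ) + 1) * s.re) := by
    simp
  rw [e2]
  refine term_le hgood hK hc hp m (-(((m : ℝ) + 1) * s.re)) _ ?_ (by positivity) le_rfl
  push_cast
  have : (0 : ℝ) ≤ m := by positivity
  nlinarith

lemma termR_le {p : ℕ} (hp : good p) (m : ℕ) :
    |c p (m + 1) * (p : ℝ) ^ (-((m : ℝ) + 1)) / ((m : ℝ) + 1)| ≤
      K * ((p : ℝ) ^ (-(1 / 2) : ℝ)) ^ (m + 1) := by
  rw [abs_div, abs_mul, abs_of_nonneg (by positivity : (0 : ℝ) ≤ (p : ℝ) ^ (-((m : ℝ) + 1))),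
    abs_of_nonneg (by positivity : (0 : ℝ) ≤ (m : ℝ) + 1)]
  exact term_le hgood hK hc hp m (-((m : ℝ) + 1)) _ (by push_cast; linarith) (by positivity) le_rfl

omit hK hc in
lemma summable_u {p : ℕ} (hp : good p) (K' : ℝ) :
    HasSum (fun m : ℕ => K' * ((p : ℝ) ^ (-(1 / 2) : ℝ)) ^ (m + 1))
      (K' * (p : ℝ) ^ (-(1 / 2) : ℝ) * (1 - (p : ℝ) ^ (-(1 / 2) : ℝ))⁻¹) := by
  have h1 := (geom hgood hp).1.mul_left (K' * (p : ℝ) ^ (-(1 / 2) : ℝ))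
  have e : (fun m : ℕ => K' * ((p : ℝ) ^ (-(1 / 2) : ℝ)) ^ (m + 1)) =
      fun m : ℕ => K' * (p : ℝ) ^ (-(1 / 2) : ℝ) * ((p : ℝ) ^ (-(1 / 2) : ℝ)) ^ m := by
    funext m
    rw [pow_succ]; ring
  rw [e]
  exact h1

lemma summable_C {p : ℕ} (hp : good p) (s : ℂ) (hs : 1 ≤ s.re) :
    Summable (fun m : ℕ => (c p (m + 1) : ℂ) * (p : ℂ) ^ (-((m + 1 : ℂ) * s)) / (m + 1 : ℂ)) :=
  Summable.of_norm_bounded (summable_u hgood hp K).summable
    (fun m => termC_le hgood hK hc hp m s hs)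

lemma summable_R {p : ℕ} (hp : good p) :
    Summable (fun m : ℕ => c p (m + 1) * (p : ℝ) ^ (-((m : ℝ) + 1)) / ((m : ℝ) + 1)) :=
  Summable.of_norm_bounded (summable_u hgood hp K).summable
    (fun m => termR_le hgood hK hc hp m)

/-- the terms of `dd` -/
lemma dd_eq_tsum {p : ℕ} (hp : good p) (s : ℂ) (hs : 1 ≤ s.re) :
    Summable (fun m : ℕ => (c p (m + 1) : ℂ) / (m + 1 : ℂ) *
      ((p : ℂ) ^ (-((m + 1 : ℂ) * s)) - (p : ℂ) ^ (-(m + 1 : ℂ)) * (p : ℂ) ^ (1 - s))) ∧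
    dd (LLc good c) (ellc good c) p s = ∑' m : ℕ, (c p (m + 1) : ℂ) / (m + 1 : ℂ) *
      ((p : ℂ) ^ (-((m + 1 : ℂ) * s)) - (p : ℂ) ^ (-(m + 1 : ℂ)) * (p : ℂ) ^ (1 - s)) := by
  have h1 := (summable_C hgood hK hc hp s hs).hasSum
  have h2 := (summable_R hgood hK hc hp).hasSum
  have h3 := Complex.hasSum_ofReal.2 h2
  have h4 := h1.sub (h3.mul_right ((p : ℂ) ^ (1 - s)))
  have e : (fun m : ℕ => (c p (m + 1) : ℂ) * (p : ℂ) ^ (-((m + 1 : ℂ) * s)) / (m + 1 : ℂ) -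
      ((c p (m + 1) * (p : ℝ) ^ (-((m : ℝ) + 1)) / ((m : ℝ) + 1) : ℝ) : ℂ) * (p : ℂ) ^ (1 - s)) =
      fun m : ℕ => (c p (m + 1) : ℂ) / (m + 1 : ℂ) *
      ((p : ℂ) ^ (-((m + 1 : ℂ) * s)) - (p : ℂ) ^ (-(m + 1 : ℂ)) * (p : ℂ) ^ (1 - s)) := by
    funext m
    push_cast
    rw [Complex.ofReal_cpow (Nat.cast_nonneg p)]
    push_cast
    ring
  rw [e] at h4
  refine ⟨h4.summable, ?_⟩
  rw [h4.tsum_eq]
  unfold dd LLc ellc
  rw [if_pos hp, if_pos hp]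
  push_cast
  ring

lemma norm_term2 {p : ℕ} (hp : good p) (m : ℕ) (s : ℂ) (hs : 1 ≤ s.re) :
    ‖(c p (m + 1 + 1) : ℂ) / (((m + 1 : ℕ) : ℂ) + 1) *
      ((p : ℂ) ^ (-((((m + 1 : ℕ) : ℂ) + 1) * s)) -
        (p : ℂ) ^ (-(((m + 1 : ℕ) : ℂ) + 1)) * (p : ℂ) ^ (1 - s))‖ ≤
      K * (p : ℝ) ^ (-s.re) * ((p : ℝ) ^ (-(1 / 2) : ℝ)) ^ m := by
  have hp0 : 0 < p := (hgood p hp).pos
  have hp0' : (0 : ℝ) < p := by exact_mod_cast hp0
  have hp1 : (1 : ℝ) ≤ p := by exact_mod_cast (hgood p hp).one_le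
  have e1 : ‖(((m + 1 : ℕ) : ℂ) + 1)‖ = (m : ℝ) + 2 := by
    have : (((m + 1 : ℕ) : ℂ) + 1) = ((m + 2 : ℕ) : ℂ) := by push_cast; ring
    rw [this, Complex.norm_natCast]; push_cast; rfl
  have hm0 : (0 : ℝ) ≤ m := by positivity
  rw [norm_mul, norm_div, e1, Complex.norm_real, Real.norm_eq_abs]
  have h1 := hc p hp (m + 1 + 1) (by omega)
  have e2 : ‖(p : ℂ) ^ (-((((m + 1 : ℕ) : ℂ) + 1) * s))‖ = (p : ℝ) ^ (-(((m : ℝ) + 2) * s.re)) := by
    rw [Complex.norm_natCast_cpow_of_pos hp0]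
    congr 1
    have : (-((((m + 1 : ℕ) : ℂ) + 1) * s)) = -(((((m : ℝ) + 2 : ℝ)) : ℂ) * s) := by push_cast; ring
    rw [this, Complex.neg_re, Complex.re_ofReal_mul]
  have e3 : ‖(p : ℂ) ^ (-(((m + 1 : ℕ) : ℂ) + 1)) * (p : ℂ) ^ (1 - s)‖ =
      (p : ℝ) ^ (-((m : ℝ) + 1) - s.re) := by
    rw [norm_mul, Complex.norm_natCast_cpow_of_pos hp0, Complex.norm_natCast_cpow_of_pos hp0,
      ← Real.rpow_add hp0']
    congr 1
    simp
    ring
  have h2 : (p : ℝ) ^ (-(((m : ℝ) + 2) * s.re)) ≤ (p : ℝ) ^ (-((m : ℝ) + 1) - s.re) := by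
    apply Real.rpow_le_rpow_of_exponent_le hp1
    nlinarith
  have h3 : ‖(p : ℂ) ^ (-((((m + 1 : ℕ) : ℂ) + 1) * s)) -
        (p : ℂ) ^ (-(((m + 1 : ℕ) : ℂ) + 1)) * (p : ℂ) ^ (1 - s)‖ ≤
      2 * (p : ℝ) ^ (-((m : ℝ) + 1) - s.re) := by
    refine (norm_sub_le _ _).trans ?_
    rw [e2, e3]
    linarith
  calc |c p (m + 1 + 1)| / ((m : ℝ) + 2) * ‖(p : ℂ) ^ (-((((m + 1 : ℕ) : ℂ) + 1) * s)) -
        (p : ℂ) ^ (-(((m + 1 : ℕ) : ℂ) + 1)) * (p : ℂ) ^ (1 - s)‖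
      ≤ (K * (p : ℝ) ^ (((m + 1 + 1 : ℕ) : ℝ) / 2)) / 2 * (2 * (p : ℝ) ^ (-((m : ℝ) + 1) - s.re)) := by
        gcongr
        linarith
    _ = K * ((p : ℝ) ^ (((m + 1 + 1 : ℕ) : ℝ) / 2) * (p : ℝ) ^ (-((m : ℝ) + 1) - s.re)) := by ring
    _ = K * ((p : ℝ) ^ (-s.re) * (p : ℝ) ^ (-((m : ℝ) / 2))) := by
        rw [← Real.rpow_add hp0', ← Real.rpow_add hp0']
        congr 2
        push_cast
        ring
    _ = _ := by rw [r_pow hgood hp m _ rfl]; ring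

lemma locC : Loc (LLc good c) (ellc good c) (4 * K) := by
  refine ⟨by positivity, ?_, ?_, ?_, ?_, ?_, ?_⟩
  · intro n s hn
    unfold LLc
    rw [if_neg fun h => hn (hgood n h)]
  · intro n hn
    unfold ellc
    rw [if_neg fun h => hn (hgood n h)]
  · intro n hn
    unfold ellc
    split_ifs with hp
    · obtain ⟨h1, h2⟩ := geom hgood hp
      have h3 := tsum_of_norm_bounded (summable_u hgood hp K) (fun m => by
        rw [Real.norm_eq_abs]; exact termR_le hgood hK hc hp m)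
      rw [abs_neg]
      rw [Real.norm_eq_abs] at h3
      refine h3.trans ?_
      have : 0 ≤ K * (n : ℝ) ^ (-(1 / 2) : ℝ) := by positivity
      nlinarith
    · simp only [abs_zero]; positivity
  · intro n s hn hs
    by_cases hp : good n
    · obtain ⟨h1, h2⟩ := dd_eq_tsum hgood hK hc hp s hs
      have hnc : (n : ℂ) ≠ 0 := by exact_mod_cast hn.ne_zero
      rw [h2, h1.tsum_eq_zero_add]
      have e0 : (c n (0 + 1) : ℂ) / (((0 : ℕ) : ℂ) + 1) *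
          ((n : ℂ) ^ (-((((0 : ℕ) : ℂ) + 1) * s)) - (n : ℂ) ^ (-(((0 : ℕ) : ℂ) + 1)) * (n : ℂ) ^ (1 - s)) = 0 := by
        have : (n : ℂ) ^ (-((((0 : ℕ) : ℂ) + 1) * s)) = (n : ℂ) ^ (-(((0 : ℕ) : ℂ) + 1)) * (n : ℂ) ^ (1 - s) := by
          rw [← Complex.cpow_add _ _ hnc]
          congr 1
          push_cast
          ring
        rw [this, sub_self, mul_zero]
      rw [e0, zero_add]
      obtain ⟨h3, h4⟩ := geom hgood hp
      refine (tsum_of_norm_bounded (h3.mul_left (K * (n : ℝ) ^ (-s.re))) (fun m =>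
        norm_term2 hgood hK hc hp m s hs)).trans ?_
      have : 0 ≤ K * (n : ℝ) ^ (-s.re) := by positivity
      nlinarith
    · unfold dd LLc ellc
      rw [if_neg hp, if_neg hp]
      simp only [Complex.ofReal_zero, zero_mul, add_zero, norm_zero]
      positivity
  · intro n w hn hw
    have hn1 : (1 : ℝ) ≤ n := by exact_mod_cast hn.one_le
    have hn0 : (0 : ℝ) < n := by exact_mod_cast hn.pos
    have hnn : 0 ≤ (n : ℝ) ^ (-(1 + w)) - (n : ℝ) ^ (-(1 + 2 * w)) := by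
      rw [sub_nonneg]
      exact Real.rpow_le_rpow_of_exponent_le hn1 (by linarith)
    by_cases hp : good n
    · have hre : 1 ≤ ((1 : ℂ) + w).re := by simp; linarith
      obtain ⟨h1, h2⟩ := dd_eq_tsum hgood hK hc hp (1 + w) hre
      have hnc : (n : ℂ) ≠ 0 := by exact_mod_cast hn.ne_zero
      rw [h2, h1.tsum_eq_zero_add]
      have e0 : (c n (0 + 1) : ℂ) / (((0 : ℕ) : ℂ) + 1) *
          ((n : ℂ) ^ (-((((0 : ℕ) : ℂ) + 1) * (1 + w))) - (n : ℂ) ^ (-(((0 : ℕ) : ℂ) + 1)) * (n : ℂ) ^ (1 - (1 + (w : ℂ)))) = 0 := by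
        have : (n : ℂ) ^ (-((((0 : ℕ) : ℂ) + 1) * (1 + w))) = (n : ℂ) ^ (-(((0 : ℕ) : ℂ) + 1)) * (n : ℂ) ^ (1 - (1 + (w : ℂ))) := by
          rw [← Complex.cpow_add _ _ hnc]
          congr 1
          push_cast
          ring
        rw [this, sub_self, mul_zero]
      rw [e0, zero_add]
      have hs2 := (summable_nat_add_iff 1).2 h1
      rw [hs2.tsum_eq_zero_add]
      -- norms of the terms with positive real `w`
      have hterm : ∀ m : ℕ, ‖(c n (m + 1 + 1) : ℂ) / (((m + 1 : ℕ) : ℂ) + 1) *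
          ((n : ℂ) ^ (-((((m + 1 : ℕ) : ℂ) + 1) * (1 + w))) -
          (n : ℂ) ^ (-(((m + 1 : ℕ) : ℂ) + 1)) * (n : ℂ) ^ (1 - (1 + (w : ℂ))))‖ ≤
          K * (n : ℝ) ^ (((m : ℝ) + 2) / 2) / 2 *
            ((n : ℝ) ^ (-((m : ℝ) + 2) - w) - (n : ℝ) ^ (-(((m : ℝ) + 2) * (1 + w)))) := by
        intro m
        have e1 : ‖(((m + 1 : ℕ) : ℂ) + 1)‖ = (m : ℝ) + 2 := by
          have : (((m + 1 : ℕ) : ℂ) + 1) = ((m + 2 : ℕ) : ℂ) := by push_cast; ring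
          rw [this, Complex.norm_natCast]; push_cast; rfl
        have hm0 : (0 : ℝ) ≤ m := by positivity
        rw [norm_mul, norm_div, e1, Complex.norm_real, Real.norm_eq_abs]
        have h5 := hc n hp (m + 1 + 1) (by omega)
        have e2 : (n : ℂ) ^ (-((((m + 1 : ℕ) : ℂ) + 1) * (1 + w))) =
            (((n : ℝ) ^ (-(((m : ℝ) + 2) * (1 + w))) : ℝ) : ℂ) := by
          rw [Complex.ofReal_cpow hn0.le]
          push_cast
          congr 1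
          ring
        have e3 : (n : ℂ) ^ (-(((m + 1 : ℕ) : ℂ) + 1)) * (n : ℂ) ^ (1 - (1 + (w : ℂ))) =
            (((n : ℝ) ^ (-((m : ℝ) + 2) - w) : ℝ) : ℂ) := by
          rw [← Complex.cpow_add _ _ hnc, Complex.ofReal_cpow hn0.le]
          push_cast
          congr 1
          ring
        have h6 : (n : ℝ) ^ (-(((m : ℝ) + 2) * (1 + w))) ≤ (n : ℝ) ^ (-((m : ℝ) + 2) - w) := by
          apply Real.rpow_le_rpow_of_exponent_le hn1
          nlinarith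
        rw [e2, e3, ← Complex.ofReal_sub, Complex.norm_real, Real.norm_eq_abs,
          abs_of_nonpos (a := (n : ℝ) ^ (-(((m : ℝ) + 2) * (1 + w))) - (n : ℝ) ^ (-((m : ℝ) + 2) - w))
          (by linarith), neg_sub]
        refine mul_le_mul_of_nonneg_right ?_ (by linarith)
        have e4 : ((m + 1 + 1 : ℕ) : ℝ) / 2 = ((m : ℝ) + 2) / 2 := by push_cast; ring
        rw [e4] at h5
        calc |c n (m + 1 + 1)| / ((m : ℝ) + 2) ≤ |c n (m + 1 + 1)| / 2 := by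
              apply div_le_div_of_nonneg_left (abs_nonneg _) (by norm_num) (by linarith)
          _ ≤ _ := by linarith
      have ht0 := hterm 0
      have e5 : (((0 : ℕ) : ℝ) + 2) / 2 = 1 := by norm_num
      have e6 : K * (n : ℝ) ^ ((((0 : ℕ) : ℝ) + 2) / 2) / 2 *
          ((n : ℝ) ^ (-(((0 : ℕ) : ℝ) + 2) - w) - (n : ℝ) ^ (-((((0 : ℕ) : ℝ) + 2) * (1 + w)))) =
          K / 2 * ((n : ℝ) ^ (-(1 + w)) - (n : ℝ) ^ (-(1 + 2 * w))) := by
        have a1 : (n : ℝ) ^ (-(1 + w)) = (n : ℝ) * (n : ℝ) ^ (-(((0 : ℕ) : ℝ) + 2) - w) := by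
          nth_rewrite 2 [← Real.rpow_one (n : ℝ)]
          rw [← Real.rpow_add hn0]; congr 1; push_cast; ring
        have a2 : (n : ℝ) ^ (-(1 + 2 * w)) = (n : ℝ) * (n : ℝ) ^ (-((((0 : ℕ) : ℝ) + 2) * (1 + w))) := by
          nth_rewrite 2 [← Real.rpow_one (n : ℝ)]
          rw [← Real.rpow_add hn0]; congr 1; push_cast; ring
        rw [e5, Real.rpow_one, a1, a2]
        ring
      rw [e6] at ht0
      have htail : ∀ m : ℕ, ‖(c n (m + 1 + 1 + 1) : ℂ) / (((m + 1 + 1 : ℕ) : ℂ) + 1) *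
          ((n : ℂ) ^ (-((((m + 1 + 1 : ℕ) : ℂ) + 1) * (1 + w))) -
          (n : ℂ) ^ (-(((m + 1 + 1 : ℕ) : ℂ) + 1)) * (n : ℂ) ^ (1 - (1 + (w : ℂ))))‖ ≤
          K * (n : ℝ) ^ (-(3 / 2) : ℝ) * ((n : ℝ) ^ (-(1 / 2) : ℝ)) ^ m := by
        intro m
        refine (hterm (m + 1)).trans ?_
        have h7 : (n : ℝ) ^ (-(((m + 1 : ℕ) : ℝ) + 2) - w) ≤ (n : ℝ) ^ (-(((m + 1 : ℕ) : ℝ) + 2)) :=
          Real.rpow_le_rpow_of_exponent_le hn1 (by linarith)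
        have h8 : 0 ≤ (n : ℝ) ^ (-((((m + 1 : ℕ) : ℝ) + 2) * (1 + w))) := by positivity
        calc K * (n : ℝ) ^ ((((m + 1 : ℕ) : ℝ) + 2) / 2) / 2 *
            ((n : ℝ) ^ (-(((m + 1 : ℕ) : ℝ) + 2) - w) - (n : ℝ) ^ (-((((m + 1 : ℕ) : ℝ) + 2) * (1 + w))))
            ≤ K * (n : ℝ) ^ ((((m + 1 : ℕ) : ℝ) + 2) / 2) / 2 * (n : ℝ) ^ (-(((m + 1 : ℕ) : ℝ) + 2)) :=
              mul_le_mul_of_nonneg_left (by linarith) (by positivity)
          _ = K / 2 * ((n : ℝ) ^ ((((m + 1 : ℕ) : ℝ) + 2) / 2) * (n : ℝ) ^ (-(((m + 1 : ℕ) : ℝ) + 2))) := by ring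
          _ = K / 2 * ((n : ℝ) ^ (-(3 / 2) : ℝ) * (n : ℝ) ^ (-((m : ℝ) / 2))) := by
              rw [← Real.rpow_add hn0, ← Real.rpow_add hn0]
              congr 2
              push_cast
              ring
          _ = K / 2 * ((n : ℝ) ^ (-(3 / 2) : ℝ) * ((n : ℝ) ^ (-(1 / 2) : ℝ)) ^ m) := by
              rw [r_pow hgood hp m _ rfl]
          _ ≤ _ := by
              have : 0 ≤ K * ((n : ℝ) ^ (-(3 / 2) : ℝ) * ((n : ℝ) ^ (-(1 / 2) : ℝ)) ^ m) := by positivity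
              nlinarith
      obtain ⟨h3, h4⟩ := geom hgood hp
      have h9 := (tsum_of_norm_bounded (h3.mul_left (K * (n : ℝ) ^ (-(3 / 2) : ℝ))) htail)
      have h10 : K * (n : ℝ) ^ (-(3 / 2) : ℝ) * (1 - (n : ℝ) ^ (-(1 / 2) : ℝ))⁻¹ ≤
          4 * K * (n : ℝ) ^ (-(3 / 2) : ℝ) := by
        have : 0 ≤ K * (n : ℝ) ^ (-(3 / 2) : ℝ) := by positivity
        nlinarith
      refine (norm_add_le _ _).trans ?_
      have h11 := add_le_add ht0 (h9.trans h10)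
      refine h11.trans ?_
      have h12 : 0 ≤ K * ((n : ℝ) ^ (-(1 + w)) - (n : ℝ) ^ (-(1 + 2 * w))) := mul_nonneg hK hnn
      nlinarith
    · unfold dd LLc ellc
      rw [if_neg hp, if_neg hp]
      simp only [Complex.ofReal_zero, zero_mul, add_zero, norm_zero]
      positivity
  · intro n
    by_cases hp : good n
    · have hnc : (n : ℂ) ≠ 0 := by exact_mod_cast (hgood n hp).ne_zero
      have e : LLc good c n = fun s => ∑' m : ℕ, (c n (m + 1) : ℂ) * (n : ℂ) ^ (-((m + 1 : ℂ) * s)) / (m + 1 : ℂ) := by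
        funext s
        unfold LLc
        rw [if_pos hp]
      rw [e]
      refine differentiableOn_tsum_of_summable_norm (u := fun m : ℕ => K * ((n : ℝ) ^ (-(1 / 2) : ℝ)) ^ (m + 1))
        (summable_u hgood hp K).summable (fun m => ?_) (isOpen_re_gt 1) (fun m s hs => ?_)
      · intro s _
        have d1 : DifferentiableAt ℂ (fun s : ℂ => (n : ℂ) ^ (-((m + 1 : ℂ) * s))) s :=
          DifferentiableAt.const_cpow (by fun_prop) (Or.inl hnc)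
        exact ((d1.const_mul _).div_const _).differentiableWithinAt
      · exact termC_le hgood hK hc hp m s (le_of_lt hs)
    · have e : LLc good c n = fun _ => 0 := by
        funext s
        unfold LLc
        rw [if_neg hp]
      rw [e]
      exact differentiableOn_const _

end

end Pool.Agent.H438R3.BSD.Gen
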