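import Pool.Agent.H438R3.BSD.CnvH
import Pool.Agent.H438R3.BSD.GenN2

/-! The final equivalences for general local data. -/

set_option autoImplicit false
set_option maxHeartbeats 2000000

open Complex Filter Topology Finset

namespace Pool.Agent.H438R3.BSD.GenN

open Pool.Agent.H438R3.BSD Pool.Agent.H814R3.BSD

lemma harm_le (x : ℕ) (hx : 1 ≤ x) : ∑ n ∈ Finset.Icc 2 x, (1 : ℝ) / n ≤ Real.log x := by
  induction x, hx using Nat.le_induction with
  | base => simp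
  | succ n hn ih =>
    rw [Finset.sum_Icc_succ_top (by omega)]
    have hn0 : (0 : ℝ) < (n : ℝ) := by exact_mod_cast hn
    have h1 : 1 / ((n + 1 : ℕ) : ℝ) ≤ Real.log ((n + 1 : ℕ) : ℝ) - Real.log n := by
      have h2 := Real.one_sub_inv_le_log_of_pos (x := ((n + 1 : ℕ) : ℝ) / n) (by positivity)
      rw [Real.log_div (by positivity) hn0.ne'] at h2
      have e : 1 - (((n + 1 : ℕ) : ℝ) / n)⁻¹ = 1 / ((n + 1 : ℕ) : ℝ) := by
        push_cast
        field_simp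
        ring
      linarith
    linarith

lemma LA_diff (f g : ℕ → ℝ) (B : ℝ) (h : ∀ n, |f n - g n| ≤ B) (κ : ℝ) (x : ℕ) :
    |LA f κ x - LA g κ x| ≤ B := by
  have hB : 0 ≤ B := (abs_nonneg _).trans (h 0)
  rcases Nat.lt_or_ge x 2 with hx | hx
  · have : Real.log (x : ℝ) = 0 := by
      interval_cases x <;> simp
    unfold LA
    rw [this]
    simpa using hB
  · have hl : 0 < Real.log (x : ℝ) := Real.log_pos (by exact_mod_cast (by omega : 1 < x))
    unfold LA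
    rw [← sub_div, abs_div, abs_of_pos hl, div_le_iff₀ hl, ← Finset.sum_sub_distrib]
    calc |∑ n ∈ Finset.Icc 2 x, ((f n - κ * Real.log (Real.log n)) / n -
          (g n - κ * Real.log (Real.log n)) / n)|
        ≤ ∑ n ∈ Finset.Icc 2 x, |(f n - κ * Real.log (Real.log n)) / n -
          (g n - κ * Real.log (Real.log n)) / n| := Finset.abs_sum_le_sum_abs _ _
      _ ≤ ∑ n ∈ Finset.Icc 2 x, B * (1 / n) := by
          refine Finset.sum_le_sum fun n hn => ?_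
          have hn0 : (0 : ℝ) < n := by
            have := (Finset.mem_Icc.1 hn).1
            exact_mod_cast (by omega : 0 < n)
          rw [← sub_div, abs_div, abs_of_pos hn0, div_eq_mul_one_div]
          refine mul_le_mul_of_nonneg_right ?_ (by positivity)
          have e : f n - κ * Real.log (Real.log n) - (g n - κ * Real.log (Real.log n)) =
            f n - g n := by ring
          rw [e]
          exact h n
      _ = B * ∑ n ∈ Finset.Icc 2 x, (1 : ℝ) / n := by rw [Finset.mul_sum]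
      _ ≤ _ := mul_le_mul_of_nonneg_left (harm_le x (by omega)) hB

section

variable {good : ℕ → Prop} [DecidablePred good] {c : ℕ → ℕ → ℝ}
variable {K : ℝ} (hgood : ∀ p, good p → 2 ≤ p) (hK : 0 ≤ K)
  (hc : ∀ p, good p → ∀ m : ℕ, 1 ≤ m → |c p m| ≤ K * (p : ℝ) ^ ((m : ℝ) / 2))

include hgood hK hc

theorem equiv (hsum : Summable (fun n : ℕ => if good n ∧ ¬ n.Prime then (1 : ℝ) / n else 0))
    {F : ℂ → ℂ} (hF : Differentiable ℂ F)
    (hprod : ∀ s : ℂ, 3 / 2 < s.re → HasProd (fun p : ℕ => exp (LLc good c p s)) (F s))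
    (hgr : ∃ C K : ℝ, ∀ s : ℂ, 1 ≤ s.re → ‖F s‖ ≤ C * (1 + ‖s‖) ^ K)
    (f g : ℕ → ℝ) (hf : ∀ n, f n = lE (ellc good c) n)
    (hg : ∀ n, g n = -∑ x ∈ GG n, tt good c x) :
    ∃ (m : ℕ) (l : ℂ), analyticOrderAt F 1 = m ∧ l ≠ 0 ∧
      Tendsto (fun s : ℂ => F s / (s - 1) ^ m) (𝓝[≠] 1) (𝓝 l) ∧
      ∀ κ : ℝ, List.TFAE [
        (∀ s : ℂ, 1 < s.re → F s ≠ 0) ∧ κ = m,
        κ ≤ m ∧ ∃ C : ℝ, ∀ n : ℕ, LA f κ n ≤ C,
        ∃ C : ℝ, ∀ n : ℕ, |LA f κ n| ≤ C,
        κ ≤ m ∧ ∃ C : ℝ, ∀ n : ℕ, LA g κ n ≤ C,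
        ∃ t : ℝ, Tendsto (fun n : ℕ => LA g κ n) atTop (𝓝 t),
        Tendsto (fun n : ℕ => LA g κ n) atTop
          (𝓝 (κ * Real.eulerMascheroniConstant - Real.log ‖l‖))] := by
  have hloc := locC hgood hK hc hsum
  obtain ⟨m, hm, hM1, hM2⟩ := main hloc hF hprod f 0 (fun n => by rw [hf n]; simp)
  obtain ⟨B, hB⟩ := compare hgood hK hc hsum
  have hfg : ∀ n, |f n - g n| ≤ B := by
    intro n
    rw [hf n, hg n, ← sum_pa, abs_sub_comm]
    exact hB n
  obtain ⟨h, hga, hg1, hfac⟩ := (hF.analyticAt 1).analyticOrderAt_eq_natCast.1 hm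
  have hfac' : ∀ᶠ z in 𝓝 (1 : ℂ), F z = (z - 1) ^ m * h z := by
    filter_upwards [hfac] with z hz
    rw [hz, smul_eq_mul]
  have lim : (∀ s : ℂ, 1 < s.re → F s ≠ 0) → Tendsto (fun n : ℕ => LA g m n) atTop
      (𝓝 (m * Real.eulerMascheroniConstant - Real.log ‖h 1‖)) := by
    intro hRH
    have h1 := (conv_gen hgood hK hc TBC.bc_ok hF hprod hgr hRH m h hga hg1 hfac').neg
    have e : -(Real.log ‖h 1‖ - m * Real.eulerMascheroniConstant) =
        m * Real.eulerMascheroniConstant - Real.log ‖h 1‖ := by ring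
    rw [← e]
    refine h1.congr fun n => ?_
    unfold LA
    rw [← neg_div, ← Finset.sum_neg_distrib]
    congr 1
    refine Finset.sum_congr rfl fun j _ => ?_
    rw [hg j, ← sum_pa]
    ring
  have bdd : ∀ (u : ℕ → ℝ) (t : ℝ), Tendsto u atTop (𝓝 t) → ∃ C : ℝ, ∀ n, |u n| ≤ C := by
    intro u t ht
    obtain ⟨C, hC⟩ := (Metric.isBounded_range_of_tendsto _ ht).exists_norm_le
    exact ⟨C, fun n => by
      have := hC _ (Set.mem_range_self n)
      rwa [Real.norm_eq_abs] at this⟩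
  have up : ∀ κ : ℝ, (∃ C : ℝ, ∀ n : ℕ, LA f κ n ≤ C) →
      (∀ s : ℂ, 1 < s.re → F s ≠ 0) ∧ (m : ℝ) ≤ κ := by
    rintro κ ⟨C, hC⟩
    have h1 : ¬ (κ < m ∨ ∃ ρ : ℂ, 1 < ρ.re ∧ F ρ = 0) := by
      intro h
      obtain ⟨n, hn⟩ := (hM1 κ h C).1.exists
      exact absurd (hC n) (not_le.2 hn)
    push Not at h1
    exact ⟨fun s hs => h1.2 s hs, h1.1⟩
  refine ⟨m, h 1, hm, hg1, ?_, fun κ => ?_⟩
  · have h1 : Tendsto h (𝓝[≠] 1) (𝓝 (h 1)) := hga.continuousAt.tendsto.mono_left nhdsWithin_le_nhds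
    refine h1.congr' ?_
    filter_upwards [nhdsWithin_le_nhds hfac', self_mem_nhdsWithin] with z hz hz1
    rw [hz, mul_div_cancel_left₀]
    exact pow_ne_zero _ (sub_ne_zero.2 hz1)
  · tfae_have 1 → 6 := by
      rintro ⟨h1, h2⟩
      rw [h2]
      exact lim h1
    tfae_have 6 → 5 := fun h => ⟨_, h⟩
    tfae_have 5 → 3 := by
      rintro ⟨t, ht⟩
      obtain ⟨C, hC⟩ := bdd _ t ht
      refine ⟨C + B, fun n => ?_⟩
      have h1 := LA_diff f g B hfg κ n
      have e : LA f κ n = LA g κ n + (LA f κ n - LA g κ n) := by ring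
      rw [e]
      exact (abs_add_le _ _).trans (add_le_add (hC n) h1)
    tfae_have 3 → 1 := by
      rintro ⟨C, hC⟩
      obtain ⟨h1, h2⟩ := up κ ⟨C, fun n => (le_abs_self _).trans (hC n)⟩
      refine ⟨h1, le_antisymm ?_ h2⟩
      by_contra hcon
      push Not at hcon
      obtain ⟨n, hn⟩ := (hM2 (fun σ hσ => h1 σ (by simpa using hσ)) κ (Or.inl hcon) (-C)).1.exists
      have h4 := (abs_le.1 (hC n)).1
      linarith
    tfae_have 1 → 4 := by
      rintro ⟨h1, h2⟩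
      refine ⟨h2.le, ?_⟩
      rw [h2]
      obtain ⟨C, hC⟩ := bdd _ _ (lim h1)
      exact ⟨C, fun n => (le_abs_self _).trans (hC n)⟩
    tfae_have 4 → 2 := by
      rintro ⟨h1, C, hC⟩
      refine ⟨h1, C + B, fun n => ?_⟩
      have h2 := (abs_le.1 (LA_diff f g B hfg κ n)).2
      linarith [hC n]
    tfae_have 2 → 1 := by
      rintro ⟨h1, h2⟩
      obtain ⟨h3, h4⟩ := up κ h2
      exact ⟨h3, le_antisymm h1 h4⟩
    tfae_finish

end

end Pool.Agent.H438R3.BSD.GenN
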