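import Pool.Agent.H438R3.BSD.CnvG
import Pool.Agent.H814R3.BSD.T_BC

/-! Comparison of the sum over the prime powers up to `n` with the product over the primes up to `n`,
and the final equivalences for general local data. -/

set_option autoImplicit false
set_option maxHeartbeats 2000000

open Complex Filter Topology Finset

namespace Pool.Agent.H438R3.BSD.GenN

open Pool.Agent.H438R3.BSD Pool.Agent.H814R3.BSD

lemma mertens_tail : ∃ M : ℝ, 0 ≤ M ∧ ∀ n : ℕ,
    ∑ p ∈ (Finset.Icc 1 n).filter (fun p => p.Prime ∧ n < p ^ 2), (1 : ℝ) / p ≤ M := by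
  obtain ⟨C1, hC1, hup⟩ := Pool.Agent.Helper256.KM.mertens_upper
  obtain ⟨C2, hC2, hlow⟩ := Pool.Agent.Helper256.KM.mertens_lower
  refine ⟨Real.log 4 + C1 + C2 + 3, by have := Real.log_nonneg (by norm_num : (1 : ℝ) ≤ 4); linarith,
    fun n => ?_⟩
  have hl4 : 0 ≤ Real.log 4 := Real.log_nonneg (by norm_num)
  set s := Nat.sqrt n with hs
  rcases Nat.lt_or_ge s 2 with hs2 | hs2
  · have hn : n ≤ 3 := by
      have h1 : n < (s + 1) * (s + 1) := Nat.lt_succ_sqrt n
      have h2 : (s + 1) * (s + 1) ≤ 2 * 2 := Nat.mul_le_mul (by omega) (by omega)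
      omega
    calc ∑ p ∈ (Finset.Icc 1 n).filter (fun p => p.Prime ∧ n < p ^ 2), (1 : ℝ) / p
        ≤ ∑ p ∈ Finset.Icc 1 n, (1 : ℝ) / p :=
          Finset.sum_le_sum_of_subset_of_nonneg (Finset.filter_subset _ _) fun _ _ _ => by positivity
      _ ≤ ∑ p ∈ Finset.Icc 1 n, (1 : ℝ) := by
          refine Finset.sum_le_sum fun p hp => ?_
          have h1 : (1 : ℝ) ≤ p := by exact_mod_cast (Finset.mem_Icc.1 hp).1
          rw [div_le_one (by linarith)]
          exact h1
      _ = n := by simp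
      _ ≤ 3 := by exact_mod_cast hn
      _ ≤ _ := by linarith
  · have hsn : s ≤ n := Nat.sqrt_le_self n
    have hs2' : (2 : ℝ) ≤ s := by exact_mod_cast hs2
    have hn2' : (2 : ℝ) ≤ n := by exact_mod_cast le_trans hs2 hsn
    have h1 := hup n hn2'
    have h2 := hlow s hs2'
    rw [Nat.floor_natCast] at h1 h2
    have h3 : ∑ p ∈ (Finset.Icc 1 n).filter (fun p => p.Prime ∧ n < p ^ 2), (1 : ℝ) / p +
        ∑ p ∈ (Finset.Icc 1 s).filter Nat.Prime, (1 : ℝ) / p =
        ∑ p ∈ (Finset.Icc 1 n).filter Nat.Prime, (1 : ℝ) / p := by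
      have hsplit := Finset.sum_filter_add_sum_filter_not ((Finset.Icc 1 n).filter Nat.Prime)
        (fun p => n < p ^ 2) (fun p : ℕ => (1 : ℝ) / p)
      rw [← hsplit]
      congr 1
      · rw [Finset.filter_filter]
      · refine Finset.sum_congr ?_ fun _ _ => rfl
        ext p
        simp only [Finset.mem_filter, Finset.mem_Icc, not_lt]
        constructor
        · rintro ⟨⟨a1, a2⟩, a3⟩
          refine ⟨⟨⟨a1, a2.trans hsn⟩, a3⟩, ?_⟩
          calc p ^ 2 ≤ s ^ 2 := Nat.pow_le_pow_left a2 2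
            _ ≤ n := Nat.sqrt_le' n
        · rintro ⟨⟨⟨a1, a2⟩, a3⟩, a4⟩
          refine ⟨⟨a1, ?_⟩, a3⟩
          exact Nat.le_sqrt'.2 a4
    have h4 : Real.log n ≤ 4 * Real.log s := by
      have h5 : n ≤ s ^ 4 := by
        have h6 : n < (s + 1) * (s + 1) := Nat.lt_succ_sqrt n
        have h7 : s + 1 ≤ s ^ 2 := by nlinarith
        calc n ≤ (s + 1) * (s + 1) := h6.le
          _ ≤ s ^ 2 * s ^ 2 := Nat.mul_le_mul h7 h7
          _ = s ^ 4 := by ring
      have h8 : Real.log n ≤ Real.log ((s : ℝ) ^ 4) :=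
        Real.log_le_log (by linarith) (by exact_mod_cast h5)
      rw [Real.log_pow] at h8
      exact_mod_cast h8
    have hlogs : 0 < Real.log s := Real.log_pos (by linarith)
    have hlogn : 0 < Real.log n := Real.log_pos (by linarith)
    have h9 : Real.log (Real.log n) ≤ Real.log 4 + Real.log (Real.log s) := by
      rw [← Real.log_mul (by norm_num) hlogs.ne']
      exact Real.log_le_log hlogn h4
    linarith

/-- the prime powers up to `n` -/
def GG (n : ℕ) : Finset (ℕ × ℕ) :=
  ((Finset.range (n + 1)) ×ˢ (Finset.range n)).filter (fun x => 2 ≤ x.1 ∧ x.1 ^ (x.2 + 1) ≤ n)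

lemma mem_GG {n : ℕ} {x : ℕ × ℕ} : x ∈ GG n ↔ 2 ≤ x.1 ∧ x.1 ^ (x.2 + 1) ≤ n := by
  unfold GG
  rw [Finset.mem_filter, Finset.mem_product, Finset.mem_range, Finset.mem_range]
  constructor
  · exact fun h => h.2
  · intro h
    refine ⟨⟨?_, ?_⟩, h⟩
    · have h1 : x.1 ≤ x.1 ^ (x.2 + 1) := Nat.le_self_pow (by omega) _
      omega
    · have h1 : x.2 < 2 ^ x.2 := Nat.lt_two_pow_self
      have h2 : 2 ^ x.2 ≤ 2 ^ (x.2 + 1) := Nat.pow_le_pow_right (by norm_num) (by omega)
      have h3 : 2 ^ (x.2 + 1) ≤ x.1 ^ (x.2 + 1) := Nat.pow_le_pow_left h.1 _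
      omega

section

variable (good : ℕ → Prop) [DecidablePred good] (c : ℕ → ℕ → ℝ)

lemma sum_pa (n : ℕ) : ∑ k ∈ Finset.Icc 1 n, pa good c k = ∑ x ∈ GG n, tt good c x := by
  rw [← Finset.sum_fiberwise_of_maps_to (s := GG n) (t := Finset.Icc 1 n)
    (g := fun x : ℕ × ℕ => x.1 ^ (x.2 + 1))]
  · refine Finset.sum_congr rfl fun k hk => ?_
    unfold pa
    refine Finset.sum_congr ?_ fun _ _ => rfl
    ext x
    rw [mem_ff, Finset.mem_filter, mem_GG]
    have := (Finset.mem_Icc.1 hk).2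
    constructor
    · rintro ⟨h1, h2⟩
      exact ⟨⟨h1, by omega⟩, h2⟩
    · rintro ⟨⟨h1, -⟩, h2⟩
      exact ⟨h1, h2⟩
  · intro x hx
    rw [mem_GG] at hx
    rw [Finset.mem_Icc]
    exact ⟨Nat.pow_pos (by omega), hx.2⟩

variable {good c}
variable {K : ℝ} (hgood : ∀ p, good p → 2 ≤ p) (hK : 0 ≤ K)
  (hc : ∀ p, good p → ∀ m : ℕ, 1 ≤ m → |c p m| ≤ K * (p : ℝ) ^ ((m : ℝ) / 2))

include hgood hK hc

/-- the tail at `q` -/
lemma tail_q (n q : ℕ) (hqn : q ≤ n) :
    |(-∑ m ∈ Finset.range n, if 2 ≤ q ∧ q ^ (m + 1) ≤ n then tt good c (q, m) else 0) - ellc good c q| ≤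
      K * (if good q ∧ n < q ^ 2 then 1 / (q : ℝ) else 0) + 6 * K * (q : ℝ) ^ (-(3 / 2) : ℝ) := by
  by_cases hq : good q
  · have hq2 := hgood q hq
    have hq0 : (0 : ℝ) < q := by exact_mod_cast (by omega : 0 < q)
    set r : ℝ := (q : ℝ) ^ (-(1 / 2) : ℝ) with hr
    have hr0 : 0 ≤ r := by positivity
    have hr1 : r ≤ 0.71 := r_le hgood hq
    have hrr : r ^ 2 = 1 / q := by
      have h0 : r ^ 2 = (q : ℝ) ^ (-1 : ℝ) := by
        rw [hr, ← Real.rpow_natCast, ← Real.rpow_mul hq0.le]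
        congr 1
        norm_num
      rw [h0, Real.rpow_neg_one, one_div]
    have hr3 : r ^ 3 = (q : ℝ) ^ (-(3 / 2) : ℝ) := by
      rw [hr, ← Real.rpow_natCast, ← Real.rpow_mul hq0.le]
      norm_num
    have htt : ∀ m, |tt good c (q, m)| ≤ K * r ^ (m + 1) := by
      intro m
      unfold tt
      simp only
      rw [if_pos hq]
      exact termR_le hgood hK hc hq m
    have hf : HasSum (fun m : ℕ => tt good c (q, m)) (-ellc good c q) := by
      have h1 := (summable_R hgood hK hc hq).hasSum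
      unfold ellc tt
      simp only [if_pos hq]
      rw [neg_neg]
      exact h1
    set f' : ℕ → ℝ := fun m => if 2 ≤ q ∧ q ^ (m + 1) ≤ n then tt good c (q, m) else 0 with hf'
    have hf's : HasSum f' (∑ m ∈ Finset.range n, f' m) := by
      apply hasSum_sum_of_ne_finset_zero
      intro m hm
      rw [Finset.mem_range, not_lt] at hm
      rw [hf']
      simp only
      rw [if_neg]
      rintro ⟨-, h⟩
      have h1 : m < 2 ^ m := Nat.lt_two_pow_self
      have h2 : 2 ^ m ≤ 2 ^ (m + 1) := Nat.pow_le_pow_right (by norm_num) (by omega)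
      have h3 : 2 ^ (m + 1) ≤ q ^ (m + 1) := Nat.pow_le_pow_left hq2 _
      omega
    have hd := hf.sub hf's
    set b : ℕ → ℝ := fun m => (if m = 1 then K * (if n < q ^ 2 then r ^ 2 else 0) else 0) +
      K * r ^ 3 * (0.71 : ℝ) ^ (m - 2) with hb
    have hgeo : HasSum (fun m : ℕ => (0.71 : ℝ) ^ (m - 2)) (2 + (1 - 0.71)⁻¹) := by
      have h1 : HasSum (fun m : ℕ => (0.71 : ℝ) ^ (m + 2 - 2)) ((1 - 0.71)⁻¹) := by
        simp only [Nat.add_sub_cancel]
        exact hasSum_geometric_of_lt_one (by norm_num) (by norm_num)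
      have h2 := (hasSum_nat_add_iff (f := fun m : ℕ => (0.71 : ℝ) ^ (m - 2)) 2).1 h1
      simp only [Finset.sum_range_succ, Finset.sum_range_zero] at h2
      norm_num at h2 ⊢
      convert h2 using 1
    have hbs : HasSum b (K * (if n < q ^ 2 then r ^ 2 else 0) + K * r ^ 3 * (2 + (1 - 0.71)⁻¹)) :=
      (hasSum_ite_eq 1 _).add (hgeo.mul_left _)
    have hle : ∀ m, ‖tt good c (q, m) - f' m‖ ≤ b m := by
      intro m
      rw [Real.norm_eq_abs, hf', hb]
      simp only
      by_cases hm : q ^ (m + 1) ≤ n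
      · rw [if_pos ⟨hq2, hm⟩, sub_self, abs_zero]
        split_ifs <;> positivity
      · rw [if_neg (fun h => hm h.2), sub_zero]
        have h1 := htt m
        rcases Nat.lt_trichotomy m 1 with h | h | h
        · exfalso
          have : m = 0 := by omega
          subst this
          rw [zero_add, pow_one] at hm
          exact hm hqn
        · subst h
          rw [if_pos rfl, if_pos (by push Not at hm; exact hm)]
          have h2 : 0 ≤ K * r ^ 3 * (0.71 : ℝ) ^ (1 - 2) := by positivity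
          have h3 : |tt good c (q, 1)| ≤ K * r ^ 2 := h1
          linarith
        · rw [if_neg (by omega), zero_add]
          refine h1.trans ?_
          have e : m + 1 = 3 + (m - 2) := by omega
          rw [e, pow_add, mul_assoc]
          refine mul_le_mul_of_nonneg_left ?_ hK
          exact mul_le_mul_of_nonneg_left (pow_le_pow_left₀ hr0 hr1 _) (by positivity)
    have h1 := tsum_of_norm_bounded hbs hle
    rw [hd.tsum_eq, Real.norm_eq_abs] at h1
    have e1 : (-∑ m ∈ Finset.range n, f' m) - ellc good c q =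
        -ellc good c q - ∑ m ∈ Finset.range n, f' m := by ring
    rw [e1]
    refine h1.trans ?_
    have e2 : (if n < q ^ 2 then r ^ 2 else 0) = (if good q ∧ n < q ^ 2 then 1 / (q : ℝ) else 0) := by
      by_cases h : n < q ^ 2
      · rw [if_pos h, if_pos ⟨hq, h⟩, hrr]
      · rw [if_neg h, if_neg fun h' => h h'.2]
    rw [e2, hr3]
    have h5 : (2 + (1 - 0.71)⁻¹ : ℝ) ≤ 6 := by norm_num
    have h6 : 0 ≤ K * (q : ℝ) ^ (-(3 / 2) : ℝ) := by positivity
    nlinarith
  · have h1 : ∀ m, tt good c (q, m) = 0 := by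
      intro m
      unfold tt
      rw [if_neg hq]
    simp only [h1, ite_self, Finset.sum_const_zero, neg_zero]
    unfold ellc
    rw [if_neg hq, sub_zero, abs_zero]
    have : (if good q ∧ n < q ^ 2 then 1 / (q : ℝ) else 0) = 0 := if_neg fun h => hq h.1
    rw [this]
    positivity

lemma compare (hsum : Summable (fun n : ℕ => if good n ∧ ¬ n.Prime then (1 : ℝ) / n else 0)) :
    ∃ B : ℝ, ∀ n : ℕ, |(-∑ k ∈ Finset.Icc 1 n, pa good c k) - lE (ellc good c) n| ≤ B := by
  obtain ⟨M, hM0, hM⟩ := mertens_tail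
  have hs2 : Summable (fun q : ℕ => (q : ℝ) ^ (-(3 / 2) : ℝ)) := Real.summable_nat_rpow.2 (by norm_num)
  refine ⟨K * (M + ∑' n : ℕ, if good n ∧ ¬ n.Prime then (1 : ℝ) / n else 0) +
    6 * K * ∑' q : ℕ, (q : ℝ) ^ (-(3 / 2) : ℝ), fun n => ?_⟩
  have e1 : ∑ k ∈ Finset.Icc 1 n, pa good c k = ∑ q ∈ Finset.range (n + 1), ∑ m ∈ Finset.range n,
      if 2 ≤ q ∧ q ^ (m + 1) ≤ n then tt good c (q, m) else 0 := by
    rw [sum_pa, GG, Finset.sum_filter, Finset.sum_product]
  have e2 : lE (ellc good c) n = ∑ q ∈ Finset.range (n + 1), ellc good c q := by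
    unfold lE
    refine Finset.sum_subset (fun q hq => ?_) (fun q hq hq' => ?_)
    · rw [Finset.mem_Icc] at hq
      rw [Finset.mem_range]
      omega
    · have : q = 0 := by
        rw [Finset.mem_range] at hq
        rw [Finset.mem_Icc] at hq'
        omega
      subst this
      unfold ellc
      rw [if_neg fun h => by have := hgood 0 h; omega]
  rw [e1, e2, ← Finset.sum_neg_distrib, ← Finset.sum_sub_distrib]
  refine (Finset.abs_sum_le_sum_abs _ _).trans ?_
  have h1 : ∀ q ∈ Finset.range (n + 1),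
      |(-∑ m ∈ Finset.range n, if 2 ≤ q ∧ q ^ (m + 1) ≤ n then tt good c (q, m) else 0) - ellc good c q| ≤
      K * ((if q.Prime ∧ n < q ^ 2 then 1 / (q : ℝ) else 0) +
        (if good q ∧ ¬ q.Prime then 1 / (q : ℝ) else 0)) + 6 * K * (q : ℝ) ^ (-(3 / 2) : ℝ) := by
    intro q hq
    rw [Finset.mem_range] at hq
    refine (tail_q hgood hK hc n q (by omega)).trans ?_
    refine add_le_add_left (mul_le_mul_of_nonneg_left ?_ hK) _
    have p1 : (0 : ℝ) ≤ 1 / (q : ℝ) := by positivity
    by_cases a1 : good q <;> by_cases a2 : n < q ^ 2 <;> by_cases a3 : q.Prime <;>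
      simp only [a1, a2, a3, and_true, and_false, if_true, if_false, not_true, not_false_eq_true,
        add_zero, zero_add, le_refl] <;> linarith
  refine (Finset.sum_le_sum h1).trans ?_
  rw [Finset.sum_add_distrib, ← Finset.mul_sum, ← Finset.mul_sum, Finset.sum_add_distrib]
  refine add_le_add (mul_le_mul_of_nonneg_left (add_le_add ?_ ?_) hK)
    (mul_le_mul_of_nonneg_left (hs2.sum_le_tsum _ fun _ _ => by positivity) (by positivity))
  · refine le_trans (le_of_eq ?_) (hM n)
    rw [Finset.sum_filter]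
    symm
    refine Finset.sum_subset (fun q hq => ?_) (fun q hq hq' => ?_)
    · rw [Finset.mem_Icc] at hq
      rw [Finset.mem_range]
      omega
    · have : q = 0 := by
        rw [Finset.mem_range] at hq
        rw [Finset.mem_Icc] at hq'
        omega
      subst this
      simp
  · exact hsum.sum_le_tsum _ fun q _ => by split_ifs <;> positivity

end

end Pool.Agent.H438R3.BSD.GenN
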