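import Mathlib

/-! Abel summation for Dirichlet series whose coefficients are partial sums. -/

set_option autoImplicit false

open Complex Filter Topology Finset

namespace Pool.Agent.H438R3.BSD

/-- `(s - 1) n^(-s) - (n^(1-s) - (n+1)^(1-s))` -/
noncomputable def vv (n : ℕ) (s : ℂ) : ℂ :=
  (s - 1) * (n : ℂ) ^ (-s) - ((n : ℂ) ^ (1 - s) - ((n + 1 : ℕ) : ℂ) ^ (1 - s))

lemma norm_cpow_sub_le {n t : ℝ} (hn : 0 < n) (hnt : n ≤ t) (s : ℂ) (hs : 0 ≤ s.re) :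
    ‖((t : ℂ) ^ (-s)) - (n : ℂ) ^ (-s)‖ ≤ ‖s‖ * n ^ (-s.re - 1) * (t - n) := by
  rcases eq_or_ne s 0 with rfl | hs0
  · simp
  have key := norm_image_sub_le_of_norm_deriv_le_segment' (f := fun t : ℝ => (t : ℂ) ^ (-s))
    (f' := fun t : ℝ => (-s) * (t : ℂ) ^ (-s - 1)) (a := n) (b := t)
    (C := ‖s‖ * n ^ (-s.re - 1)) ?_ ?_ t (by constructor <;> linarith)
  · exact key
  · intro x hx
    have hx0 : x ≠ 0 := by
      have := hx.1
      linarith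
    exact (hasDerivAt_ofReal_cpow_const hx0 (neg_ne_zero.2 hs0)).hasDerivWithinAt
  · intro x hx
    have hx1 : n ≤ x := hx.1
    have hx0 : 0 < x := lt_of_lt_of_le hn hx1
    rw [norm_mul, norm_neg, Complex.norm_cpow_eq_rpow_re_of_pos hx0]
    refine mul_le_mul_of_nonneg_left ?_ (norm_nonneg _)
    simp only [sub_re, neg_re, one_re]
    exact Real.rpow_le_rpow_of_nonpos hn hx1 (by linarith)

lemma norm_vv_le (n : ℕ) (hn : 1 ≤ n) (s : ℂ) (hs : 0 ≤ s.re) :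
    ‖vv n s‖ ≤ ‖s - 1‖ * ‖s‖ * (n : ℝ) ^ (-s.re - 1) := by
  rcases eq_or_ne s 1 with rfl | hs1
  · simp [vv]
  have hn0 : (0 : ℝ) < n := by exact_mod_cast hn
  have h1s : (1 : ℂ) - s ≠ 0 := sub_ne_zero.2 (Ne.symm hs1)
  set c : ℂ := (s - 1) * (n : ℂ) ^ (-s) with hc
  have key := norm_image_sub_le_of_norm_deriv_le_segment'
    (f := fun t : ℝ => (t : ℂ) ^ (1 - s) + c * t)
    (f' := fun t : ℝ => (1 - s) * (t : ℂ) ^ (1 - s - 1) + c) (a := (n : ℝ)) (b := (n : ℝ) + 1)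
    (C := ‖s - 1‖ * ‖s‖ * (n : ℝ) ^ (-s.re - 1)) ?_ ?_ ((n : ℝ) + 1) (by constructor <;> linarith)
  · have e : (n : ℝ) + 1 - n = 1 := by ring
    rw [e, mul_one] at key
    have e2 : (((n + 1 : ℕ) : ℂ)) = (((n : ℝ) + 1 : ℝ) : ℂ) := by push_cast; ring
    have e3 : ((n : ℂ)) = (((n : ℝ) : ℝ) : ℂ) := by push_cast; ring
    have e4 : vv n s = ((((n : ℝ) + 1 : ℝ) : ℂ) ^ (1 - s) + c * (((n : ℝ) + 1 : ℝ) : ℂ)) -
        ((((n : ℝ) : ℝ) : ℂ) ^ (1 - s) + c * (((n : ℝ) : ℝ) : ℂ)) := by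
      unfold vv
      rw [e2, ← e3, hc]
      push_cast
      ring
    rw [e4]
    exact key
  · intro x hx
    have hx0 : x ≠ 0 := by
      have := hx.1
      linarith
    have h1 := hasDerivAt_ofReal_cpow_const hx0 h1s
    have h2 : HasDerivAt (fun t : ℝ => c * (t : ℂ)) (c * 1) x :=
      (Complex.ofRealCLM.hasDerivAt).const_mul c
    rw [mul_one] at h2
    exact (h1.add h2).hasDerivWithinAt
  · intro x hx
    have hx1 : (n : ℝ) ≤ x := hx.1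
    have hx0 : 0 < x := lt_of_lt_of_le hn0 hx1
    have e5 : (1 - s) * (x : ℂ) ^ (1 - s - 1) + c = -((s - 1) * ((x : ℂ) ^ (-s) - (n : ℂ) ^ (-s))) := by
      rw [hc]
      have : (1 : ℂ) - s - 1 = -s := by ring
      rw [this]
      ring
    rw [e5, norm_neg, norm_mul, mul_assoc]
    refine mul_le_mul_of_nonneg_left ?_ (norm_nonneg _)
    have h3 := norm_cpow_sub_le hn0 hx1 s hs
    have e3 : ((n : ℂ)) = (((n : ℝ) : ℝ) : ℂ) := by push_cast; ring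
    rw [e3]
    refine h3.trans ?_
    have h4 : x - n ≤ 1 := by linarith [hx.2]
    calc ‖s‖ * (n : ℝ) ^ (-s.re - 1) * (x - n) ≤ ‖s‖ * (n : ℝ) ^ (-s.re - 1) * 1 :=
          mul_le_mul_of_nonneg_left h4 (by positivity)
      _ = _ := mul_one _

/-- partial sums starting from `C` -/
noncomputable def PS (C : ℝ) (m : ℕ → ℝ) (n : ℕ) : ℝ := C + ∑ k ∈ Icc 1 n, m k

lemma PS_zero (C : ℝ) (m : ℕ → ℝ) : PS C m 0 = C := by simp [PS]

lemma PS_succ (C : ℝ) (m : ℕ → ℝ) (n : ℕ) : PS C m (n + 1) = PS C m n + m (n + 1) := by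
  unfold PS
  rw [Finset.sum_Icc_succ_top (by omega)]
  ring

lemma abel_partial (C : ℝ) (m : ℕ → ℝ) (s : ℂ) (N : ℕ) :
    ∑ n ∈ range N, (PS C m (n + 1) : ℂ) * (((n + 1 : ℕ) : ℂ) ^ (1 - s) - ((n + 2 : ℕ) : ℂ) ^ (1 - s)) =
      C + ∑ n ∈ range N, (m (n + 1) : ℂ) * ((n + 1 : ℕ) : ℂ) ^ (1 - s) -
        (PS C m N : ℂ) * ((N + 1 : ℕ) : ℂ) ^ (1 - s) := by
  induction N with
  | zero => simp [PS_zero]
  | succ N ih =>
    rw [sum_range_succ, ih, sum_range_succ, PS_succ]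
    push_cast
    ring_nf

/-- the analytic error term -/
noncomputable def EE (C : ℝ) (m : ℕ → ℝ) (s : ℂ) : ℂ := ∑' n : ℕ, (PS C m (n + 1) : ℂ) * vv (n + 1) s

lemma summable_shift_rpow (x : ℝ) (hx : x < -1) : Summable (fun n : ℕ => ((n + 1 : ℕ) : ℝ) ^ x) :=
  (summable_nat_add_iff (f := fun n : ℕ => (n : ℝ) ^ x) 1).2 (Real.summable_nat_rpow.2 hx)

/-- sum of `n^(-3/2)` -/
noncomputable def K32 : ℝ := ∑' n : ℕ, ((n + 1 : ℕ) : ℝ) ^ (-(3 / 2) : ℝ)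

lemma term_EE_le {C : ℝ} {m : ℕ → ℝ} {K : ℝ} (hK : 0 ≤ K)
    (hPS : ∀ n : ℕ, 1 ≤ n → |PS C m n| ≤ K * (n : ℝ) ^ (1 / 2 : ℝ)) (n : ℕ) (s : ℂ) (hs : 1 ≤ s.re) :
    ‖(PS C m (n + 1) : ℂ) * vv (n + 1) s‖ ≤ ‖s - 1‖ * ‖s‖ * K * ((n + 1 : ℕ) : ℝ) ^ (-(3 / 2) : ℝ) := by
  have h1 := hPS (n + 1) (by omega)
  have h2 := norm_vv_le (n + 1) (by omega) s (by linarith)
  have hn0 : (0 : ℝ) < ((n + 1 : ℕ) : ℝ) := by positivity
  have hn1 : (1 : ℝ) ≤ ((n + 1 : ℕ) : ℝ) := by exact_mod_cast (by omega : 1 ≤ n + 1)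
  rw [norm_mul, Complex.norm_real, Real.norm_eq_abs]
  calc |PS C m (n + 1)| * ‖vv (n + 1) s‖
      ≤ (K * ((n + 1 : ℕ) : ℝ) ^ (1 / 2 : ℝ)) * (‖s - 1‖ * ‖s‖ * ((n + 1 : ℕ) : ℝ) ^ (-s.re - 1)) :=
        mul_le_mul h1 h2 (norm_nonneg _) (by positivity)
    _ = ‖s - 1‖ * ‖s‖ * K * (((n + 1 : ℕ) : ℝ) ^ (1 / 2 : ℝ) * ((n + 1 : ℕ) : ℝ) ^ (-s.re - 1)) := by ring
    _ = ‖s - 1‖ * ‖s‖ * K * ((n + 1 : ℕ) : ℝ) ^ (1 / 2 + (-s.re - 1)) := by
        rw [Real.rpow_add hn0]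
    _ ≤ _ := by
        refine mul_le_mul_of_nonneg_left ?_ (by positivity)
        exact Real.rpow_le_rpow_of_exponent_le hn1 (by linarith)

lemma EE_bound {C : ℝ} {m : ℕ → ℝ} {K : ℝ} (hK : 0 ≤ K)
    (hPS : ∀ n : ℕ, 1 ≤ n → |PS C m n| ≤ K * (n : ℝ) ^ (1 / 2 : ℝ)) (s : ℂ) (hs : 1 ≤ s.re) :
    Summable (fun n : ℕ => (PS C m (n + 1) : ℂ) * vv (n + 1) s) ∧
      ‖EE C m s‖ ≤ ‖s - 1‖ * ‖s‖ * K * K32 := by
  have h1 : Summable (fun n : ℕ => ‖s - 1‖ * ‖s‖ * K * ((n + 1 : ℕ) : ℝ) ^ (-(3 / 2) : ℝ)) :=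
    (summable_shift_rpow _ (by norm_num)).mul_left _
  refine ⟨Summable.of_norm_bounded h1 (fun n => term_EE_le hK hPS n s hs), ?_⟩
  unfold EE K32
  rw [← tsum_mul_left]
  exact tsum_of_norm_bounded h1.hasSum (fun n => term_EE_le hK hPS n s hs)

lemma EE_differentiable {C : ℝ} {m : ℕ → ℝ} {K : ℝ} (hK : 0 ≤ K)
    (hPS : ∀ n : ℕ, 1 ≤ n → |PS C m n| ≤ K * (n : ℝ) ^ (1 / 2 : ℝ)) :
    DifferentiableOn ℂ (EE C m) {s | 1 < s.re} := by
  intro s0 hs0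
  have hs0' : 1 < s0.re := hs0
  set U : Set ℂ := Metric.ball s0 1 ∩ {s | 1 < s.re} with hU
  have hUo : IsOpen U := Metric.isOpen_ball.inter (isOpen_lt continuous_const Complex.continuous_re)
  have hmem : s0 ∈ U := ⟨Metric.mem_ball_self one_pos, hs0⟩
  set B : ℝ := (‖s0‖ + 2) * (‖s0‖ + 2) with hB
  have hd : DifferentiableOn ℂ (EE C m) U := by
    refine differentiableOn_tsum_of_summable_norm (u := fun n : ℕ => B * K * ((n + 1 : ℕ) : ℝ) ^ (-(3 / 2) : ℝ))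
      ((summable_shift_rpow _ (by norm_num)).mul_left _) (fun n => ?_) hUo (fun n s hs => ?_)
    · intro s _
      have hn : ((n + 1 : ℕ) : ℂ) ≠ 0 := by exact_mod_cast (by omega : n + 1 ≠ 0)
      have hn2 : ((n + 1 + 1 : ℕ) : ℂ) ≠ 0 := by exact_mod_cast (by omega : n + 1 + 1 ≠ 0)
      have d1 : DifferentiableAt ℂ (fun s : ℂ => ((n + 1 : ℕ) : ℂ) ^ (-s)) s :=
        DifferentiableAt.const_cpow (by fun_prop) (Or.inl hn)
      have d2 : DifferentiableAt ℂ (fun s : ℂ => ((n + 1 : ℕ) : ℂ) ^ (1 - s)) s :=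
        DifferentiableAt.const_cpow (by fun_prop) (Or.inl hn)
      have d3 : DifferentiableAt ℂ (fun s : ℂ => ((n + 1 + 1 : ℕ) : ℂ) ^ (1 - s)) s :=
        DifferentiableAt.const_cpow (by fun_prop) (Or.inl hn2)
      have d4 : DifferentiableAt ℂ (fun s : ℂ => s - 1) s := by fun_prop
      apply DifferentiableAt.differentiableWithinAt
      unfold vv
      exact ((d4.mul d1).sub (d2.sub d3)).const_mul _
    · have hs1 : 1 ≤ s.re := le_of_lt hs.2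
      refine (term_EE_le hK hPS n s hs1).trans ?_
      have h2 : ‖s‖ ≤ ‖s0‖ + 1 := by
        have h3 : ‖s - s0‖ < 1 := by
          have := Metric.mem_ball.1 hs.1
          rwa [dist_eq_norm] at this
        have h4 : s = s0 + (s - s0) := by ring
        calc ‖s‖ = ‖s0 + (s - s0)‖ := by rw [← h4]
          _ ≤ ‖s0‖ + ‖s - s0‖ := norm_add_le _ _
          _ ≤ _ := by linarith
      have h5 : ‖s - 1‖ ≤ ‖s0‖ + 2 := by
        calc ‖s - 1‖ ≤ ‖s‖ + ‖(1 : ℂ)‖ := norm_sub_le _ _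
          _ ≤ _ := by rw [norm_one]; linarith
      have h6 : ‖s - 1‖ * ‖s‖ ≤ B := by
        rw [hB]
        exact mul_le_mul h5 (by linarith) (norm_nonneg _) (by positivity)
      gcongr
  exact (hd.differentiableAt (hUo.mem_nhds hmem)).differentiableWithinAt

lemma PS_summable {C : ℝ} {m : ℕ → ℝ} {K : ℝ}
    (hPS : ∀ n : ℕ, 1 ≤ n → |PS C m n| ≤ K * (n : ℝ) ^ (1 / 2 : ℝ)) (s : ℂ) (hs : 3 / 2 < s.re) :
    LSeriesSummable (fun n => (PS C m n : ℂ)) s := by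
  refine LSeriesSummable_of_le_const_mul_rpow hs ⟨K, fun n hn => ?_⟩
  rw [Complex.norm_real, Real.norm_eq_abs]
  refine (hPS n (by omega)).trans (le_of_eq ?_)
  congr 2
  norm_num

/-- The relation between the Dirichlet series of the partial sums and the sum over the terms. -/
theorem abel_rel {C : ℝ} {m : ℕ → ℝ} {K : ℝ} (hK : 0 ≤ K)
    (hPS : ∀ n : ℕ, 1 ≤ n → |PS C m n| ≤ K * (n : ℝ) ^ (1 / 2 : ℝ)) (s : ℂ) (hs : 3 / 2 < s.re)
    (P : ℂ) (hP : HasSum (fun n : ℕ => (m (n + 1) : ℂ) * ((n + 1 : ℕ) : ℂ) ^ (1 - s)) P) :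
    (s - 1) * LSeries (fun n => (PS C m n : ℂ)) s = EE C m s + C + P := by
  have h1 := (PS_summable hPS s hs)
  set L := LSeries (fun n => (PS C m n : ℂ)) s with hL
  have h2 : HasSum (fun n : ℕ => (PS C m (n + 1) : ℂ) * ((n + 1 : ℕ) : ℂ) ^ (-s)) L := by
    have h3 : HasSum (LSeries.term (fun n => (PS C m n : ℂ)) s) L := h1.hasSum
    have h4 := (hasSum_nat_add_iff' (f := LSeries.term (fun n => (PS C m n : ℂ)) s) 1).2 h3
    simp only [sum_range_one, LSeries.term_zero, sub_zero] at h4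
    have e : (fun n : ℕ => (PS C m (n + 1) : ℂ) * ((n + 1 : ℕ) : ℂ) ^ (-s)) =
        fun n => LSeries.term (fun n => (PS C m n : ℂ)) s (n + 1) := by
      funext n
      rw [LSeries.term_of_ne_zero (by omega : n + 1 ≠ 0), Complex.cpow_neg, div_eq_mul_inv]
    rw [e]
    exact h4
  obtain ⟨h5, -⟩ := EE_bound hK hPS s (by linarith)
  have h6 : HasSum (fun n : ℕ => (PS C m (n + 1) : ℂ) * vv (n + 1) s) (EE C m s) := h5.hasSum
  have h7 := (h2.mul_left (s - 1)).sub h6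
  have h8 := h7.tendsto_sum_nat
  have h9 : ∀ N : ℕ, ∑ n ∈ range N, ((s - 1) * ((PS C m (n + 1) : ℂ) * ((n + 1 : ℕ) : ℂ) ^ (-s)) -
      (PS C m (n + 1) : ℂ) * vv (n + 1) s) =
      C + ∑ n ∈ range N, (m (n + 1) : ℂ) * ((n + 1 : ℕ) : ℂ) ^ (1 - s) -
        (PS C m N : ℂ) * ((N + 1 : ℕ) : ℂ) ^ (1 - s) := by
    intro N
    rw [← abel_partial]
    apply sum_congr rfl
    intro n _
    unfold vv
    ring
  have hbd : Tendsto (fun N : ℕ => (PS C m N : ℂ) * ((N + 1 : ℕ) : ℂ) ^ (1 - s)) atTop (𝓝 0) := by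
    have h10 : Tendsto (fun N : ℕ => K * ((N + 1 : ℕ) : ℝ) ^ (-(s.re - 3 / 2))) atTop (𝓝 (K * 0)) := by
      apply Tendsto.const_mul
      have h11 := tendsto_rpow_neg_atTop (y := s.re - 3 / 2) (by linarith)
      exact h11.comp (tendsto_natCast_atTop_atTop.comp (tendsto_add_atTop_nat 1))
    rw [mul_zero] at h10
    refine squeeze_zero_norm' ?_ h10
    filter_upwards [eventually_ge_atTop 1] with N hN
    have hN0 : (0 : ℝ) < ((N + 1 : ℕ) : ℝ) := by positivity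
    rw [norm_mul, Complex.norm_real, Real.norm_eq_abs]
    have h12 : ‖((N + 1 : ℕ) : ℂ) ^ (1 - s)‖ = ((N + 1 : ℕ) : ℝ) ^ (1 - s.re) := by
      rw [Complex.norm_natCast_cpow_of_pos (by omega)]
      simp
    rw [h12]
    have h13 : ((N : ℕ) : ℝ) ^ (1 / 2 : ℝ) ≤ ((N + 1 : ℕ) : ℝ) ^ (1 / 2 : ℝ) :=
      Real.rpow_le_rpow (by positivity) (by exact_mod_cast Nat.le_succ N) (by norm_num)
    calc |PS C m N| * ((N + 1 : ℕ) : ℝ) ^ (1 - s.re)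
        ≤ (K * ((N + 1 : ℕ) : ℝ) ^ (1 / 2 : ℝ)) * ((N + 1 : ℕ) : ℝ) ^ (1 - s.re) := by
          refine mul_le_mul_of_nonneg_right ((hPS N hN).trans ?_) (by positivity)
          exact mul_le_mul_of_nonneg_left h13 hK
      _ = K * (((N + 1 : ℕ) : ℝ) ^ (1 / 2 : ℝ) * ((N + 1 : ℕ) : ℝ) ^ (1 - s.re)) := by ring
      _ = K * ((N + 1 : ℕ) : ℝ) ^ (-(s.re - 3 / 2)) := by
          rw [← Real.rpow_add hN0]
          congr 2
          ring
  have h14 : Tendsto (fun N : ℕ => C + ∑ n ∈ range N, (m (n + 1) : ℂ) * ((n + 1 : ℕ) : ℂ) ^ (1 - s) -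
        (PS C m N : ℂ) * ((N + 1 : ℕ) : ℂ) ^ (1 - s)) atTop (𝓝 ((C : ℂ) + P - 0)) :=
    (tendsto_const_nhds.add hP.tendsto_sum_nat).sub hbd
  have h15 : Tendsto (fun N : ℕ => C + ∑ n ∈ range N, (m (n + 1) : ℂ) * ((n + 1 : ℕ) : ℂ) ^ (1 - s) -
        (PS C m N : ℂ) * ((N + 1 : ℕ) : ℂ) ^ (1 - s)) atTop (𝓝 ((s - 1) * L - EE C m s)) := by
    refine h8.congr fun N => ?_
    exact h9 N
  have h16 := tendsto_nhds_unique h14 h15
  rw [sub_zero] at h16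
  linear_combination -h16

end Pool.Agent.H438R3.BSD
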