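import Pool.Agent.H438R3.BSD.Jac

/-! The products of Birch and Swinnerton-Dyer type for the odd cohomology of powers of
hyperelliptic curves. -/

set_option autoImplicit false

open Filter Topology Finset

namespace Pool.Agent.H438R3.BSD.Bei

open Pool.Agent.H341R2 (GoodPrime)

/-- The trace of the `m`-th power of Frobenius at `p` on `H^k(C^n)` for the curve `C : y² = f(x)`, by
the Künneth formula: `H⁰`, `H¹`, `H²` of the curve have traces `1`, `t = p^m + 1 - #C(𝔽_{p^m})`,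
`p^m`, so it is the coefficient of `T^k` in `(1 + t T + p^m T²)^n`. -/
noncomputable def trace (f : Polynomial ℤ) (n k : ℕ) (p : Nat.Primes) (m : ℕ) : ℤ :=
  ((1 + Polynomial.C (Jac.trace f p m) * Polynomial.X +
    Polynomial.C (((p : ℕ) : ℤ) ^ m) * Polynomial.X ^ 2 : Polynomial ℤ) ^ n).coeff k

open Classical in
/-- `G` is an entire function, equal for `Re s > i + 3/2` to the Euler product of
`L(H^(2 i + 1)(C^n), s)` over the good primes -/
def IsL (f : Polynomial ℤ) (n i : ℕ) (G : ℂ → ℂ) : Prop :=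
  Differentiable ℂ G ∧ ∀ s : ℂ, (i : ℝ) + 3 / 2 < s.re →
    HasProd (fun p : Nat.Primes => if GoodPrime f 1 p then
      Complex.exp (∑' m : ℕ, (trace f n (2 * i + 1) p (m + 1) : ℂ) *
        ((p : ℕ) : ℂ) ^ (-((m + 1 : ℂ) * s)) / (m + 1 : ℂ)) else 1) (G s)

/-- the inverse of the Euler factor at the central point `s = i + 1`, that is the value of
`det(1 - Frob T | H^(2 i + 1)(C^n))` at `T = p^(-(i + 1))` -/
noncomputable def localVal (f : Polynomial ℤ) (n i : ℕ) (p : Nat.Primes) : ℝ :=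
  Real.exp (-∑' m : ℕ, (trace f n (2 * i + 1) p (m + 1) : ℝ) /
    (((m : ℝ) + 1) * ((p : ℕ) : ℝ) ^ ((m + 1) * (i + 1))))

open Classical in
/-- the product of `localVal` over the good primes `p ≤ x` -/
noncomputable def EP (f : Polynomial ℤ) (n i x : ℕ) : ℝ :=
  ∏ p ∈ Finset.Icc 1 x, if h : p.Prime then
    (if GoodPrime f 1 ⟨p, h⟩ then localVal f n i ⟨p, h⟩ else 1) else 1

/-- the logarithmic average of `log EP(k) - κ log log k` over `2 ≤ k ≤ x` -/
noncomputable def LA (f : Polynomial ℤ) (n i : ℕ) (κ : ℝ) (x : ℕ) : ℝ :=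
  (∑ k ∈ Finset.Icc 2 x, (Real.log (EP f n i k) - κ * Real.log (Real.log k)) / k) / Real.log x

lemma trace_eq (f : Polynomial ℤ) (n k : ℕ) (p : Nat.Primes) (m : ℕ) :
    Pool.Agent.H341R2.traceH n k f 1 p m = trace f n k p m := rfl

lemma localVal_pos (f : Polynomial ℤ) (n i : ℕ) (p : Nat.Primes) : 0 < localVal f n i p :=
  Real.exp_pos _

open Classical in
lemma EP_pos (f : Polynomial ℤ) (n i x : ℕ) : 0 < EP f n i x := by
  unfold EP
  refine Finset.prod_pos fun p _ => ?_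
  split_ifs
  · exact localVal_pos f n i _
  · exact one_pos
  · exact one_pos

open Classical in
lemma log_EP (f : Polynomial ℤ) (n i x : ℕ) : Real.log (EP f n i x) = Gen.lH f n i x := by
  unfold EP Gen.lH
  rw [Real.log_prod]
  · refine Finset.sum_congr rfl fun p _ => ?_
    split_ifs with h1 h2
    · unfold localVal
      rw [Real.log_exp]
      rfl
    · exact Real.log_one
    · exact Real.log_one
  · intro p _
    split_ifs
    · exact (localVal_pos f n i _).ne'
    · exact one_ne_zero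
    · exact one_ne_zero

lemma LA_eq (f : Polynomial ℤ) (n i : ℕ) (κ : ℝ) (x : ℕ) :
    LA f n i κ x = Gen.LA (Gen.lH f n i) κ x := by
  unfold LA Gen.LA
  simp_rw [log_EP]

open Classical in
lemma isLH {f : Polynomial ℤ} {n i : ℕ} {G : ℂ → ℂ} (hG : IsL f n i G) :
    Gen.IsLH f n i (fun s => G (s + i)) := by
  refine ⟨hG.1.comp (by fun_prop), fun s hs => ?_⟩
  have h1 := hG.2 (s + i) (by simp; linarith)
  exact h1

theorem main (f : Polynomial ℤ) (hd : 1 ≤ f.natDegree) (n i : ℕ) {G : ℂ → ℂ} (hG : IsL f n i G) :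
    ∃ m : ℕ, analyticOrderAt G (i + 1) = m ∧
    (∀ κ : ℝ, (κ < m ∨ ∃ ρ : ℂ, (i : ℝ) + 1 < ρ.re ∧ G ρ = 0) → ∀ C : ℝ,
      (∃ᶠ x : ℕ in atTop, C < LA f n i κ x) ∧
      ∃ᶠ x : ℕ in atTop, C * Real.log x ^ κ < EP f n i x) ∧
    ((∀ σ : ℝ, (i : ℝ) + 1 < σ → G σ ≠ 0) →
      ∀ κ : ℝ, ((m : ℝ) < κ ∨ ∃ ρ : ℂ, (i : ℝ) + 1 < ρ.re ∧ G ρ = 0) → ∀ C : ℝ, 0 < C →
      (∃ᶠ x : ℕ in atTop, LA f n i κ x < -C) ∧
      ∃ᶠ x : ℕ in atTop, EP f n i x < C * Real.log x ^ κ) := by
  obtain ⟨m, hm, h1, h2⟩ := Gen.hyp_main f hd n i (isLH hG)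
  have hlog : ∀ᶠ x : ℕ in atTop, (1 : ℝ) < Real.log x :=
    (Real.tendsto_log_atTop.comp tendsto_natCast_atTop_atTop).eventually_gt_atTop _
  have hord : analyticOrderAt G (i + 1) = m := by
    rw [← hm]
    have h3 := analyticOrderAt_comp_of_deriv_ne_zero (f := G) (g := fun s : ℂ => s + i) (z₀ := 1)
      (by fun_prop) (by
        have : deriv (fun s : ℂ => s + i) 1 = 1 := by simp
        rw [this]; exact one_ne_zero)
    have e : ((i : ℂ) + 1) = (fun s : ℂ => s + i) 1 := by simp [add_comm]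
    rw [e]
    exact h3.symm
  have hz : ∀ {P : Prop}, (P ∨ ∃ ρ : ℂ, (i : ℝ) + 1 < ρ.re ∧ G ρ = 0) →
      P ∨ ∃ ρ : ℂ, 1 < ρ.re ∧ (fun s => G (s + i)) ρ = 0 := by
    rintro P (h | ⟨ρ, h3, h4⟩)
    · exact Or.inl h
    · refine Or.inr ⟨ρ - i, by simp; linarith, ?_⟩
      simp only [sub_add_cancel]
      exact h4
  refine ⟨m, hord, fun κ hκ C => ⟨?_, ?_⟩, fun hreal κ hκ C hC => ?_⟩
  · refine (h1 κ (hz hκ) C).1.mono fun x hx => ?_
    rwa [LA_eq]
  · refine ((h1 κ (hz hκ) (Real.log |C|)).2.and_eventually hlog).mono fun x hx => ?_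
    obtain ⟨hx1, hx2⟩ := hx
    rw [← log_EP] at hx1
    have h3 : 0 < Real.log (x : ℝ) ^ κ := Real.rpow_pos_of_pos (by linarith) _
    rcases le_or_gt C 0 with hC | hC
    · have := EP_pos f n i x
      have h4 := mul_nonpos_of_nonpos_of_nonneg hC h3.le
      linarith
    · rw [abs_of_pos hC] at hx1
      have h5 : Real.log (C * Real.log x ^ κ) < Real.log (EP f n i x) := by
        rw [Real.log_mul hC.ne' h3.ne', Real.log_rpow (by linarith)]
        linarith
      exact (Real.log_lt_log_iff (by positivity) (EP_pos f n i x)).1 h5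
  · have hreal' : ∀ σ : ℝ, 1 < σ → (fun s => G (s + i)) (σ : ℂ) ≠ 0 := by
      intro σ hσ
      have := hreal (σ + i) (by linarith)
      simp only
      intro h0
      apply this
      rw [← h0]
      push_cast
      rfl
    refine ⟨?_, ?_⟩
    · refine (h2 hreal' κ (hz hκ) (-C)).1.mono fun x hx => ?_
      rwa [LA_eq]
    · refine ((h2 hreal' κ (hz hκ) (Real.log C)).2.and_eventually hlog).mono fun x hx => ?_
      obtain ⟨hx1, hx2⟩ := hx
      rw [← log_EP] at hx1
      have h3 : 0 < Real.log (x : ℝ) ^ κ := Real.rpow_pos_of_pos (by linarith) _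
      have h5 : Real.log (EP f n i x) < Real.log (C * Real.log x ^ κ) := by
        rw [Real.log_mul hC.ne' h3.ne', Real.log_rpow (by linarith)]
        linarith
      exact (Real.log_lt_log_iff (EP_pos f n i x) (by positivity)).1 h5

end Pool.Agent.H438R3.BSD.Bei
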