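import Pool.Agent.H814R3.BSD.Asm2
import Pool.Agent.H814R3.BSD.T_Lim
import Pool.Agent.H814R3.BSD.T_Z0
import Pool.Agent.H814R3.BSD.T_Z
import Pool.Agent.H814R3.BSD.T_Avg2
import Pool.Agent.H814R3.BSD.T_Perron
import Pool.Agent.H814R3.BSD.T_Pois
import Pool.Agent.H814R3.BSD.T_Inv
import Pool.Agent.H814R3.BSD.T_Kap
import Pool.Agent.H814R3.BSD.T_Shift
import Pool.Agent.H41R3.BSDAvg

/-! The limit of the logarithmic averages of the partial sums of a Dirichlet series at its centre:
general version (built on the analytic pieces of the project H814-BSD). -/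

set_option autoImplicit false
set_option maxHeartbeats 2000000

open Complex Filter Topology Finset MeasureTheory

namespace Pool.Agent.H438R3.BSD.Cnv

open Pool.Agent.H438R3.BSD Pool.Agent.H814R3.BSD

/-- logarithmic averages, for summable `|a n| / n` -/
theorem avg (a : ℕ → ℝ) (h : ℝ) (has : Summable (fun n : ℕ => |a n| / n))
    (hlim : Tendsto (fun U : ℝ => ∑ k ∈ Finset.Icc 1 ⌊Real.exp U⌋₊, a k * (1 - Real.log k / U))
      atTop (𝓝 h)) :
    Tendsto (fun n : ℕ => (∑ j ∈ Finset.Icc 2 n, (∑ k ∈ Finset.Icc 1 j, a k) / j) / Real.log n)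
      atTop (𝓝 h) := by
  set A : ℕ → ℝ := fun n => ∑ k ∈ Finset.Icc 1 n, a k with hA
  set B : ℕ → ℝ := fun n => ∑ k ∈ Finset.Icc 1 n, |a k| with hB
  set T : ℕ → ℝ := fun n => ∑ j ∈ Finset.Icc 2 n, A j / j with hT
  set R : ℕ → ℝ := fun n => ∑ k ∈ Finset.Icc 1 n, a k * (Real.log n - Real.log k) with hR
  have hAB : ∀ n, |A n| ≤ B n := fun n => Finset.abs_sum_le_sum_abs _ _
  have hB0 : ∀ n, 0 ≤ B n := fun n => (abs_nonneg _).trans (hAB n)
  have key : ∀ n : ℕ, 1 ≤ n → |T n - R n| ≤ 2 * (∑ k ∈ Finset.Icc 1 n, |a k| / k) - B n / n := by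
    intro n hn
    induction n, hn using Nat.le_induction with
    | base =>
      simp only [hT, hR, hB]
      simp
      linarith [abs_nonneg (a 1)]
    | succ n hn ih =>
      have hn0 : (0 : ℝ) < n := by exact_mod_cast hn
      have eT : T (n + 1) = T n + A (n + 1) / ((n : ℝ) + 1) := by
        simp only [hT]
        rw [Finset.sum_Icc_succ_top (by omega)]
        push_cast
        rfl
      have eA : A (n + 1) = A n + a (n + 1) := by
        simp only [hA]
        exact Finset.sum_Icc_succ_top (by omega) _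
      have eB : B (n + 1) = B n + |a (n + 1)| := by
        simp only [hB]
        exact Finset.sum_Icc_succ_top (by omega) _
      have eR : R (n + 1) = R n + A n * (Real.log ((n : ℝ) + 1) - Real.log n) := by
        simp only [hR, hA]
        rw [Finset.sum_Icc_succ_top (by omega), sub_self, mul_zero, add_zero, Finset.sum_mul,
          ← Finset.sum_add_distrib]
        refine Finset.sum_congr rfl fun k _ => ?_
        push_cast
        ring
      have e : T (n + 1) - R (n + 1) = (T n - R n) +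
          (a (n + 1) / ((n : ℝ) + 1) +
            A n * (1 / ((n : ℝ) + 1) - (Real.log ((n : ℝ) + 1) - Real.log n))) := by
        rw [eT, eR, eA]
        ring
      have b1 : |a (n + 1) / ((n : ℝ) + 1)| = |a (n + 1)| / ((n : ℝ) + 1) := by
        rw [abs_div, abs_of_pos (show (0 : ℝ) < n + 1 by positivity)]
      have b2 : |A n * (1 / ((n : ℝ) + 1) - (Real.log ((n : ℝ) + 1) - Real.log n))| ≤
          B n * (1 / (n * ((n : ℝ) + 1))) := by
        rw [abs_mul]
        exact mul_le_mul (hAB n) (Pool.Agent.H41R3.BSDAvg.log_step n hn) (abs_nonneg _) (hB0 n)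
      have e2 : 2 * (∑ k ∈ Finset.Icc 1 (n + 1), |a k| / k) - B (n + 1) / ((n + 1 : ℕ) : ℝ) =
          (2 * (∑ k ∈ Finset.Icc 1 n, |a k| / k) - B n / n) +
            (|a (n + 1)| / ((n : ℝ) + 1) + B n * (1 / (n * ((n : ℝ) + 1)))) := by
        rw [Finset.sum_Icc_succ_top (by omega), eB]
        push_cast
        field_simp
        ring
      rw [e, e2]
      refine (abs_add_le _ _).trans (add_le_add ih ?_)
      refine (abs_add_le _ _).trans ?_
      rw [b1]
      linarith
  have hlog : Tendsto (fun n : ℕ => Real.log (n : ℝ)) atTop atTop :=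
    Real.tendsto_log_atTop.comp tendsto_natCast_atTop_atTop
  have hM : ∀ n : ℕ, 1 ≤ n → |T n - R n| ≤ 2 * ∑' k : ℕ, |a k| / k := by
    intro n hn
    have h1 := key n hn
    have h2 : ∑ k ∈ Finset.Icc 1 n, |a k| / k ≤ ∑' k : ℕ, |a k| / k :=
      has.sum_le_tsum _ fun j _ => by positivity
    have h3 : 0 ≤ B n / n := div_nonneg (hB0 n) (Nat.cast_nonneg n)
    linarith
  have hRlim : Tendsto (fun n : ℕ => R n / Real.log n) atTop (𝓝 h) := by
    refine (hlim.comp hlog).congr' ?_
    filter_upwards [eventually_ge_atTop 2] with n hn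
    have hn0 : (0 : ℝ) < n := by exact_mod_cast (by omega : 0 < n)
    have hl : 0 < Real.log n := Real.log_pos (by exact_mod_cast (by omega : 1 < n))
    simp only [Function.comp, Real.exp_log hn0, Nat.floor_natCast, hR]
    rw [Finset.sum_div]
    refine Finset.sum_congr rfl fun k _ => ?_
    field_simp
  have hdiff : Tendsto (fun n : ℕ => (T n - R n) / Real.log n) atTop (𝓝 0) := by
    have h1 : Tendsto (fun n : ℕ => (2 * ∑' k : ℕ, |a k| / k) / Real.log n) atTop (𝓝 0) :=
      tendsto_const_nhds.div_atTop hlog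
    refine squeeze_zero_norm' ?_ h1
    filter_upwards [eventually_ge_atTop 2] with n hn
    have hl : 0 < Real.log n := Real.log_pos (by exact_mod_cast (by omega : 1 < n))
    rw [norm_div, Real.norm_eq_abs, Real.norm_of_nonneg hl.le]
    exact div_le_div_of_nonneg_right (hM n (by omega)) hl.le
  have := hRlim.add hdiff
  rw [add_zero] at this
  refine this.congr fun n => ?_
  ring

lemma term_le {a : ℕ → ℝ} (w : ℂ) (hw : 1 ≤ w.re) (n : ℕ) :
    ‖LSeries.term (fun n => (a n : ℂ)) w n‖ ≤ |a n| / n := by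
  rcases Nat.eq_zero_or_pos n with h | h
  · subst h; simp
  · rw [LSeries.norm_term_eq, if_neg (by omega), Complex.norm_real, Real.norm_eq_abs]
    have hn1 : (1 : ℝ) ≤ n := by exact_mod_cast h
    have h1 : (n : ℝ) ^ (1 : ℝ) ≤ (n : ℝ) ^ w.re := Real.rpow_le_rpow_of_exponent_le hn1 hw
    rw [Real.rpow_one] at h1
    exact div_le_div_of_nonneg_left (abs_nonneg _) (by linarith) h1

theorem conv (hBC : TaskBC) (a : ℕ → ℝ) (ha0 : a 0 = 0) (has : Summable (fun n : ℕ => |a n| / n))
    (L : ℂ → ℂ) (hLd : DifferentiableOn ℂ L {w | 0 < w.re})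
    (hLs : ∀ w : ℂ, 1 ≤ w.re → L w = LSeries (fun n => (a n : ℂ)) w)
    (hA' : ∃ A : ℝ, ∀ w : ℂ, 0 < w.re → (L w).re ≤ A * (1 + Real.log (1 + ‖w‖)))
    (r l : ℝ)
    (hnr : Tendsto (fun w : ℂ => (L w).re - r * Real.log ‖w‖) (𝓝[{w : ℂ | 0 < w.re}] 0) (𝓝 l)) :
    Tendsto (fun n : ℕ => (∑ j ∈ Finset.Icc 2 n,
      ((∑ k ∈ Finset.Icc 1 j, a k) + r * Real.log (Real.log j)) / j) / Real.log n) atTop
      (𝓝 (l - r * Real.eulerMascheroniConstant)) := by
  have hPer : TaskPerron := TPerron.perron_ok TKap.kap_ok (TInv.inv_ok TKap.kap_ok) TShift.shift_ok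
  have hLim : TaskLim := TLim.lim_ok TKap.kap_ok (TInv.inv_ok TKap.kap_ok)
  have hZ : TaskZ := taskZ
  obtain ⟨c, hc1, hc2, Cz, hCz⟩ : TaskZ0 := TZ0.Z0_ok
  obtain ⟨C3, hC3⟩ := hZ.2.2
  have hLb : ∃ B0 : ℝ, ∀ w : ℂ, 1 ≤ w.re → ‖L w‖ ≤ B0 := by
    refine ⟨∑' n : ℕ, |a n| / n, fun w hw => ?_⟩
    rw [hLs w hw]
    exact tsum_of_norm_bounded has.hasSum (term_le w hw)
  obtain ⟨A, hA⟩ := hA'
  have hLbc := hBC L hLd hLb ⟨A, hA⟩
  obtain ⟨CP, hCP⟩ := TPois.pois_ok L hLd hLb ⟨A, hA⟩
  set H : ℂ → ℂ := fun w => L w + r * ZZ w with hH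
  set h : ℝ → ℝ → ℝ := fun U τ => (H ((1 + τ * I) / U)).re with hh
  set h0 : ℝ := l + r * (c - Real.eulerMascheroniConstant) with hh0
  have hHd : DifferentiableOn ℂ H {w | 0 < w.re} := hLd.add (hZ.1.const_mul _)
  set a' : ℕ → ℝ := fun n => a n + r * zz n with ha'
  have hzs : Summable (fun n : ℕ => zz n / n) := by
    refine Summable.of_nonneg_of_le (fun n => div_nonneg (zz_nonneg n) (Nat.cast_nonneg n)) (fun n => ?_)
      ((Real.summable_nat_rpow.2 (by norm_num : (-(3 / 2) : ℝ) < -1)).mul_left 2)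
    rcases Nat.eq_zero_or_pos n with h | h
    · subst h
      simp only [Nat.cast_zero, div_zero]
      positivity
    · have hn0 : (0 : ℝ) < n := by exact_mod_cast h
      have h1 := zz_le n h
      rw [div_le_iff₀ hn0]
      refine h1.trans (le_of_eq ?_)
      rw [mul_assoc]
      congr 1
      have : (n : ℝ) ^ (-(3 / 2) : ℝ) * n = (n : ℝ) ^ (-(3 / 2) : ℝ) * (n : ℝ) ^ (1 : ℝ) := by
        rw [Real.rpow_one]
      rw [this, ← Real.rpow_add hn0]
      norm_num
  have ha's : Summable (fun n : ℕ => |a' n| / n) := by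
    refine Summable.of_nonneg_of_le (fun n => by positivity) (fun n => ?_) (has.add (hzs.mul_left |r|))
    have h1 : |a' n| ≤ |a n| + |r| * zz n := by
      simp only [ha']
      refine (abs_add_le _ _).trans ?_
      rw [abs_mul, abs_of_nonneg (zz_nonneg n)]
    calc |a' n| / n ≤ (|a n| + |r| * zz n) / n := div_le_div_of_nonneg_right h1 (Nat.cast_nonneg n)
      _ = |a n| / n + |r| * (zz n / n) := by ring
  have ha'0 : a' 0 = 0 := by simp [ha', ha0, zz]
  have hHs : ∀ w : ℂ, 1 ≤ w.re → H w = LSeries (fun n => (a' n : ℂ)) w := by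
    intro w hw
    have h1 : HasSum (LSeries.term (fun n => (a n : ℂ)) w) (L w) := by
      rw [hLs w hw]
      exact (Summable.of_norm_bounded has (term_le w hw)).hasSum
    have h3 : HasSum (LSeries.term (fun n => (zz n : ℂ)) w) (ZZ w) := (hZ.2.1 w (by linarith)).hasSum
    have h4 := h1.add (h3.mul_left (r : ℂ))
    rw [hH]
    simp only
    unfold LSeries
    rw [← h4.tsum_eq]
    congr 1
    funext n
    rcases Nat.eq_zero_or_pos n with h | h
    · subst h
      simp
    · rw [LSeries.term_of_ne_zero (by omega), LSeries.term_of_ne_zero (by omega),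
        LSeries.term_of_ne_zero (by omega)]
      simp only [ha']
      push_cast
      ring
  have hHb : ∀ σ : ℝ, 0 < σ → ∃ B : ℝ, ∀ w : ℂ, σ ≤ w.re → w.re ≤ 1 →
      ‖H w‖ ≤ B * (1 + |w.im|) ^ (1 / 2 : ℝ) := by
    intro σ hσ
    obtain ⟨B2, h2⟩ := hLbc σ hσ
    refine ⟨B2 + |r| * (|C3| * (1 + |Real.log σ|)), fun w hw1 hw2 => ?_⟩
    have hr := one_le_rp w.im
    set q := (1 + |w.im|) ^ (1 / 2 : ℝ) with hq
    have hw0 : 0 < w.re := by linarith
    have hz : ‖ZZ w‖ ≤ |C3| * (1 + |Real.log σ|) := by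
      refine (hC3 w hw0).trans ?_
      have hl : |Real.log w.re| ≤ |Real.log σ| := by
        have h4 : Real.log w.re ≤ 0 := Real.log_nonpos hw0.le hw2
        have h5 : Real.log σ ≤ Real.log w.re := Real.log_le_log hσ hw1
        rw [abs_of_nonpos h4, abs_of_nonpos (h5.trans h4)]
        linarith
      calc C3 * (1 + |Real.log w.re|) ≤ |C3| * (1 + |Real.log w.re|) :=
            mul_le_mul_of_nonneg_right (le_abs_self _) (by positivity)
        _ ≤ _ := mul_le_mul_of_nonneg_left (by linarith) (abs_nonneg _)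
    have hc0 : 0 ≤ |r| * (|C3| * (1 + |Real.log σ|)) := by positivity
    calc ‖H w‖ ≤ ‖L w‖ + ‖(r : ℂ) * ZZ w‖ := by
          rw [hH]
          exact norm_add_le _ _
      _ ≤ B2 * q + |r| * (|C3| * (1 + |Real.log σ|)) := by
          rw [norm_mul, Complex.norm_real, Real.norm_eq_abs]
          have := mul_le_mul_of_nonneg_left hz (abs_nonneg r)
          linarith [h2 w hw1]
      _ ≤ B2 * q + (|r| * (|C3| * (1 + |Real.log σ|))) * q := by
          nlinarith
      _ = _ := by ring
  -- near `0`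
  have hnear : ∃ r0 : ℝ, 0 < r0 ∧ ∀ w : ℂ, 0 < w.re → ‖w‖ < r0 →
      |(L w).re - r * Real.log ‖w‖ - l| < 1 := by
    have h1 := Metric.tendsto_nhds.1 hnr 1 one_pos
    rw [eventually_nhdsWithin_iff, Metric.eventually_nhds_iff_ball] at h1
    obtain ⟨r0, hr0, h2⟩ := h1
    refine ⟨r0, hr0, fun w hw hwr => ?_⟩
    have h3 := h2 w (by rw [Metric.mem_ball, dist_eq_norm]; simpa using hwr) hw
    rwa [Real.dist_eq] at h3
  obtain ⟨r0, hr0, hnear⟩ := hnear
  have hHre : ∀ w : ℂ, (H w).re = (L w).re + r * (ZZ w).re := by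
    intro w
    rw [hH]
    simp only [add_re, Complex.re_ofReal_mul]
  -- limit
  have hlim1 : ∀ τ : ℝ, Tendsto (fun U : ℝ => h U τ) atTop (𝓝 h0) := by
    intro τ
    have t2 := hc2 τ
    have t3 : Tendsto (fun U : ℝ => (L ((1 + τ * I) / U)).re - r * Real.log ‖((1 + τ * I) / U : ℂ)‖)
        atTop (𝓝 l) := by
      refine hnr.comp (tendsto_nhdsWithin_iff.2 ⟨w_tendsto τ, ?_⟩)
      filter_upwards [eventually_gt_atTop 0] with U hU
      show 0 < ((1 + τ * I) / U : ℂ).re
      rw [w_re]
      positivity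
    have t5 := t3.add (t2.const_mul r)
    refine t5.congr fun U => ?_
    rw [hh]
    simp only
    rw [hHre]
    ring
  set q : ℝ := min (r0 / 2) 1 with hq
  have hqpos : 0 < q := lt_min (by linarith) one_pos
  have hq1 : q ≤ 1 := min_le_right _ _
  have hqr0 : q < r0 := lt_of_le_of_lt (min_le_left _ _) (by linarith)
  set U0 : ℝ := max 1 (2 / q) with hU0
  have hU01 : 1 ≤ U0 := le_max_left _ _
  set K1 : ℝ := |r| * |C3| with hK1
  have hK10 : 0 ≤ K1 := by positivity
  set CC : ℝ := (|l| + 1) + |r| * |Cz| + (|CP| + K1 * Real.pi) with hCC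
  have hcont : ∀ U : ℝ, 0 < U → Continuous (h U) := by
    intro U hU
    rw [hh]
    apply Complex.continuous_re.comp
    apply hHd.continuousOn.comp_continuous (by fun_prop)
    intro τ
    show 0 < ((1 + τ * I) / U : ℂ).re
    rw [w_re]
    positivity
  have hlim := hLim h h0 CC (q / 2) U0 (by linarith) hU01
    (fun U hU => hcont U (by linarith)) hlim1 ?_ ?_
  · -- the explicit formula
    have hper := hPer a' H ha'0 ha's hHd hHs hHb
    have ht : Tendsto (fun U : ℝ => ∑ k ∈ Finset.Icc 1 ⌊Real.exp U⌋₊,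
        a' k * (1 - Real.log k / U)) atTop (𝓝 h0) := by
      refine hlim.congr' ?_
      filter_upwards [eventually_ge_atTop 1] with U hU
      rw [hper U hU]
    have h1 := avg a' h0 ha's ht
    have h2 := taskAvg2 (fun n : ℕ => (∑ k ∈ Finset.Icc 1 n, zz k) - Real.log (Real.log n)) c hc1
    have h3 := h1.sub (h2.const_mul r)
    have e0 : h0 - r * c = l - r * Real.eulerMascheroniConstant := by
      rw [hh0]; ring
    rw [← e0]
    refine h3.congr fun n => ?_
    rw [← mul_div_assoc, ← sub_div, Finset.mul_sum, ← Finset.sum_sub_distrib]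
    congr 1
    refine Finset.sum_congr rfl fun j _ => ?_
    simp only [ha']
    rw [Finset.sum_add_distrib, ← Finset.mul_sum]
    ring
  · intro U τ hU hτ
    have hUpos : 0 < U := by linarith
    have hUr : 2 / q ≤ U := le_trans (le_max_right _ _) hU
    have hU2 : 1 / U ≤ q / 2 := by
      rw [div_le_div_iff₀ hUpos (by norm_num)]
      rw [div_le_iff₀ hqpos] at hUr
      linarith
    have hre : ((1 + τ * I) / U : ℂ).re = 1 / U := w_re U τ
    have hre0 : 0 < ((1 + τ * I) / U : ℂ).re := by rw [hre]; positivity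
    have hn : ‖((1 + τ * I) / U : ℂ)‖ ≤ q := by
      rw [w_norm U τ hUpos, div_le_iff₀ hUpos]
      have h1 := norm_num_le τ
      have h2 : 1 ≤ q / 2 * U := by
        rw [div_le_iff₀ hUpos] at hU2
        exact hU2
      nlinarith
    have n1 := hnear _ hre0 (lt_of_le_of_lt hn hqr0)
    have d2 := hCz _ hre0 (hn.trans hq1)
    set w : ℂ := (1 + τ * I) / U with hw
    have hτ0 := abs_nonneg τ
    have hl0 : 0 ≤ Real.log (1 + |τ|) := Real.log_nonneg (by linarith)
    have d5 : |(L w).re - r * Real.log ‖w‖| ≤ |l| + 1 := by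
      have e : (L w).re - r * Real.log ‖w‖ = l + ((L w).re - r * Real.log ‖w‖ - l) := by ring
      rw [e]
      exact (abs_add_le _ _).trans (by linarith)
    have d6 : |r * ((ZZ w).re + Real.log ‖w‖)| ≤ |r| * |Cz| := by
      rw [abs_mul]
      exact mul_le_mul_of_nonneg_left (d2.trans (le_abs_self _)) (abs_nonneg _)
    have e1 : h U τ = ((L w).re - r * Real.log ‖w‖) + r * ((ZZ w).re + Real.log ‖w‖) := by
      rw [hh]
      simp only
      rw [hHre]
      ring
    rw [e1]
    have hmC : 0 ≤ |r| * |Cz| := by positivity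
    have hgl : 0 ≤ |l| := abs_nonneg _
    have hrest : 0 ≤ |CP| + K1 * Real.pi := by
      have := Real.pi_pos
      positivity
    calc |((L w).re - r * Real.log ‖w‖) + r * ((ZZ w).re + Real.log ‖w‖)|
        ≤ |(L w).re - r * Real.log ‖w‖| + |r * ((ZZ w).re + Real.log ‖w‖)| := abs_add_le _ _
      _ ≤ (|l| + 1) + |r| * |Cz| := by linarith
      _ ≤ CC * (1 + Real.log (1 + |τ|)) := by
          rw [hCC]
          nlinarith [mul_nonneg hmC hl0, mul_nonneg hgl hl0, mul_nonneg hrest hl0]
  · intro U hU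
    have hU1 : 1 ≤ U := le_trans hU01 hU
    have hUpos : 0 < U := by linarith
    set σ : ℝ := 1 / U with hσ
    have hσ0 : 0 < σ := by positivity
    have hσ1 : σ ≤ 1 := by rw [hσ, div_le_one hUpos]; exact hU1
    obtain ⟨p1, p2⟩ := hCP σ hσ0 hσ1
    have hlU : 0 ≤ Real.log U := Real.log_nonneg hU1
    have hpt : ∀ t : ℝ, |h U (U * t)| / (1 + t ^ 2) ≤
        |(L (σ + t * I)).re| / (1 + t ^ 2) + K1 * (1 + Real.log U) * (1 + t ^ 2)⁻¹ := by
      intro t
      have hw : ((1 + ((U * t : ℝ) : ℂ) * I) / U : ℂ) = σ + t * I := by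
        have hUc : (U : ℂ) ≠ 0 := by exact_mod_cast hUpos.ne'
        rw [hσ]
        push_cast
        field_simp
      have hwre : (σ + t * I : ℂ).re = σ := by simp
      have d2 := hC3 (σ + t * I) (by rw [hwre]; exact hσ0)
      rw [hwre] at d2
      have hlσ : |Real.log σ| = Real.log U := by
        rw [hσ, one_div, Real.log_inv, abs_neg, abs_of_nonneg hlU]
      rw [hlσ] at d2
      have e1 : |h U (U * t)| ≤ |(L (σ + t * I)).re| + K1 * (1 + Real.log U) := by
        rw [hh]
        simp only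
        rw [hw, hHre]
        have f2 : |r * (ZZ (σ + t * I)).re| ≤ |r| * (|C3| * (1 + Real.log U)) := by
          rw [abs_mul]
          refine mul_le_mul_of_nonneg_left ((Complex.abs_re_le_norm _).trans (d2.trans ?_)) (abs_nonneg _)
          exact mul_le_mul_of_nonneg_right (le_abs_self _) (by linarith)
        refine (abs_add_le _ _).trans ?_
        rw [hK1]
        linarith
      calc |h U (U * t)| / (1 + t ^ 2) ≤ (|(L (σ + t * I)).re| + K1 * (1 + Real.log U)) / (1 + t ^ 2) :=
            div_le_div_of_nonneg_right e1 (by positivity)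
        _ = _ := by ring
    have i2 : Integrable (fun t : ℝ => K1 * (1 + Real.log U) * (1 + t ^ 2)⁻¹) :=
      integrable_inv_one_add_sq.const_mul _
    have hint : Integrable (fun t : ℝ => |(L (σ + t * I)).re| / (1 + t ^ 2) +
        K1 * (1 + Real.log U) * (1 + t ^ 2)⁻¹) := p1.add i2
    have hmeas : AEStronglyMeasurable (fun t : ℝ => |h U (U * t)| / (1 + t ^ 2)) := by
      apply Continuous.aestronglyMeasurable
      have : Continuous fun t : ℝ => h U (U * t) := (hcont U hUpos).comp (by fun_prop)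
      exact this.abs.div (by fun_prop) (fun t => by positivity)
    have hI : Integrable (fun t : ℝ => |h U (U * t)| / (1 + t ^ 2)) := by
      refine hint.mono' hmeas (Filter.Eventually.of_forall fun t => ?_)
      rw [Real.norm_eq_abs, abs_of_nonneg (by positivity)]
      exact hpt t
    refine ⟨hI, ?_⟩
    have h1 : ∫ t : ℝ, |h U (U * t)| / (1 + t ^ 2) ≤ CP + K1 * (1 + Real.log U) * Real.pi := by
      refine (integral_mono hI hint hpt).trans ?_
      rw [integral_add p1 i2, integral_const_mul, integral_univ_inv_one_add_sq]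
      linarith
    refine h1.trans ?_
    have hp := Real.pi_pos
    have hCPa := le_abs_self CP
    have hCP0 := abs_nonneg CP
    have hx2 : 0 ≤ |r| * |Cz| := by positivity
    have hx4 : 0 ≤ K1 * Real.pi := by positivity
    have hx5 : 0 ≤ |l| := abs_nonneg _
    rw [hCC]
    nlinarith [mul_nonneg hx2 hlU, mul_nonneg hx5 hlU, mul_nonneg hCP0 hlU]

end Pool.Agent.H438R3.BSD.Cnv
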