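import Pool.Agent.H438R3.BSD.Cnv
import Pool.Agent.H438R3.BSD.GenN3
import Pool.Agent.H814R3.BSD.T_Log

/-! The prime power coefficients of general local data. -/

set_option autoImplicit false
set_option maxHeartbeats 2000000

open Complex Filter Topology Finset

namespace Pool.Agent.H438R3.BSD.GenN

open Pool.Agent.H438R3.BSD Pool.Agent.H814R3.BSD

lemma pow_cpow (q k : ℕ) (s : ℂ) : ((q ^ k : ℕ) : ℂ) ^ s = ((q : ℂ) ^ s) ^ k := by
  induction k with
  | zero => simp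
  | succ k ih =>
    rw [pow_succ, Nat.cast_mul, Complex.natCast_mul_natCast_cpow, ih, pow_succ]

/-- a common logarithm -/
lemma log_gen (F S : ℂ → ℂ) (hF : Differentiable ℂ F) (hne : ∀ s : ℂ, 1 < s.re → F s ≠ 0)
    (hSd : DifferentiableOn ℂ S {w : ℂ | (3 : ℝ) / 4 < w.re})
    (hSe : ∀ w : ℂ, 3 / 4 < w.re → exp (S w) = F (1 + w)) :
    ∃ L : ℂ → ℂ, DifferentiableOn ℂ L {w | 0 < w.re} ∧
      (∀ w : ℂ, 0 < w.re → exp (L w) = F (1 + w)) ∧ ∀ w : ℂ, 3 / 4 < w.re → L w = S w := by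
  have hadd : Differentiable ℂ (fun w : ℂ => 1 + w) := by fun_prop
  have hFd : Differentiable ℂ (fun w : ℂ => F (1 + w)) := hF.comp hadd
  have hopen : IsOpen {w : ℂ | (3 : ℝ) / 4 < w.re} := Complex.isOpen_re_gt _
  obtain ⟨L0, hL0, hL0e⟩ := log_ok (fun w => F (1 + w)) hFd.differentiableOn (by
    intro w hw
    apply hne
    simp only [add_re, one_re]; linarith)
  have hsub : {w : ℂ | (3 : ℝ) / 4 < w.re} ⊆ {w : ℂ | 0 < w.re} := by
    intro w hw
    have h1 : (3 : ℝ) / 4 < w.re := hw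
    show 0 < w.re
    linarith
  have hD : DifferentiableOn ℂ (fun w => L0 w - S w) {w : ℂ | (3 : ℝ) / 4 < w.re} :=
    (hL0.mono hsub).sub hSd
  have hexp : ∀ w : ℂ, 3 / 4 < w.re → exp (L0 w - S w) = 1 := by
    intro w hw
    have hw0 : 0 < w.re := by linarith
    rw [Complex.exp_sub, hL0e w hw0, hSe w hw, div_self]
    apply hne
    simp only [add_re, one_re]; linarith
  have hconv : Convex ℝ {w : ℂ | (3 : ℝ) / 4 < w.re} := convex_halfSpace_re_gt _
  have hpre : IsPreconnected {w : ℂ | (3 : ℝ) / 4 < w.re} := hconv.isPreconnected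
  have hderiv : Set.EqOn (deriv (fun w => L0 w - S w)) 0 {w : ℂ | (3 : ℝ) / 4 < w.re} := by
    intro w hw
    have hd : DifferentiableAt ℂ (fun w => L0 w - S w) w := hD.differentiableAt (hopen.mem_nhds hw)
    have h1 : HasDerivAt (fun w => exp (L0 w - S w))
        (exp (L0 w - S w) * deriv (fun w => L0 w - S w) w) w := hd.hasDerivAt.cexp
    have h2 : (fun w => exp (L0 w - S w)) =ᶠ[𝓝 w] fun _ => (1 : ℂ) := by
      filter_upwards [hopen.mem_nhds hw] with z hz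
      exact hexp z hz
    have h3 : HasDerivAt (fun _ : ℂ => (1 : ℂ))
        (exp (L0 w - S w) * deriv (fun w => L0 w - S w) w) w := h1.congr_of_eventuallyEq h2.symm
    have h4 := h3.unique (hasDerivAt_const w (1 : ℂ))
    rw [hexp w hw, one_mul] at h4
    exact h4
  obtain ⟨c, hc⟩ := hopen.exists_is_const_of_deriv_eq_zero hpre hD hderiv
  have hc1 : exp c = 1 := by
    have h1 := hexp 1 (by norm_num)
    have h2 := hc 1 (by show (3 : ℝ) / 4 < (1 : ℂ).re; norm_num)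
    rw [h2] at h1
    exact h1
  refine ⟨fun w => L0 w - c, hL0.sub_const c, ?_, ?_⟩
  · intro w hw
    show exp (L0 w - c) = F (1 + w)
    rw [Complex.exp_sub, hc1, div_one, hL0e w hw]
  · intro w hw
    have h2 := hc w hw
    show L0 w - c = S w
    rw [← h2]; ring

section

variable (good : ℕ → Prop) [DecidablePred good] (c : ℕ → ℕ → ℝ)

/-- the term of the prime power `q ^ (m + 1)` -/
noncomputable def tt (x : ℕ × ℕ) : ℝ :=
  if good x.1 then c x.1 (x.2 + 1) * (x.1 : ℝ) ^ (-((x.2 : ℝ) + 1)) / ((x.2 : ℝ) + 1) else 0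

/-- the prime power -/
def ph (x : ℕ × ℕ) : ℕ := if 2 ≤ x.1 then x.1 ^ (x.2 + 1) else 0

/-- the pairs giving `n` -/
def ff (n : ℕ) : Finset (ℕ × ℕ) :=
  ((Finset.range (n + 1)) ×ˢ (Finset.range n)).filter (fun x => 2 ≤ x.1 ∧ x.1 ^ (x.2 + 1) = n)

lemma mem_ff {n : ℕ} {x : ℕ × ℕ} : x ∈ ff n ↔ 2 ≤ x.1 ∧ x.1 ^ (x.2 + 1) = n := by
  unfold ff
  rw [Finset.mem_filter, Finset.mem_product, Finset.mem_range, Finset.mem_range]
  constructor
  · exact fun h => h.2
  · intro h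
    refine ⟨⟨?_, ?_⟩, h⟩
    · have h1 : x.1 ≤ x.1 ^ (x.2 + 1) := Nat.le_self_pow (by omega) _
      omega
    · have h1 : x.2 < 2 ^ x.2 := Nat.lt_two_pow_self
      have h2 : 2 ^ x.2 ≤ 2 ^ (x.2 + 1) := Nat.pow_le_pow_right (by norm_num) (by omega)
      have h3 : 2 ^ (x.2 + 1) ≤ x.1 ^ (x.2 + 1) := Nat.pow_le_pow_left h.1 _
      omega

/-- the coefficient of `n` -/
noncomputable def pa (n : ℕ) : ℝ := ∑ x ∈ ff n, tt good c x

lemma ff_zero : ff 0 = ∅ := by unfold ff; simp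

lemma pa_zero : pa good c 0 = 0 := by unfold pa; rw [ff_zero]; simp

variable {good c}
variable {K : ℝ} (hgood : ∀ p, good p → 2 ≤ p) (hK : 0 ≤ K)
  (hc : ∀ p, good p → ∀ m : ℕ, 1 ≤ m → |c p m| ≤ K * (p : ℝ) ^ ((m : ℝ) / 2))

include hgood hK hc

lemma S1 : Summable (fun x : ℕ × ℕ => |tt good c x| * ((ph x : ℕ) : ℝ) ^ (-(3 / 4) : ℝ)) := by
  have h1 : Summable (fun q : ℕ => K * (q : ℝ) ^ (-(5 / 4) : ℝ)) :=
    (Real.summable_nat_rpow.2 (by norm_num)).mul_left K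
  have h2 : Summable (fun m : ℕ => (1 / 2 : ℝ) ^ m) := summable_geometric_two
  have h3 := Summable.mul_of_nonneg h1 h2 (fun q => by positivity) (fun m => by positivity)
  refine Summable.of_nonneg_of_le (fun x => by positivity) (fun x => ?_) h3
  obtain ⟨q, m⟩ := x
  unfold tt
  simp only
  split_ifs with hq
  · have hq2 := hgood q hq
    have hq2' : (2 : ℝ) ≤ q := by exact_mod_cast hq2
    have hq0 : (0 : ℝ) < q := by linarith
    have h4 := termR_le hgood hK hc hq m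
    have e1 : ((ph (q, m) : ℕ) : ℝ) ^ (-(3 / 4) : ℝ) = ((q : ℝ) ^ (-(3 / 4) : ℝ)) ^ (m + 1) := by
      unfold ph
      simp only
      rw [if_pos hq2, Nat.cast_pow, ← Real.rpow_natCast, ← Real.rpow_mul hq0.le, ← Real.rpow_natCast,
        ← Real.rpow_mul hq0.le]
      congr 1
      ring
    rw [e1]
    have e2 : (q : ℝ) ^ (-(1 / 2) : ℝ) * (q : ℝ) ^ (-(3 / 4) : ℝ) = (q : ℝ) ^ (-(5 / 4) : ℝ) := by
      rw [← Real.rpow_add hq0]; norm_num
    have h5 : (q : ℝ) ^ (-(5 / 4) : ℝ) ≤ 1 / 2 := by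
      calc (q : ℝ) ^ (-(5 / 4) : ℝ) ≤ (2 : ℝ) ^ (-(5 / 4) : ℝ) :=
            Real.rpow_le_rpow_of_nonpos (by norm_num) hq2' (by norm_num)
        _ ≤ (2 : ℝ) ^ (-1 : ℝ) := Real.rpow_le_rpow_of_exponent_le (by norm_num) (by norm_num)
        _ = 1 / 2 := by rw [Real.rpow_neg_one]; norm_num
    calc |c q (m + 1) * (q : ℝ) ^ (-((m : ℝ) + 1)) / ((m : ℝ) + 1)| * ((q : ℝ) ^ (-(3 / 4) : ℝ)) ^ (m + 1)
        ≤ (K * ((q : ℝ) ^ (-(1 / 2) : ℝ)) ^ (m + 1)) * ((q : ℝ) ^ (-(3 / 4) : ℝ)) ^ (m + 1) :=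
          mul_le_mul_of_nonneg_right h4 (by positivity)
      _ = K * ((q : ℝ) ^ (-(5 / 4) : ℝ)) ^ (m + 1) := by
          rw [mul_assoc, ← mul_pow, e2]
      _ = K * (q : ℝ) ^ (-(5 / 4) : ℝ) * ((q : ℝ) ^ (-(5 / 4) : ℝ)) ^ m := by rw [pow_succ]; ring
      _ ≤ K * (q : ℝ) ^ (-(5 / 4) : ℝ) * (1 / 2) ^ m := by
          refine mul_le_mul_of_nonneg_left ?_ (by positivity)
          exact pow_le_pow_left₀ (by positivity) h5 m
  · simp only [abs_zero, zero_mul]
    positivity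

lemma tt_zero {x : ℕ × ℕ} (h : ¬ 2 ≤ x.1) : tt good c x = 0 := by
  unfold tt
  rw [if_neg fun h' => h (hgood _ h')]

omit hK hc in
lemma ph_iff {n : ℕ} (hn : 1 ≤ n) {x : ℕ × ℕ} : ph x = n ↔ x ∈ ff n := by
  rw [mem_ff]
  unfold ph
  split_ifs with h
  · exact ⟨fun h' => ⟨h, h'⟩, fun h' => h'.2⟩
  · exact ⟨fun h' => by omega, fun h' => absurd h'.1 h⟩

/-- regrouping by the prime powers -/
lemma regroup {E : Type} [NormedAddCommGroup E] (f : ℕ × ℕ → E) (a : E) (hf : HasSum f a)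
    (hf0 : ∀ x, ¬ 2 ≤ x.1 → f x = 0) : HasSum (fun n : ℕ => ∑ x ∈ ff n, f x) a := by
  have h1 := (Equiv.hasSum_iff (Equiv.sigmaFiberEquiv ph)).2 hf
  refine h1.sigma fun n => ?_
  rcases Nat.eq_zero_or_pos n with h0 | h0
  · subst h0
    rw [ff_zero, Finset.sum_empty]
    have : (fun y : {x : ℕ × ℕ // ph x = 0} => (f ∘ (Equiv.sigmaFiberEquiv ph)) ⟨0, y⟩) = fun _ => 0 := by
      funext y
      simp only [Function.comp_apply, Equiv.sigmaFiberEquiv_apply]
      apply hf0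
      intro h
      have h2 : ph y.1 = 0 := y.2
      unfold ph at h2
      rw [if_pos h] at h2
      have : 0 < (y.1).1 ^ ((y.1).2 + 1) := Nat.pow_pos (by omega)
      omega
    rw [this]
    exact hasSum_zero
  · have : Fintype {x : ℕ × ℕ // ph x = n} :=
      Fintype.subtype (ff n) fun x => (ph_iff hgood h0).symm
    have h2 := hasSum_fintype (fun y : {x : ℕ × ℕ // ph x = n} => f y.1)
    have h3 : ∑ x ∈ ff n, f x = ∑ y : {x : ℕ × ℕ // ph x = n}, f y.1 :=
      Finset.sum_subtype (ff n) (fun x => (ph_iff hgood h0).symm) f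
    rw [h3]
    exact h2

/-- the term at `s = 1 + w` -/
lemma term_eq {x : ℕ × ℕ} (hx : good x.1) (w : ℂ) :
    (tt good c x : ℂ) * ((ph x : ℕ) : ℂ) ^ (-w) =
      (c x.1 (x.2 + 1) : ℂ) * (x.1 : ℂ) ^ (-((x.2 + 1 : ℂ) * (1 + w))) / (x.2 + 1 : ℂ) := by
  obtain ⟨q, m⟩ := x
  simp only at hx ⊢
  have hq2 := hgood q hx
  have hqc : (q : ℂ) ≠ 0 := by exact_mod_cast (by omega : q ≠ 0)
  have e1 : ((ph (q, m) : ℕ) : ℂ) ^ (-w) = (q : ℂ) ^ (-((m + 1 : ℂ) * w)) := by
    unfold ph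
    simp only
    rw [if_pos hq2, pow_cpow, ← Complex.cpow_nat_mul]
    congr 1
    push_cast
    ring
  have e2 : (q : ℂ) ^ (-((m + 1 : ℂ) * (1 + w))) =
      (q : ℂ) ^ (-((m : ℂ) + 1)) * (q : ℂ) ^ (-((m + 1 : ℂ) * w)) := by
    rw [← Complex.cpow_add _ _ hqc]
    congr 1
    ring
  rw [e1, e2]
  unfold tt
  simp only
  rw [if_pos hx]
  push_cast
  rw [Complex.ofReal_cpow (Nat.cast_nonneg q)]
  push_cast
  ring

lemma normC_le (w : ℂ) (hw : 3 / 4 ≤ w.re) (x : ℕ × ℕ) :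
    ‖(tt good c x : ℂ) * ((ph x : ℕ) : ℂ) ^ (-w)‖ ≤
      |tt good c x| * ((ph x : ℕ) : ℝ) ^ (-(3 / 4) : ℝ) := by
  by_cases h : 2 ≤ x.1
  · have hpos : 0 < ph x := by
      unfold ph
      rw [if_pos h]
      exact Nat.pow_pos (by omega)
    rw [norm_mul, Complex.norm_real, Real.norm_eq_abs, Complex.norm_natCast_cpow_of_pos hpos]
    refine mul_le_mul_of_nonneg_left ?_ (abs_nonneg _)
    refine Real.rpow_le_rpow_of_exponent_le (by exact_mod_cast hpos) ?_
    simp only [neg_re]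
    linarith
  · rw [tt_zero hgood hK hc h]
    simp

/-- the Dirichlet series -/
lemma pa_hasSum (w : ℂ) (hw : 3 / 4 ≤ w.re) :
    HasSum (fun q : ℕ => LLc good c q (1 + w)) (LSeries (fun n => (pa good c n : ℂ)) w) ∧
    LSeriesSummable (fun n => (pa good c n : ℂ)) w := by
  set f : ℕ × ℕ → ℂ := fun x => (tt good c x : ℂ) * ((ph x : ℕ) : ℂ) ^ (-w) with hf
  have h1 : Summable f := Summable.of_norm_bounded (S1 hgood hK hc) (normC_le hgood hK hc w hw)
  have h2 : HasSum (fun q : ℕ => LLc good c q (1 + w)) (∑' x, f x) := by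
    refine HasSum.prod_fiberwise h1.hasSum (fun q => ?_)
    unfold LLc
    split_ifs with hq
    · have hs : 1 ≤ (1 + w).re := by simp only [add_re, one_re]; linarith
      have h3 := (summable_C hgood hK hc hq (1 + w) hs).hasSum
      have e : (fun m : ℕ => f (q, m)) = fun m : ℕ =>
          (c q (m + 1) : ℂ) * (q : ℂ) ^ (-((m + 1 : ℂ) * (1 + w))) / (m + 1 : ℂ) := by
        funext m
        exact term_eq hgood hK hc (x := (q, m)) hq w
      rw [e]
      exact h3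
    · have : (fun m : ℕ => f (q, m)) = fun _ => 0 := by
        funext m
        rw [hf]
        simp only
        unfold tt
        rw [if_neg hq]
        simp
      rw [this]
      exact hasSum_zero
  have h4 := regroup hgood hK hc f _ h1.hasSum (fun x hx => by
    rw [hf]
    simp only
    rw [tt_zero hgood hK hc hx]
    simp)
  have h5 : (fun n : ℕ => ∑ x ∈ ff n, f x) = LSeries.term (fun n => (pa good c n : ℂ)) w := by
    funext n
    rcases Nat.eq_zero_or_pos n with h0 | h0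
    · subst h0
      rw [ff_zero, LSeries.term_zero]
      simp
    · rw [LSeries.term_of_ne_zero (by omega)]
      unfold pa
      push_cast
      rw [Finset.sum_div]
      refine Finset.sum_congr rfl fun x hx => ?_
      rw [hf]
      simp only
      rw [(ph_iff hgood h0).2 hx, Complex.cpow_neg, div_eq_mul_inv]
  rw [h5] at h4
  have h6 : LSeries (fun n => (pa good c n : ℂ)) w = ∑' x, f x := h4.tsum_eq
  refine ⟨by rw [h6]; exact h2, h4.summable⟩

lemma pa_summable : Summable (fun n : ℕ => |pa good c n| * (n : ℝ) ^ (-(3 / 4) : ℝ)) := by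
  have h4 := regroup hgood hK hc (fun x => |tt good c x| * ((ph x : ℕ) : ℝ) ^ (-(3 / 4) : ℝ)) _
    (S1 hgood hK hc).hasSum (fun x hx => by
      rw [tt_zero hgood hK hc hx]
      simp)
  refine Summable.of_nonneg_of_le (fun n => by positivity) (fun n => ?_) h4.summable
  rcases Nat.eq_zero_or_pos n with h0 | h0
  · subst h0
    rw [pa_zero, ff_zero]
    simp
  · unfold pa
    calc |∑ x ∈ ff n, tt good c x| * (n : ℝ) ^ (-(3 / 4) : ℝ)
        ≤ (∑ x ∈ ff n, |tt good c x|) * (n : ℝ) ^ (-(3 / 4) : ℝ) :=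
          mul_le_mul_of_nonneg_right (Finset.abs_sum_le_sum_abs _ _) (by positivity)
      _ = ∑ x ∈ ff n, |tt good c x| * ((ph x : ℕ) : ℝ) ^ (-(3 / 4) : ℝ) := by
          rw [Finset.sum_mul]
          refine Finset.sum_congr rfl fun x hx => ?_
          rw [(ph_iff hgood h0).2 hx]

lemma pa_summable1 : Summable (fun n : ℕ => |pa good c n| / n) := by
  refine Summable.of_nonneg_of_le (fun n => by positivity) (fun n => ?_) (pa_summable hgood hK hc)
  rcases Nat.eq_zero_or_pos n with h0 | h0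
  · subst h0
    rw [pa_zero]
    simp
  · have hn1 : (1 : ℝ) ≤ n := by exact_mod_cast h0
    rw [div_eq_mul_inv, ← Real.rpow_neg_one]
    exact mul_le_mul_of_nonneg_left (Real.rpow_le_rpow_of_exponent_le hn1 (by norm_num)) (abs_nonneg _)

lemma pa_diff : DifferentiableOn ℂ (LSeries (fun n => (pa good c n : ℂ))) {w : ℂ | (3 : ℝ) / 4 < w.re} := by
  refine (LSeries_differentiableOn (fun n => (pa good c n : ℂ))).mono fun w hw => ?_
  have hw' : (3 : ℝ) / 4 < w.re := hw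
  have h1 : LSeries.abscissaOfAbsConv (fun n => (pa good c n : ℂ)) ≤ ((3 / 4 : ℝ) : EReal) := by
    refine LSeries.abscissaOfAbsConv_le_of_forall_lt_LSeriesSummable fun y hy => ?_
    exact (pa_hasSum hgood hK hc (y : ℂ) (by simpa using hy.le)).2
  exact lt_of_le_of_lt h1 (by exact_mod_cast hw')

/-- the limit theorem for general local data -/
theorem conv_gen (hBC : TaskBC) {F : ℂ → ℂ} (hF : Differentiable ℂ F)
    (hprod : ∀ s : ℂ, 3 / 2 < s.re → HasProd (fun p : ℕ => exp (LLc good c p s)) (F s))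
    (hgr : ∃ C K : ℝ, ∀ s : ℂ, 1 ≤ s.re → ‖F s‖ ≤ C * (1 + ‖s‖) ^ K)
    (hRH : ∀ s : ℂ, 1 < s.re → F s ≠ 0)
    (m : ℕ) (g : ℂ → ℂ) (hga : AnalyticAt ℂ g 1) (hg1 : g 1 ≠ 0)
    (hfac : ∀ᶠ z in 𝓝 (1 : ℂ), F z = (z - 1) ^ m * g z) :
    Tendsto (fun n : ℕ => (∑ j ∈ Finset.Icc 2 n,
      ((∑ k ∈ Finset.Icc 1 j, pa good c k) + m * Real.log (Real.log j)) / j) / Real.log n) atTop
      (𝓝 (Real.log ‖g 1‖ - m * Real.eulerMascheroniConstant)) := by
  have hSe : ∀ w : ℂ, 3 / 4 < w.re →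
      exp (LSeries (fun n => (pa good c n : ℂ)) w) = F (1 + w) := by
    intro w hw
    have h1 := (pa_hasSum hgood hK hc w hw.le).1.cexp
    exact h1.unique (hprod (1 + w) (by simp only [add_re, one_re]; linarith))
  obtain ⟨L, hLd, hLe, hLs⟩ := log_gen F _ hF hRH (pa_diff hgood hK hc) hSe
  refine Cnv.conv hBC (pa good c) (pa_zero good c) (pa_summable1 hgood hK hc) L hLd
    (fun w hw => hLs w (by linarith)) (L_upper hgr L hLe) m _ ?_
  -- behaviour at `0`
  have hgc : ContinuousAt (fun z => Real.log ‖g z‖) 1 :=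
    (hga.continuousAt.norm).log (by simpa using hg1)
  have hev : ∀ᶠ z in 𝓝 (1 : ℂ), F z = (z - 1) ^ m * g z ∧ g z ≠ 0 :=
    hfac.and (hga.continuousAt.eventually_ne hg1)
  have ht : Tendsto (fun w : ℂ => (1 : ℂ) + w) (𝓝 0) (𝓝 1) := by
    have h : ContinuousAt (fun w : ℂ => (1 : ℂ) + w) 0 := by fun_prop
    have h2 := h.tendsto
    rwa [add_zero] at h2
  have h1 : Tendsto (fun w : ℂ => Real.log ‖g (1 + w)‖) (𝓝[{w : ℂ | 0 < w.re}] 0)
      (𝓝 (Real.log ‖g 1‖)) := (hgc.tendsto.comp ht).mono_left nhdsWithin_le_nhds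
  refine h1.congr' ?_
  filter_upwards [nhdsWithin_le_nhds (ht.eventually hev), self_mem_nhdsWithin] with w hw1 hw2
  obtain ⟨e1, e3⟩ := hw1
  have hw : 0 < w.re := hw2
  have hw0 : w ≠ 0 := by
    rintro rfl
    simp at hw
  have h1 := hLe w hw
  rw [e1, add_sub_cancel_left] at h1
  have h2 : Real.exp (L w).re = ‖w‖ ^ m * ‖g (1 + w)‖ := by
    rw [← Complex.norm_exp, h1, norm_mul, norm_pow]
  have h3 : ‖w‖ ≠ 0 := norm_ne_zero_iff.2 hw0
  have h4 : ‖g (1 + w)‖ ≠ 0 := norm_ne_zero_iff.2 e3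
  rw [← Real.log_exp (L w).re, h2, Real.log_mul (pow_ne_zero _ h3) h4, Real.log_pow]
  ring

end

end Pool.Agent.H438R3.BSD.GenN
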