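import Pool.Agent.H341R2.PrimeSums

/-! Local terms of the logarithm of an Euler product of degree two. -/

set_option autoImplicit false

open Complex Filter Topology Finset

namespace Pool.Agent.H438R3.BSD

/-- `-log (1 - z) - z` -/
noncomputable def rr (z : ℂ) : ℂ := -Complex.log (1 - z) - z

lemma rr_le {z : ℂ} (hz : ‖z‖ ≤ 0.71) : ‖rr z‖ ≤ 2 * ‖z‖ ^ 2 := by
  have h1 : ‖-z‖ < 1 := by rw [norm_neg]; linarith
  have h2 := Complex.norm_log_one_add_sub_self_le h1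
  have e : rr z = -(Complex.log (1 + -z) - -z) := by unfold rr; ring_nf
  rw [e, norm_neg]
  refine h2.trans ?_
  rw [norm_neg]
  have h3 : (1 - ‖z‖)⁻¹ ≤ 4 := by
    rw [inv_le_comm₀ (by linarith) (by norm_num)]
    norm_num at hz ⊢
    linarith
  have h4 : 0 ≤ ‖z‖ ^ 2 := by positivity
  nlinarith

lemma rr_le3 {z : ℂ} (hz : ‖z‖ ≤ 0.71) : ‖rr z - z ^ 2 / 2‖ ≤ 2 * ‖z‖ ^ 3 := by
  have h1 : ‖-z‖ < 1 := by rw [norm_neg]; linarith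
  have h2 := Complex.norm_log_sub_logTaylor_le 2 h1
  have e : rr z - z ^ 2 / 2 = -(Complex.log (1 + -z) - logTaylor (2 + 1) (-z)) := by
    unfold rr
    simp only [logTaylor_succ, logTaylor_zero, Pi.add_apply]
    push_cast
    ring_nf
  rw [e, norm_neg]
  refine h2.trans ?_
  rw [norm_neg]
  have h3 : (1 - ‖z‖)⁻¹ ≤ 4 := by
    rw [inv_le_comm₀ (by linarith) (by norm_num)]
    norm_num at hz ⊢
    linarith
  have h4 : 0 ≤ ‖z‖ ^ 3 := by positivity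
  push_cast
  norm_num
  nlinarith

/-- the local error term -/
noncomputable def del (p : ℕ) (β s : ℂ) : ℂ :=
  rr (β * (p : ℂ) ^ (-s)) - (p : ℂ) ^ (1 - s) * rr (β / p)

lemma two_rpow_le : (2 : ℝ) ^ (-(1 / 2) : ℝ) ≤ 0.71 := by
  rw [Real.rpow_neg (by norm_num), ← Real.sqrt_eq_rpow]
  rw [inv_le_comm₀ (by positivity) (by norm_num)]
  apply Real.le_sqrt_of_sq_le
  norm_num

lemma x_rpow_le {x t : ℝ} (hx : 2 ≤ x) (ht : t ≤ -(1 / 2)) : x ^ t ≤ 0.71 := by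
  calc x ^ t ≤ x ^ (-(1 / 2) : ℝ) := Real.rpow_le_rpow_of_exponent_le (by linarith) ht
    _ ≤ 2 ^ (-(1 / 2) : ℝ) := Real.rpow_le_rpow_of_nonpos (by norm_num) hx (by norm_num)
    _ ≤ _ := two_rpow_le

section

variable {p : ℕ} (hp : p.Prime) {β : ℂ} (hβ : ‖β‖ = (p : ℝ) ^ (1 / 2 : ℝ))

include hp hβ

lemma norm_a (s : ℂ) : ‖β * (p : ℂ) ^ (-s)‖ = (p : ℝ) ^ (1 / 2 - s.re) := by
  have hp0 : (0 : ℝ) < p := by exact_mod_cast hp.pos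
  rw [norm_mul, hβ, Complex.norm_natCast_cpow_of_pos hp.pos, neg_re, ← Real.rpow_add hp0]
  congr 1

lemma norm_b : ‖β / (p : ℂ)‖ = (p : ℝ) ^ (-(1 / 2) : ℝ) := by
  have hp0 : (0 : ℝ) < p := by exact_mod_cast hp.pos
  rw [norm_div, hβ, Complex.norm_natCast, div_eq_mul_inv, ← Real.rpow_neg_one (p : ℝ),
    ← Real.rpow_add hp0]
  norm_num

lemma del_le (s : ℂ) (hs : 1 ≤ s.re) : ‖del p β s‖ ≤ 4 * (p : ℝ) ^ (-s.re) := by
  have hp0 : (0 : ℝ) < p := by exact_mod_cast hp.pos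
  have hp2 : (2 : ℝ) ≤ p := by exact_mod_cast hp.two_le
  have h1 := norm_a hp hβ s
  have h2 := norm_b hp hβ
  have h3 : ‖(p : ℂ) ^ (1 - s)‖ = (p : ℝ) ^ (1 - s.re) := by
    rw [Complex.norm_natCast_cpow_of_pos hp.pos]; simp
  have h4 := rr_le (z := β * (p : ℂ) ^ (-s)) (by rw [h1]; exact x_rpow_le hp2 (by linarith))
  have h5 := rr_le (z := β / (p : ℂ)) (by rw [h2]; exact x_rpow_le hp2 (by linarith))
  rw [h1] at h4
  rw [h2] at h5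
  have h6 : ((p : ℝ) ^ (1 / 2 - s.re)) ^ 2 ≤ (p : ℝ) ^ (-s.re) := by
    rw [← Real.rpow_natCast, ← Real.rpow_mul hp0.le]
    apply Real.rpow_le_rpow_of_exponent_le (by linarith)
    push_cast
    linarith
  have h7 : (p : ℝ) ^ (1 - s.re) * ((p : ℝ) ^ (-(1 / 2) : ℝ)) ^ 2 = (p : ℝ) ^ (-s.re) := by
    rw [← Real.rpow_natCast, ← Real.rpow_mul hp0.le, ← Real.rpow_add hp0]
    congr 1
    push_cast
    ring
  calc ‖del p β s‖ ≤ ‖rr (β * (p : ℂ) ^ (-s))‖ + ‖(p : ℂ) ^ (1 - s) * rr (β / p)‖ := norm_sub_le _ _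
    _ ≤ 2 * ((p : ℝ) ^ (1 / 2 - s.re)) ^ 2 + (p : ℝ) ^ (1 - s.re) * (2 * ((p : ℝ) ^ (-(1 / 2) : ℝ)) ^ 2) := by
        rw [norm_mul, h3]
        gcongr
    _ = 2 * ((p : ℝ) ^ (1 / 2 - s.re)) ^ 2 + 2 * ((p : ℝ) ^ (1 - s.re) * ((p : ℝ) ^ (-(1 / 2) : ℝ)) ^ 2) := by
        ring
    _ ≤ 2 * (p : ℝ) ^ (-s.re) + 2 * (p : ℝ) ^ (-s.re) := by rw [h7]; gcongr
    _ = _ := by ring

lemma del_le_real (σ : ℝ) (hs : 1 ≤ σ) : ‖del p β σ‖ ≤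
    1 / 2 * ((p : ℝ) ^ (-σ) - (p : ℝ) ^ (1 - 2 * σ)) + 4 * (p : ℝ) ^ (-(3 / 2) : ℝ) := by
  have hp0 : (0 : ℝ) < p := by exact_mod_cast hp.pos
  have hp2 : (2 : ℝ) ≤ p := by exact_mod_cast hp.two_le
  have hpc : (p : ℂ) ≠ 0 := by exact_mod_cast hp.ne_zero
  have h1 := norm_a hp hβ (σ : ℂ)
  have h2 := norm_b hp hβ
  have h3 : ‖(p : ℂ) ^ (1 - (σ : ℂ))‖ = (p : ℝ) ^ (1 - σ) := by
    rw [Complex.norm_natCast_cpow_of_pos hp.pos]; simp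
  simp only [ofReal_re] at h1
  have h4 := rr_le3 (z := β * (p : ℂ) ^ (-(σ : ℂ))) (by rw [h1]; exact x_rpow_le hp2 (by linarith))
  have h5 := rr_le3 (z := β / (p : ℂ)) (by rw [h2]; exact x_rpow_le hp2 (by linarith))
  rw [h1] at h4
  rw [h2] at h5
  set A := rr (β * (p : ℂ) ^ (-(σ : ℂ))) - (β * (p : ℂ) ^ (-(σ : ℂ))) ^ 2 / 2 with hA
  set B := rr (β / (p : ℂ)) - (β / (p : ℂ)) ^ 2 / 2 with hB
  set M : ℂ := β ^ 2 / 2 * (((p : ℂ) ^ (-(σ : ℂ))) ^ 2 - (p : ℂ) ^ (1 - (σ : ℂ)) / (p : ℂ) ^ 2) with hM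
  have e1 : del p β σ = A - (p : ℂ) ^ (1 - (σ : ℂ)) * B + M := by
    unfold del
    rw [hA, hB, hM]
    field_simp
    ring
  have h6 : ((p : ℝ) ^ (1 / 2 - σ)) ^ 3 ≤ (p : ℝ) ^ (-(3 / 2) : ℝ) := by
    rw [← Real.rpow_natCast, ← Real.rpow_mul hp0.le]
    apply Real.rpow_le_rpow_of_exponent_le (by linarith)
    push_cast
    linarith
  have h7 : (p : ℝ) ^ (1 - σ) * ((p : ℝ) ^ (-(1 / 2) : ℝ)) ^ 3 ≤ (p : ℝ) ^ (-(3 / 2) : ℝ) := by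
    rw [← Real.rpow_natCast, ← Real.rpow_mul hp0.le, ← Real.rpow_add hp0]
    apply Real.rpow_le_rpow_of_exponent_le (by linarith)
    push_cast
    linarith
  have hMn : ‖M‖ = 1 / 2 * ((p : ℝ) ^ (-σ) - (p : ℝ) ^ (1 - 2 * σ)) := by
    have e2 : ((p : ℂ) ^ (-(σ : ℂ))) ^ 2 - (p : ℂ) ^ (1 - (σ : ℂ)) / (p : ℂ) ^ 2 =
        (((p : ℝ) ^ (-2 * σ) - (p : ℝ) ^ (-1 - σ) : ℝ) : ℂ) := by
      have e3 : (p : ℂ) ^ (-(σ : ℂ)) = (((p : ℝ) ^ (-σ) : ℝ) : ℂ) := by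
        rw [Complex.ofReal_cpow hp0.le]; push_cast; rfl
      have e4 : (p : ℂ) ^ (1 - (σ : ℂ)) = (((p : ℝ) ^ (1 - σ) : ℝ) : ℂ) := by
        rw [Complex.ofReal_cpow hp0.le]; push_cast; rfl
      have e5 : ((p : ℝ) ^ (-σ)) ^ 2 = (p : ℝ) ^ (-2 * σ) := by
        rw [← Real.rpow_natCast, ← Real.rpow_mul hp0.le]; congr 1; push_cast; ring
      have e6 : (p : ℝ) ^ (1 - σ) / (p : ℝ) ^ 2 = (p : ℝ) ^ (-1 - σ) := by
        rw [← Real.rpow_natCast, ← Real.rpow_sub hp0]; congr 1; push_cast; ring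
      rw [e3, e4, ← e5, ← e6]
      push_cast
      ring
    rw [hM, e2, norm_mul, Complex.norm_real, Real.norm_eq_abs, norm_div, norm_pow, hβ]
    have h8 : (p : ℝ) ^ (-2 * σ) ≤ (p : ℝ) ^ (-1 - σ) :=
      Real.rpow_le_rpow_of_exponent_le (by linarith) (by linarith)
    rw [abs_of_nonpos (by linarith)]
    have e7 : (((p : ℝ) ^ (1 / 2 : ℝ))) ^ 2 = p := by
      rw [← Real.rpow_natCast, ← Real.rpow_mul hp0.le]; norm_num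
    have e8 : (p : ℝ) * (p : ℝ) ^ (-1 - σ) = (p : ℝ) ^ (-σ) := by
      nth_rewrite 1 [← Real.rpow_one (p : ℝ)]
      rw [← Real.rpow_add hp0]; congr 1; ring
    have e9 : (p : ℝ) * (p : ℝ) ^ (-2 * σ) = (p : ℝ) ^ (1 - 2 * σ) := by
      nth_rewrite 1 [← Real.rpow_one (p : ℝ)]
      rw [← Real.rpow_add hp0]; congr 1; ring
    rw [e7, ← e8, ← e9]
    simp only [norm_ofNat]
    ring
  calc ‖del p β σ‖ ≤ ‖A‖ + ‖(p : ℂ) ^ (1 - (σ : ℂ)) * B‖ + ‖M‖ := by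
        rw [e1]
        exact (norm_add_le _ _).trans (add_le_add_left (norm_sub_le _ _) _)
    _ ≤ 2 * ((p : ℝ) ^ (1 / 2 - σ)) ^ 3 + (p : ℝ) ^ (1 - σ) * (2 * ((p : ℝ) ^ (-(1 / 2) : ℝ)) ^ 3) + ‖M‖ := by
        rw [norm_mul, h3]
        gcongr
    _ = 2 * ((p : ℝ) ^ (1 / 2 - σ)) ^ 3 + 2 * ((p : ℝ) ^ (1 - σ) * ((p : ℝ) ^ (-(1 / 2) : ℝ)) ^ 3) + ‖M‖ := by ring
    _ ≤ 2 * (p : ℝ) ^ (-(3 / 2) : ℝ) + 2 * (p : ℝ) ^ (-(3 / 2) : ℝ) + ‖M‖ := by gcongr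
    _ = _ := by rw [hMn]; ring

lemma del_differentiable {s : ℂ} (hs : 1 ≤ s.re) : DifferentiableAt ℂ (del p β) s := by
  have hp2 : (2 : ℝ) ≤ p := by exact_mod_cast hp.two_le
  have hpc : (p : ℂ) ≠ 0 := by exact_mod_cast hp.ne_zero
  have d1 : DifferentiableAt ℂ (fun s : ℂ => (p : ℂ) ^ (-s)) s :=
    DifferentiableAt.const_cpow (by fun_prop) (Or.inl hpc)
  have d2 : DifferentiableAt ℂ (fun s : ℂ => (p : ℂ) ^ (1 - s)) s :=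
    DifferentiableAt.const_cpow (by fun_prop) (Or.inl hpc)
  have h1 := norm_a hp hβ s
  have h2 : ‖β * (p : ℂ) ^ (-s)‖ < 1 := by
    rw [h1]
    exact lt_of_le_of_lt (x_rpow_le hp2 (by linarith)) (by norm_num)
  have h3 : 1 - β * (p : ℂ) ^ (-s) ∈ slitPlane := by
    have := Complex.mem_slitPlane_of_norm_lt_one (z := -(β * (p : ℂ) ^ (-s))) (by rwa [norm_neg])
    rwa [← sub_eq_add_neg] at this
  unfold del rr
  have d3 : DifferentiableAt ℂ (fun s : ℂ => β * (p : ℂ) ^ (-s)) s := d1.const_mul _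
  have d4 : DifferentiableAt ℂ (fun s : ℂ => Complex.log (1 - β * (p : ℂ) ^ (-s))) s :=
    (d3.const_sub 1).clog h3
  exact ((d4.neg).sub d3).sub (d2.mul_const _)

end

end Pool.Agent.H438R3.BSD
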