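import Pool.Agent.H438R3.BSD.Core
import Pool.Agent.H438R3.BSD.Abel
import Pool.Agent.H438R3.BSD.Euler

/-! One-sided bounds for the partial Euler products of degree two at the centre. -/

set_option autoImplicit false

open Complex Filter Topology Finset

namespace Pool.Agent.H438R3.BSD

section

variable (good : ℕ → Prop) [DecidablePred good] (α : ℕ → ℂ)

/-- logarithm of the local factor at the centre -/
noncomputable def ell (p : ℕ) : ℝ := if good p then 2 * Real.log ‖1 - α p / p‖ else 0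

/-- the coefficients -/
noncomputable def mm (ε κ : ℝ) (n : ℕ) : ℝ := if n.Prime then ε * (κ / n - ell good α n) else 0

noncomputable def dd (p : ℕ) (s : ℂ) : ℂ :=
  if good p then del p (α p) s + del p (starRingEnd ℂ (α p)) s else 0

noncomputable def LL (p : ℕ) (s : ℂ) : ℂ :=
  if good p then -Complex.log (1 - α p * (p : ℂ) ^ (-s)) +
    -Complex.log (1 - starRingEnd ℂ (α p) * (p : ℂ) ^ (-s)) else 0

variable {good α}
variable (hgood : ∀ p, good p → p.Prime) (hα : ∀ p, good p → ‖α p‖ = (p : ℝ) ^ (1 / 2 : ℝ))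

include hgood hα

lemma slit_at_one {p : ℕ} (hp : good p) : 1 - α p / (p : ℂ) ∈ slitPlane := by
  have h1 := norm_b (hgood p hp) (hα p hp)
  have hp2 : (2 : ℝ) ≤ p := by exact_mod_cast (hgood p hp).two_le
  have h2 : ‖-(α p / (p : ℂ))‖ < 1 := by
    rw [norm_neg, h1]
    exact lt_of_le_of_lt (x_rpow_le hp2 (by norm_num)) (by norm_num)
  have := Complex.mem_slitPlane_of_norm_lt_one h2
  rwa [← sub_eq_add_neg] at this

lemma norm_conj_alpha {p : ℕ} (hp : good p) : ‖starRingEnd ℂ (α p)‖ = (p : ℝ) ^ (1 / 2 : ℝ) := by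
  rw [Complex.norm_conj]; exact hα p hp

lemma dd_eq (p : ℕ) (s : ℂ) : dd good α p s = (ell good α p : ℂ) * (p : ℂ) ^ (1 - s) + LL good α p s := by
  unfold dd ell LL
  split_ifs with hp
  · have hpp := hgood p hp
    have hpc : (p : ℂ) ≠ 0 := by exact_mod_cast hpp.ne_zero
    have e1 : (p : ℂ) ^ (1 - s) = p * (p : ℂ) ^ (-s) := by
      rw [sub_eq_add_neg, Complex.cpow_add _ _ hpc, Complex.cpow_one]
    have hslit := slit_at_one hgood hα hp
    have e2 : ((2 * Real.log ‖1 - α p / p‖ : ℝ) : ℂ) =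
        Complex.log (1 - α p / p) + Complex.log (1 - starRingEnd ℂ (α p) / p) := by
      have e3 : Complex.log (1 - starRingEnd ℂ (α p) / p) = starRingEnd ℂ (Complex.log (1 - α p / p)) := by
        rw [← Complex.log_conj _ (Complex.slitPlane_arg_ne_pi hslit)]
        simp
      rw [e3, Complex.add_conj, Complex.log_re]
    rw [e2]
    unfold del rr
    have e4 : (p : ℂ) ^ (1 - s) * (-Complex.log (1 - α p / p) - α p / p) =
        -(p : ℂ) ^ (1 - s) * Complex.log (1 - α p / p) - α p * (p : ℂ) ^ (-s) := by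
      rw [e1]; field_simp
    have e5 : (p : ℂ) ^ (1 - s) * (-Complex.log (1 - starRingEnd ℂ (α p) / p) - starRingEnd ℂ (α p) / p) =
        -(p : ℂ) ^ (1 - s) * Complex.log (1 - starRingEnd ℂ (α p) / p) -
          starRingEnd ℂ (α p) * (p : ℂ) ^ (-s) := by
      rw [e1]; field_simp
    rw [e4, e5]
    ring
  · simp

lemma dd_le (p : ℕ) (s : ℂ) (hs : 1 ≤ s.re) : ‖dd good α p s‖ ≤ 8 * (p : ℝ) ^ (-s.re) := by
  unfold dd
  split_ifs with hp
  · have h1 := del_le (hgood p hp) (hα p hp) s hs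
    have h2 := del_le (hgood p hp) (norm_conj_alpha hgood hα hp) s hs
    refine (norm_add_le _ _).trans ?_
    linarith
  · simp only [norm_zero]; positivity

lemma ell_le (p : ℕ) (hp0 : 1 ≤ p) : |ell good α p| ≤ 5 * (p : ℝ) ^ (-(1 / 2) : ℝ) := by
  unfold ell
  split_ifs with hp
  · have h1 := norm_b (hgood p hp) (hα p hp)
    have hp2 : (2 : ℝ) ≤ p := by exact_mod_cast (hgood p hp).two_le
    have h3 : ‖α p / (p : ℂ)‖ ≤ 0.71 := by rw [h1]; exact x_rpow_le hp2 (by norm_num)
    have h4 := rr_le h3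
    have e : Complex.log (1 - α p / p) = -(rr (α p / p) + α p / p) := by unfold rr; ring
    have h5 : |Real.log ‖1 - α p / p‖| ≤ ‖Complex.log (1 - α p / p)‖ := by
      rw [← Complex.log_re]; exact Complex.abs_re_le_norm _
    have h6 : ‖Complex.log (1 - α p / p)‖ ≤ 2 * ‖α p / (p : ℂ)‖ ^ 2 + ‖α p / (p : ℂ)‖ := by
      rw [e, norm_neg]
      exact (norm_add_le _ _).trans (by linarith)
    rw [abs_mul, abs_of_pos (by norm_num : (0 : ℝ) < 2), ← h1]
    have h7 : 0 ≤ ‖α p / (p : ℂ)‖ := norm_nonneg _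
    nlinarith
  · simp only [abs_zero]; positivity

lemma mm_le (ε κ : ℝ) (hε : |ε| = 1) (n : ℕ) (hn : 1 ≤ n) :
    |mm good α ε κ n| ≤ (|κ| + 5) * (n : ℝ) ^ (-(1 / 2) : ℝ) := by
  unfold mm
  have hn1 : (1 : ℝ) ≤ n := by exact_mod_cast hn
  split_ifs with hp
  · rw [abs_mul, hε, one_mul]
    have h1 := ell_le hgood hα n hn
    have h2 : |κ / (n : ℝ)| ≤ |κ| * (n : ℝ) ^ (-(1 / 2) : ℝ) := by
      rw [abs_div, abs_of_pos (by linarith : (0 : ℝ) < n), div_eq_mul_inv, ← Real.rpow_neg_one]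
      refine mul_le_mul_of_nonneg_left ?_ (abs_nonneg _)
      exact Real.rpow_le_rpow_of_exponent_le hn1 (by norm_num)
    calc |κ / (n : ℝ) - ell good α n| ≤ |κ / (n : ℝ)| + |ell good α n| := abs_sub _ _
      _ ≤ _ := by linarith
  · simp only [abs_zero]; positivity

omit hgood hα in
lemma sum_rpow_half (n : ℕ) : ∑ k ∈ Icc 1 n, (k : ℝ) ^ (-(1 / 2) : ℝ) ≤ 2 * (n : ℝ) ^ (1 / 2 : ℝ) := by
  induction n with
  | zero => simp
  | succ n ih =>
    rw [Finset.sum_Icc_succ_top (by omega)]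
    have h0 : (0 : ℝ) < ((n + 1 : ℕ) : ℝ) := by positivity
    have e1 : ((n + 1 : ℕ) : ℝ) ^ (-(1 / 2) : ℝ) = (√((n + 1 : ℕ) : ℝ))⁻¹ := by
      rw [Real.rpow_neg h0.le, ← Real.sqrt_eq_rpow]
    rw [e1]
    rw [← Real.sqrt_eq_rpow] at ih ⊢
    set a := √((n : ℕ) : ℝ) with ha
    set b := √((n + 1 : ℕ) : ℝ) with hb
    have hb0 : 0 < b := Real.sqrt_pos.2 h0
    have ha2 : a * a = n := Real.mul_self_sqrt (by positivity)
    have hb2 : b * b = n + 1 := by
      rw [hb, Real.mul_self_sqrt h0.le]; push_cast; ring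
    have hab : a ≤ b := Real.sqrt_le_sqrt (by push_cast; linarith)
    have ha0 : 0 ≤ a := Real.sqrt_nonneg _
    have h3 : b⁻¹ ≤ 2 * b - 2 * a := by
      rw [inv_le_iff_one_le_mul₀ hb0]
      have : (2 * b - 2 * a) * b = 2 * (b * b) - 2 * (a * b) := by ring
      nlinarith [mul_self_nonneg (b - a)]
    linarith

lemma PS_le (ε κ C : ℝ) (hε : |ε| = 1) (n : ℕ) (hn : 1 ≤ n) :
    |PS C (mm good α ε κ) n| ≤ (|C| + 2 * (|κ| + 5)) * (n : ℝ) ^ (1 / 2 : ℝ) := by
  have hn1 : (1 : ℝ) ≤ n := by exact_mod_cast hn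
  have h1 : (1 : ℝ) ≤ (n : ℝ) ^ (1 / 2 : ℝ) := Real.one_le_rpow hn1 (by norm_num)
  unfold PS
  calc |C + ∑ k ∈ Icc 1 n, mm good α ε κ k| ≤ |C| + |∑ k ∈ Icc 1 n, mm good α ε κ k| := abs_add_le _ _
    _ ≤ |C| + ∑ k ∈ Icc 1 n, (|κ| + 5) * (k : ℝ) ^ (-(1 / 2) : ℝ) := by
        refine add_le_add_right ((Finset.abs_sum_le_sum_abs _ _).trans ?_) _
        refine Finset.sum_le_sum fun k hk => ?_
        exact mm_le hgood hα ε κ hε k (mem_Icc.1 hk).1
    _ = |C| * 1 + (|κ| + 5) * ∑ k ∈ Icc 1 n, (k : ℝ) ^ (-(1 / 2) : ℝ) := by rw [Finset.mul_sum, mul_one]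
    _ ≤ |C| * (n : ℝ) ^ (1 / 2 : ℝ) + (|κ| + 5) * (2 * (n : ℝ) ^ (1 / 2 : ℝ)) := by
        have := sum_rpow_half n
        gcongr
    _ = _ := by ring

omit hgood hα in
/-- the indicator function of the primes -/
noncomputable def pr (n : ℕ) : ℂ := if n.Prime then 1 else 0

omit hgood hα in
lemma pr_summable {s : ℂ} (hs : 1 < s.re) : LSeriesSummable pr s := by
  refine LSeriesSummable_of_le_const_mul_rpow hs ⟨1, fun n _ => ?_⟩
  unfold pr
  split_ifs <;> simp

omit hgood hα in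
lemma pr_differentiable : DifferentiableOn ℂ (LSeries pr) {s | 1 < s.re} := by
  intro s hs
  refine (LSeries_analyticOnNhd pr s ?_).differentiableAt.differentiableWithinAt
  have h1 : LSeries.abscissaOfAbsConv pr ≤ ((1 : ℝ) : EReal) :=
    LSeries.abscissaOfAbsConv_le_of_forall_lt_LSeriesSummable fun y hy => pr_summable (by simpa using hy)
  exact lt_of_le_of_lt h1 (by exact_mod_cast hs)

omit hgood hα in
lemma hasSum_primes {f : ℕ → ℝ} {a : ℝ} (h : HasSum (fun p : Nat.Primes => f p) a) :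
    HasSum (fun n : ℕ => if n.Prime then f n else 0) a := by
  have h1 := (hasSum_subtype_iff_indicator (s := {p : ℕ | p.Prime}) (f := f) (a := a)).1 h
  rw [show (fun n : ℕ => if n.Prime then f n else 0) = {p : ℕ | p.Prime}.indicator f from by
    funext n
    rw [Set.indicator_apply]
    rfl]
  exact h1

omit hgood hα in
lemma lam_hasSum {w : ℝ} (hw : 0 < w) :
    HasSum (fun n : ℕ => if n.Prime then (n : ℝ) ^ (-(1 + w)) else 0) (Pool.Agent.H341R2.lam w) :=
  hasSum_primes (f := fun n : ℕ => (n : ℝ) ^ (-(1 + w)))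
    (Pool.Agent.H341R2.summable_prime_rpow (by linarith)).hasSum

omit hgood hα in
lemma pr_eq_lam {w : ℝ} (hw : 0 < w) : LSeries pr (1 + w) = (Pool.Agent.H341R2.lam w : ℂ) := by
  have h1 := (lam_hasSum hw)
  have h2 : HasSum (fun n : ℕ => ((if n.Prime then (n : ℝ) ^ (-(1 + w)) else 0 : ℝ) : ℂ))
      (Pool.Agent.H341R2.lam w : ℂ) := by
    exact_mod_cast (Complex.hasSum_ofReal (f := fun n : ℕ => if n.Prime then (n : ℝ) ^ (-(1 + w)) else 0)).2 h1
  rw [← h2.tsum_eq, LSeries]
  congr 1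
  funext n
  by_cases h0 : n = 0
  · subst h0
    simp [Nat.not_prime_zero]
  · rw [LSeries.term_of_ne_zero h0]
    unfold pr
    split_ifs with hp
    · rw [one_div, ← Complex.cpow_neg, Complex.ofReal_cpow (Nat.cast_nonneg n)]
      push_cast
      rfl
    · simp

lemma dd_summable {s : ℂ} (hs : 1 < s.re) : Summable (fun p => dd good α p s) := by
  refine Summable.of_norm_bounded ((Real.summable_nat_rpow.2 (by linarith : -s.re < -1)).mul_left 8) ?_
  exact fun p => dd_le hgood hα p s hs.le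

lemma DD_differentiable : DifferentiableOn ℂ (fun s => ∑' p, dd good α p s) {s | 1 < s.re} := by
  intro s0 hs0
  have hs0' : 1 < s0.re := hs0
  set t := (1 + s0.re) / 2 with ht
  have ht1 : 1 < t := by rw [ht]; linarith
  have ht2 : t < s0.re := by rw [ht]; linarith
  have hd : DifferentiableOn ℂ (fun s => ∑' p, dd good α p s) {s | t < s.re} := by
    refine differentiableOn_tsum_of_summable_norm (u := fun p : ℕ => 8 * (p : ℝ) ^ (-t))
      ((Real.summable_nat_rpow.2 (by linarith : -t < -1)).mul_left 8) (fun p => ?_) (isOpen_re_gt t)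
      (fun p s hs => ?_)
    · intro s hs
      have hs1 : 1 ≤ s.re := by have : t < s.re := hs; linarith
      unfold dd
      by_cases hp : good p
      · simp only [if_pos hp]
        exact ((del_differentiable (hgood p hp) (hα p hp) hs1).add
          (del_differentiable (hgood p hp) (norm_conj_alpha hgood hα hp) hs1)).differentiableWithinAt
      · simp only [if_neg hp]
        exact differentiableWithinAt_const _
    · have hs' : t < s.re := hs
      refine (dd_le hgood hα p s (by linarith)).trans ?_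
      rcases Nat.eq_zero_or_pos p with h0 | h0
      · rw [h0]
        simp only [Nat.cast_zero]
        rw [Real.zero_rpow (by linarith), Real.zero_rpow (by linarith)]
      · have hp1 : (1 : ℝ) ≤ p := by exact_mod_cast h0
        refine mul_le_mul_of_nonneg_left ?_ (by norm_num)
        exact Real.rpow_le_rpow_of_exponent_le hp1 (by linarith)
  exact (hd.differentiableAt ((isOpen_re_gt t).mem_nhds ht2)).differentiableWithinAt

lemma DD_bound : ∃ K : ℝ, ∀ᶠ w : ℝ in 𝓝[>] 0, ‖∑' p, dd good α p (1 + w)‖ ≤ K := by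
  obtain ⟨C1, hC1⟩ := Pool.Agent.H341R2.lam_bounded
  set K3 : ℝ := ∑' p : Nat.Primes, (p : ℝ) ^ (-(3 / 2) : ℝ) with hK3
  refine ⟨2 * C1 + Real.log 2 + 8 * K3, ?_⟩
  have hC2 : ∀ᶠ w : ℝ in 𝓝[>] 0, |Pool.Agent.H341R2.lam (2 * w) + Real.log (2 * w)| ≤ C1 := by
    have ht : Tendsto (fun w : ℝ => 2 * w) (𝓝[>] 0) (𝓝[>] 0) := by
      rw [tendsto_nhdsWithin_iff]
      constructor
      · have : ContinuousAt (fun w : ℝ => 2 * w) 0 := by fun_prop
        have h2 := this.tendsto
        simp only [mul_zero] at h2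
        exact h2.mono_left nhdsWithin_le_nhds
      · filter_upwards [self_mem_nhdsWithin] with w hw
        have : (0 : ℝ) < w := hw
        show (0 : ℝ) < 2 * w
        linarith
    exact ht.eventually hC1
  filter_upwards [hC1, hC2, self_mem_nhdsWithin] with w h1 h2 h3
  have hw : (0 : ℝ) < w := h3
  have hs1 := lam_hasSum hw
  have hs2 := lam_hasSum (w := 2 * w) (by linarith)
  have hs3 : HasSum (fun n : ℕ => if n.Prime then (n : ℝ) ^ (-(3 / 2) : ℝ) else 0) K3 :=
    hasSum_primes (f := fun n : ℕ => (n : ℝ) ^ (-(3 / 2) : ℝ))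
      (Pool.Agent.H341R2.summable_prime_rpow (by norm_num)).hasSum
  have hs4 := (hs1.sub hs2).add (hs3.mul_left 8)
  have hb : ‖∑' p, dd good α p (1 + w)‖ ≤
      Pool.Agent.H341R2.lam w - Pool.Agent.H341R2.lam (2 * w) + 8 * K3 := by
    refine tsum_of_norm_bounded hs4 (fun p => ?_)
    have e1 : (1 : ℂ) + w = ((1 + w : ℝ) : ℂ) := by push_cast; rfl
    rw [e1]
    unfold dd
    split_ifs with hp hpp hpp
    · have h5 := del_le_real (hgood p hp) (hα p hp) (1 + w) (by linarith)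
      have h6 := del_le_real (hgood p hp) (norm_conj_alpha hgood hα hp) (1 + w) (by linarith)
      have e2 : (1 : ℝ) - 2 * (1 + w) = -(1 + 2 * w) := by ring
      rw [e2] at h5 h6
      refine (norm_add_le _ _).trans ?_
      linarith
    · exact absurd (hgood p hp) hpp
    · rw [norm_zero]
      have hp1 : (1 : ℝ) ≤ p := by exact_mod_cast hpp.one_le
      have h7 : (p : ℝ) ^ (-(1 + 2 * w)) ≤ (p : ℝ) ^ (-(1 + w)) :=
        Real.rpow_le_rpow_of_exponent_le hp1 (by linarith)
      have h8 : 0 ≤ (p : ℝ) ^ (-(3 / 2) : ℝ) := by positivity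
      linarith
    · simp
  refine hb.trans ?_
  rw [Real.log_mul (by norm_num) hw.ne'] at h2
  have h9 := (abs_le.1 h1).2
  have h10 := (abs_le.1 h2).1
  linarith

/-- The abstract theorem. -/
theorem main_abs (ε κ C : ℝ) (hε : ε = 1 ∨ ε = -1)
    (hG : ∀ n, 0 ≤ PS C (mm good α ε κ) n) (F : ℂ → ℂ) (hF : Differentiable ℂ F)
    (hprod : ∀ s : ℂ, 3 / 2 < s.re → HasProd (fun p : ℕ => if good p then
      ((1 - α p * (p : ℂ) ^ (-s)) * (1 - starRingEnd ℂ (α p) * (p : ℂ) ^ (-s)))⁻¹ else 1) (F s))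
    (hreal : ε = -1 → ∀ σ : ℝ, 1 < σ → F σ ≠ 0) :
    (∀ s : ℂ, 1 < s.re → F s ≠ 0) ∧
    ∃ K : ℝ, ∀ᶠ w : ℝ in 𝓝[>] 0, ε * (κ * Real.log w) - K ≤ ε * Real.log ‖F (1 + w)‖ := by
  have hε1 : |ε| = 1 := by rcases hε with h | h <;> rw [h] <;> simp
  have hε2 : (ε : ℂ) * ε = 1 := by
    rcases hε with h | h <;> rw [h] <;> push_cast <;> ring
  have hε3 : ε * ε = 1 := by rcases hε with h | h <;> rw [h] <;> norm_num
  set m := mm good α ε κ with hm
  set Kc : ℝ := |C| + 2 * (|κ| + 5) with hKc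
  have hKc0 : 0 ≤ Kc := by positivity
  have hPS : ∀ n : ℕ, 1 ≤ n → |PS C m n| ≤ Kc * (n : ℝ) ^ (1 / 2 : ℝ) :=
    fun n hn => PS_le hgood hα ε κ C hε1 n hn
  set W : ℂ → ℂ := fun s => (∑' p, dd good α p s) - κ * LSeries pr s - ε * (EE C m s + C) with hW
  have hWd : DifferentiableOn ℂ W {s | 1 < s.re} := by
    apply DifferentiableOn.sub
    · exact (DD_differentiable hgood hα).sub (pr_differentiable.const_mul _)
    · exact ((EE_differentiable hKc0 hPS).add_const _).const_mul _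
  have hrel : ∀ s : ℂ, 3 / 2 < s.re →
      F s = exp (W s + ε * (s - 1) * LSeries (fun n => (PS C m n : ℂ)) s) := by
    intro s hs
    have hs1 : 1 < s.re := by linarith
    -- the sum over the terms
    have hL : Summable (fun n : ℕ => (ell good α n : ℂ) * (n : ℂ) ^ (1 - s)) := by
      refine Summable.of_norm_bounded
        ((Real.summable_nat_rpow.2 (by linarith : 1 / 2 - s.re < -1)).mul_left 5) (fun n => ?_)
      rcases Nat.eq_zero_or_pos n with h0 | h0
      · rw [h0]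
        have : ¬ good 0 := fun h => Nat.not_prime_zero (hgood 0 h)
        simp only [ell, if_neg this, Complex.ofReal_zero, zero_mul, norm_zero]
        positivity
      · have hn0 : (0 : ℝ) < n := by exact_mod_cast h0
        rw [norm_mul, Complex.norm_real, Real.norm_eq_abs, Complex.norm_natCast_cpow_of_pos h0]
        have h1 := ell_le hgood hα n h0
        calc |ell good α n| * (n : ℝ) ^ (1 - s).re ≤
            (5 * (n : ℝ) ^ (-(1 / 2) : ℝ)) * (n : ℝ) ^ (1 - s).re :=
              mul_le_mul_of_nonneg_right h1 (by positivity)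
          _ = 5 * ((n : ℝ) ^ (-(1 / 2) : ℝ) * (n : ℝ) ^ (1 - s).re) := by ring
          _ = 5 * (n : ℝ) ^ (1 / 2 - s.re) := by
              rw [← Real.rpow_add hn0]; congr 2; simp; ring
    have hD := dd_summable hgood hα hs1
    have hLL : HasSum (fun p => LL good α p s)
        ((∑' p, dd good α p s) - ∑' n : ℕ, (ell good α n : ℂ) * (n : ℂ) ^ (1 - s)) := by
      have h1 := hD.hasSum.sub hL.hasSum
      have e : (fun p => LL good α p s) = fun p => dd good α p s - (ell good α p : ℂ) * (p : ℂ) ^ (1 - s) := by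
        funext p
        rw [dd_eq hgood hα]
        ring
      rw [e]
      exact h1
    have hFe : F s = exp ((∑' p, dd good α p s) - ∑' n : ℕ, (ell good α n : ℂ) * (n : ℂ) ^ (1 - s)) := by
      refine (hprod s hs).unique ?_
      have h2 := hLL.cexp
      convert h2 using 1
      funext p
      simp only [Function.comp_apply]
      unfold LL
      split_ifs with hp
      · have hpp := hgood p hp
        have hp2 : (2 : ℝ) ≤ p := by exact_mod_cast hpp.two_le
        have hne : ∀ β : ℂ, ‖β‖ = (p : ℝ) ^ (1 / 2 : ℝ) → 1 - β * (p : ℂ) ^ (-s) ≠ 0 := by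
          intro β hβ h0
          have h3 := norm_a hpp hβ s
          have h4 : ‖β * (p : ℂ) ^ (-s)‖ < 1 := by
            rw [h3]; exact lt_of_le_of_lt (x_rpow_le hp2 (by linarith)) (by norm_num)
          have h5 : β * (p : ℂ) ^ (-s) = 1 := (sub_eq_zero.1 h0).symm
          rw [h5, norm_one] at h4
          exact lt_irrefl _ h4
        rw [Complex.exp_add, Complex.exp_neg, Complex.exp_neg, Complex.exp_log (hne _ (hα p hp)),
          Complex.exp_log (hne _ (norm_conj_alpha hgood hα hp)), mul_inv]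
      · rw [Complex.exp_zero]
    have hP : HasSum (fun n : ℕ => (m (n + 1) : ℂ) * ((n + 1 : ℕ) : ℂ) ^ (1 - s))
        (ε * (κ * LSeries pr s - ∑' n : ℕ, (ell good α n : ℂ) * (n : ℂ) ^ (1 - s))) := by
      have h1 : HasSum (LSeries.term pr s) (LSeries pr s) := (pr_summable hs1).hasSum
      have h2 := ((h1.mul_left (κ : ℂ)).sub hL.hasSum).mul_left (ε : ℂ)
      have e : (fun n : ℕ => (ε : ℂ) * (κ * LSeries.term pr s n - (ell good α n : ℂ) * (n : ℂ) ^ (1 - s))) =
          fun n : ℕ => (m n : ℂ) * ((n : ℕ) : ℂ) ^ (1 - s) := by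
        funext n
        by_cases hp : n.Prime
        · have hnc : (n : ℂ) ≠ 0 := by exact_mod_cast hp.ne_zero
          rw [LSeries.term_of_ne_zero hp.ne_zero, hm]
          unfold mm pr
          rw [if_pos hp, if_pos hp, sub_eq_add_neg 1 s, Complex.cpow_add _ _ hnc, Complex.cpow_one,
            Complex.cpow_neg]
          have hns : (n : ℂ) ^ s ≠ 0 := by
            rw [Complex.cpow_ne_zero_iff]; exact Or.inl hnc
          push_cast
          field_simp
        · have hng : ¬ good n := fun h => hp (hgood n h)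
          rw [hm]
          unfold mm ell LSeries.term pr
          simp [hp, hng]
      rw [e] at h2
      have h3 := (hasSum_nat_add_iff' (f := fun n : ℕ => (m n : ℂ) * ((n : ℕ) : ℂ) ^ (1 - s)) 1).2 h2
      have h4 : m 0 = 0 := by rw [hm]; unfold mm; simp [Nat.not_prime_zero]
      simp only [sum_range_one, h4, Complex.ofReal_zero, zero_mul, sub_zero] at h3
      exact h3
    have hab := abel_rel hKc0 hPS s hs _ hP
    rw [hFe]
    congr 1
    have e6 : (ε : ℂ) * (s - 1) * LSeries (fun n => (PS C m n : ℂ)) s =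
        ε * (EE C m s + C + ε * (κ * LSeries pr s - ∑' n : ℕ, (ell good α n : ℂ) * (n : ℂ) ^ (1 - s))) := by
      rw [← hab]; ring
    rw [e6, hW]
    simp only
    linear_combination (-(κ * LSeries pr s - ∑' n : ℕ, (ell good α n : ℂ) * (n : ℂ) ^ (1 - s))) * hε2
  obtain ⟨hsum, hall⟩ := core (PS C m) hG ε hε F W hF hWd (fun s hs => PS_summable hPS s hs) hrel hreal
  refine ⟨fun s hs => by rw [hall s hs]; exact Complex.exp_ne_zero _, ?_⟩
  obtain ⟨K1, hK1⟩ := DD_bound hgood hα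
  obtain ⟨C1, hC1⟩ := Pool.Agent.H341R2.lam_bounded
  refine ⟨K1 + |κ| * C1 + (2 * Kc * K32 + |C|), ?_⟩
  have hw1 : ∀ᶠ w : ℝ in 𝓝[>] 0, w ≤ 1 := by
    have : Set.Iic (1 : ℝ) ∈ 𝓝 (0 : ℝ) := Iic_mem_nhds one_pos
    exact mem_nhdsWithin_of_mem_nhds this
  filter_upwards [hK1, hC1, self_mem_nhdsWithin, hw1] with w h1 h2 h3 h4
  have hw : (0 : ℝ) < w := h3
  have hre : (1 : ℝ) < ((1 : ℂ) + w).re := by simp [hw]
  have h5 := hall (1 + w) hre
  have h6 : Real.log ‖F (1 + w)‖ = (W (1 + w)).re +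
      (ε * ((1 + w : ℂ) - 1) * LSeries (fun n => (PS C m n : ℂ)) (1 + w)).re := by
    rw [h5, Complex.norm_exp, Real.log_exp, add_re]
  have h7 : (ε * ((1 + w : ℂ) - 1) * LSeries (fun n => (PS C m n : ℂ)) (1 + w)).re =
      ε * (w * (LSeries (fun n => (PS C m n : ℂ)) ((1 + w : ℝ) : ℂ)).re) := by
    have e1 : (ε : ℂ) * ((1 + w : ℂ) - 1) = ((ε * w : ℝ) : ℂ) := by push_cast; ring
    have e2 : ((1 : ℂ) + w) = ((1 + w : ℝ) : ℂ) := by push_cast; rfl
    rw [e1, Complex.re_ofReal_mul, e2]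
    ring
  have h8 := re_LSeries_nonneg (PS C m) hG (1 + w)
  have h9 : 0 ≤ w * (LSeries (fun n => (PS C m n : ℂ)) ((1 + w : ℝ) : ℂ)).re := mul_nonneg hw.le h8
  have h10 : ε * Real.log ‖F (1 + w)‖ = ε * (W (1 + w)).re +
      w * (LSeries (fun n => (PS C m n : ℂ)) ((1 + w : ℝ) : ℂ)).re := by
    rw [h6, h7, mul_add, ← mul_assoc ε ε, hε3, one_mul]
  rw [h10]
  have h11 : (W (1 + w)).re = (∑' p, dd good α p (1 + w)).re - κ * Pool.Agent.H341R2.lam w -
      ε * ((EE C m (1 + w)).re + C) := by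
    rw [hW]
    simp only
    rw [pr_eq_lam hw]
    simp only [sub_re, re_ofReal_mul, add_re, ofReal_re]
  have h12 : |(∑' p, dd good α p (1 + w)).re| ≤ K1 := (Complex.abs_re_le_norm _).trans h1
  have h13 : |(EE C m (1 + w)).re| ≤ 2 * Kc * K32 := by
    refine (Complex.abs_re_le_norm _).trans ((EE_bound hKc0 hPS (1 + w) hre.le).2.trans ?_)
    have e3 : ‖(1 : ℂ) + w - 1‖ = w := by
      rw [add_sub_cancel_left, Complex.norm_real, Real.norm_eq_abs, abs_of_pos hw]
    have e4 : ‖(1 : ℂ) + w‖ = 1 + w := by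
      have : ((1 : ℂ) + w) = ((1 + w : ℝ) : ℂ) := by push_cast; rfl
      rw [this, Complex.norm_real, Real.norm_eq_abs, abs_of_pos (by linarith)]
    rw [e3, e4]
    have hK32 : 0 ≤ K32 := tsum_nonneg fun n => by positivity
    have e5 : w * (1 + w) ≤ 2 := by nlinarith
    calc w * (1 + w) * Kc * K32 ≤ 2 * Kc * K32 := by gcongr
      _ = _ := rfl
  rw [h11]
  have h14 : |κ * (Pool.Agent.H341R2.lam w + Real.log w)| ≤ |κ| * C1 := by
    rw [abs_mul]; exact mul_le_mul_of_nonneg_left h2 (abs_nonneg _)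
  have h15 := abs_le.1 h12
  have h16 := abs_le.1 h13
  have h17 := abs_le.1 h14
  have h18 := abs_le.1 (le_refl |C|)
  rcases hε with h | h
  · rw [h]
    nlinarith [h15.1, h16.1, h16.2, h17.1, h17.2, h18.1, h18.2]
  · rw [h]
    nlinarith [h15.1, h15.2, h16.1, h16.2, h17.1, h17.2, h18.1, h18.2]

end

end Pool.Agent.H438R3.BSD
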