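import Pool.Agent.H438R3.BSD.Main
import Pool.Agent.H438R3.BSD.Prod2

/-! One-sided bounds for logarithmic averages of the products `∏_{p ≤ x} N_p / p`. -/

set_option autoImplicit false

open Complex Filter Topology Finset

namespace Pool.Agent.H438R3.BSD

/-- the logarithmic average of `log EP(n) - κ log log n` over `n ≤ x` -/
noncomputable def LA (a b : ℤ) (κ : ℝ) (x : ℕ) : ℝ :=
  (∑ n ∈ Finset.Icc 2 x, (Real.log (EP a b n) - κ * Real.log (Real.log n)) / n) / Real.log x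

lemma log_le_sum (n : ℕ) (hn : 1 ≤ n) : Real.log (n + 1) ≤ 1 + ∑ k ∈ Finset.Icc 2 n, (1 : ℝ) / k := by
  induction n, hn using Nat.le_induction with
  | base =>
    have h := Real.log_two_lt_d9
    norm_num
    norm_num at h
    linarith
  | succ n hn ih =>
    rw [Finset.sum_Icc_succ_top (by omega)]
    have hn0 : (0 : ℝ) < (n : ℝ) + 1 := by positivity
    have h1 : Real.log (((n + 1 : ℕ) : ℝ) + 1) ≤ Real.log (n + 1) + 1 / ((n + 1 : ℕ) : ℝ) := by
      have e : (((n + 1 : ℕ) : ℝ) + 1) = ((n : ℝ) + 1) * (1 + 1 / ((n : ℝ) + 1)) := by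
        push_cast; field_simp
      rw [e, Real.log_mul hn0.ne' (by positivity)]
      have h2 := Real.log_le_sub_one_of_pos (by positivity : (0 : ℝ) < 1 + 1 / ((n : ℝ) + 1))
      push_cast
      linarith
    linarith

lemma Icc_split {n : ℕ} (hn : 1 ≤ n) : Finset.Icc 1 n = insert 1 (Finset.Icc 2 n) := by
  ext k
  simp only [Finset.mem_Icc, Finset.mem_insert]
  omega

lemma AS_lin (C : ℝ) (m : ℕ → ℝ) (n : ℕ) :
    AS C m n = C * ∑ k ∈ Finset.Icc 1 n, (1 : ℝ) / k + AS 0 m n := by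
  unfold AS
  rw [PS, PS, zero_add, zero_add, Finset.mul_sum, ← Finset.sum_add_distrib]
  refine Finset.sum_congr rfl fun k _ => ?_
  unfold PS
  ring

open Classical in
lemma exists_const2 (a b : ℤ) (ε κ : ℝ) (hε : ε = 1 ∨ ε = -1) (C0 : ℝ)
    (h : ∀ᶠ n : ℕ in atTop, ε * (∑ k ∈ Finset.Icc 2 n,
      (Real.log (EP a b k) - κ * Real.log (Real.log k)) / k) ≤ C0 * Real.log n) :
    ∃ C : ℝ, ∀ n, 0 ≤ AS C (mm (Good a b) (al a b) ε κ) n := by
  have hε1 : |ε| = 1 := by rcases hε with h | h <;> rw [h] <;> simp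
  obtain ⟨C1, hC1, hup⟩ := Pool.Agent.Helper256.KM.mertens_upper
  obtain ⟨C2, hC2, hlow⟩ := Pool.Agent.Helper256.KM.mertens_lower
  obtain ⟨n0, hn0⟩ := eventually_atTop.1 h
  set n1 := max n0 2 with hn1
  have hg : ∀ p, Good a b p → p.Prime := fun p hp => hp.1
  have ha : ∀ p, Good a b p → ‖al a b p‖ = (p : ℝ) ^ (1 / 2 : ℝ) := fun p hp => al_norm hp
  set Kc : ℝ := |(0 : ℝ)| + 2 * (|κ| + 5) with hKc
  have hKc0 : 0 ≤ Kc := by positivity
  set K' := |κ| * (C1 + C2) with hK'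
  have hK'0 : 0 ≤ K' := by positivity
  set C : ℝ := |C0| + K' + 2 * Kc * (n1 : ℝ) ^ (1 / 2 : ℝ) with hC
  have hpos2 : 0 ≤ 2 * Kc * (n1 : ℝ) ^ (1 / 2 : ℝ) := by positivity
  have hpos3 : 0 ≤ |C0| := abs_nonneg _
  have hCpos : 0 ≤ C := by positivity
  refine ⟨C, fun n => ?_⟩
  set m := mm (Good a b) (al a b) ε κ with hm
  rcases Nat.eq_zero_or_pos n with h0 | h0
  · rw [h0]
    unfold AS
    rw [PS_zero]
  rcases Nat.lt_or_ge n n1 with hlt | hge
  · rw [AS_lin]
    have h1 := AS_le hKc0 (fun k hk => PS_le hg ha ε κ 0 hε1 k hk) n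
    have h2 : (n : ℝ) ^ (1 / 2 : ℝ) ≤ (n1 : ℝ) ^ (1 / 2 : ℝ) :=
      Real.rpow_le_rpow (by positivity) (by exact_mod_cast hlt.le) (by norm_num)
    have h3 : |AS 0 m n| ≤ 2 * Kc * (n1 : ℝ) ^ (1 / 2 : ℝ) :=
      h1.trans (mul_le_mul_of_nonneg_left h2 (by positivity))
    have h4 := (abs_le.1 h3).1
    have h5 : 1 ≤ ∑ k ∈ Finset.Icc 1 n, (1 : ℝ) / k := by
      rw [Icc_split h0, Finset.sum_insert (by simp)]
      have : 0 ≤ ∑ k ∈ Finset.Icc 2 n, (1 : ℝ) / k := Finset.sum_nonneg fun k _ => by positivity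
      simp only [Nat.cast_one, div_one]
      linarith
    have h6 : C * 1 ≤ C * ∑ k ∈ Finset.Icc 1 n, (1 : ℝ) / k := mul_le_mul_of_nonneg_left h5 hCpos
    linarith
  · have hn2 : 2 ≤ n := le_trans (le_max_right _ _) hge
    have hnr : (2 : ℝ) ≤ n := by exact_mod_cast hn2
    have h3 := hn0 n ((le_max_left _ _).trans hge)
    have hAS : AS C m n = C + ∑ k ∈ Finset.Icc 2 n, PS C m k / k := by
      unfold AS
      rw [PS, zero_add, Icc_split h0, Finset.sum_insert (by simp)]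
      congr 1
      rw [Nat.cast_one, div_one, hm]
      unfold PS mm
      simp [Nat.not_prime_one]
    have hterm : ∀ k ∈ Finset.Icc 2 n, (C - K') * (1 / (k : ℝ)) -
        ε * ((Real.log (EP a b k) - κ * Real.log (Real.log k)) / k) ≤ PS C m k / k := by
      intro k hk
      have hk2 : 2 ≤ k := (Finset.mem_Icc.1 hk).1
      have hkr : (2 : ℝ) ≤ k := by exact_mod_cast hk2
      have hk0 : (0 : ℝ) < k := by linarith
      have h1 := hup k hkr
      have h2 := hlow k hkr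
      rw [Nat.floor_natCast] at h1 h2
      rw [hm, PS_eq]
      set S : ℝ := ∑ p ∈ (Finset.Icc 1 k).filter Nat.Prime, (1 : ℝ) / p with hS
      set ll := Real.log (Real.log (k : ℝ)) with hll
      have h4 : |ε * (κ * (S - ll))| ≤ K' := by
        rw [abs_mul, hε1, one_mul, abs_mul, hK']
        refine mul_le_mul_of_nonneg_left ?_ (abs_nonneg _)
        rw [abs_le]
        constructor <;> linarith
      have h5 := (abs_le.1 h4).1
      have e1 : (C - K') * (1 / (k : ℝ)) - ε * ((Real.log (EP a b k) - κ * ll) / k) =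
          (C - K' - ε * (Real.log (EP a b k) - κ * ll)) / k := by
        field_simp
      rw [e1]
      apply div_le_div_of_nonneg_right _ hk0.le
      have e2 : C + ε * (κ * S - Real.log (EP a b k)) =
          C + ε * (κ * (S - ll)) - ε * (Real.log (EP a b k) - κ * ll) := by ring
      rw [e2]
      linarith
    have hsum := Finset.sum_le_sum hterm
    rw [Finset.sum_sub_distrib, ← Finset.mul_sum, ← Finset.mul_sum] at hsum
    rw [hAS]
    have h7 := log_le_sum n h0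
    have h8 : Real.log n ≤ Real.log (n + 1) := Real.log_le_log (by linarith) (by linarith)
    have h9 : 0 ≤ Real.log n := Real.log_nonneg (by linarith)
    have h10 : C0 * Real.log n ≤ |C0| * Real.log n := mul_le_mul_of_nonneg_right (le_abs_self _) h9
    have hCK : 0 ≤ C - K' := by rw [hC]; linarith
    have h11 : (C - K') * (Real.log n - 1) ≤ (C - K') * ∑ k ∈ Finset.Icc 2 n, (1 : ℝ) / k :=
      mul_le_mul_of_nonneg_left (by linarith) hCK
    have h12 : |C0| * Real.log n ≤ (C - K') * Real.log n :=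
      mul_le_mul_of_nonneg_right (by rw [hC]; linarith) h9
    nlinarith

open Classical in
/-- One-sided bounds for averages: `ε = 1` upper bounds, `ε = -1` lower bounds. -/
theorem one_side2 {a b : ℤ} {F : ℂ → ℂ} (hF : IsL a b F) (ε κ : ℝ) (hε : ε = 1 ∨ ε = -1) (C0 : ℝ)
    (h : ∀ᶠ n : ℕ in atTop, ε * (∑ k ∈ Finset.Icc 2 n,
      (Real.log (EP a b k) - κ * Real.log (Real.log k)) / k) ≤ C0 * Real.log n)
    (hreal : ε = -1 → ∀ σ : ℝ, 1 < σ → F σ ≠ 0) (m : ℕ) (hm : analyticOrderAt F 1 = m) :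
    (∀ s : ℂ, 1 < s.re → F s ≠ 0) ∧ ε * (m - κ) ≤ 0 := by
  obtain ⟨C, hC⟩ := exists_const2 a b ε κ hε C0 h
  have hg : ∀ p, Good a b p → p.Prime := fun p hp => hp.1
  have ha : ∀ p, Good a b p → ‖al a b p‖ = (p : ℝ) ^ (1 / 2 : ℝ) := fun p hp => al_norm hp
  obtain ⟨h1, K, hK⟩ := main_abs2 hg ha ε κ C hε hC F hF.1 (prod_of_isL hF) hreal
  refine ⟨h1, ?_⟩
  have han : AnalyticAt ℂ F 1 := hF.1.analyticAt 1
  have hmer : meromorphicOrderAt F 1 = ((m : ℤ) : WithTop ℤ) := by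
    rw [han.meromorphicOrderAt_eq, hm]
    rfl
  obtain ⟨C3, hC3⟩ := Pool.Agent.H341R2.log_norm_meromorphic han.meromorphicAt hmer
  by_contra hcon
  push Not at hcon
  have hbot : Tendsto (fun w : ℝ => Real.log w) (𝓝[>] 0) atBot := Real.tendsto_log_nhdsGT_zero
  have hev : ∀ᶠ w : ℝ in 𝓝[>] 0, ε * (m - κ) * Real.log w < -(K + |C3|) := by
    have := hbot.const_mul_atBot hcon
    exact this.eventually (eventually_lt_atBot _)
  obtain ⟨w, hw1, hw2, hw3⟩ := (hK.and (hC3.and hev)).exists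
  have h5 := hw2.2
  have h6 := le_abs_self C3
  push_cast at h5
  have h7 := abs_le.1 h5
  have e2 : ε * (m - κ) * Real.log w = ε * (m * Real.log w) - ε * (κ * Real.log w) := by ring
  rw [e2] at hw3
  rcases hε with h | h
  · rw [h] at hw1 hw3
    linarith [h7.1, h7.2]
  · rw [h] at hw1 hw3
    linarith [h7.1, h7.2]

/-- The final theorem. -/
theorem main {a b : ℤ} {F : ℂ → ℂ} (hF : IsL a b F) : ∃ m : ℕ, analyticOrderAt F 1 = m ∧
    (∀ κ : ℝ, (κ < m ∨ ∃ ρ : ℂ, 1 < ρ.re ∧ F ρ = 0) → ∀ C : ℝ,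
      (∃ᶠ x : ℕ in atTop, C < LA a b κ x) ∧
      ∃ᶠ x : ℕ in atTop, C * Real.log x ^ κ < EP a b x) ∧
    ((∀ σ : ℝ, 1 < σ → F σ ≠ 0) →
      ∀ κ : ℝ, ((m : ℝ) < κ ∨ ∃ ρ : ℂ, 1 < ρ.re ∧ F ρ = 0) → ∀ C : ℝ, 0 < C →
      (∃ᶠ x : ℕ in atTop, LA a b κ x < -C) ∧
      ∃ᶠ x : ℕ in atTop, EP a b x < C * Real.log x ^ κ) := by
  obtain ⟨m, hm⟩ := order_finite hF
  have hlog : ∀ᶠ x : ℕ in atTop, (1 : ℝ) < Real.log x :=
    (Real.tendsto_log_atTop.comp tendsto_natCast_atTop_atTop).eventually_gt_atTop _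
  refine ⟨m, hm, fun κ hκ C => ⟨?_, ?_⟩, fun hreal κ hκ C hC => ⟨?_, ?_⟩⟩
  · by_contra hcon
    rw [Filter.not_frequently] at hcon
    obtain ⟨h1, h2⟩ := one_side2 hF 1 κ (Or.inl rfl) C (by
      filter_upwards [hcon, hlog] with n hn1 hn2
      push Not at hn1
      unfold LA at hn1
      rw [div_le_iff₀ (by linarith)] at hn1
      rw [one_mul]
      exact hn1) (by norm_num) m hm
    rcases hκ with h3 | ⟨ρ, h3, h4⟩
    · linarith
    · exact h1 ρ h3 h4
  · by_contra hcon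
    rw [Filter.not_frequently] at hcon
    have hCpos : 0 < C := by
      obtain ⟨n, hn1, hn2⟩ := (hcon.and hlog).exists
      push Not at hn1
      have h1 := EP_pos a b n
      have h2 : 0 < Real.log (n : ℝ) ^ κ := Real.rpow_pos_of_pos (by linarith) _
      by_contra hneg
      push Not at hneg
      have := mul_nonpos_of_nonpos_of_nonneg hneg h2.le
      linarith
    obtain ⟨h1, h2⟩ := one_side hF 1 κ (Or.inl rfl) (Real.log C) (by
      filter_upwards [hcon, hlog] with n hn1 hn2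
      push Not at hn1
      have h1 := EP_pos a b n
      have h2 : 0 < Real.log (n : ℝ) ^ κ := Real.rpow_pos_of_pos (by linarith) _
      have h3 := Real.log_le_log h1 hn1
      rw [Real.log_mul hCpos.ne' h2.ne', Real.log_rpow (by linarith)] at h3
      linarith) (by norm_num) m hm
    rcases hκ with h3 | ⟨ρ, h3, h4⟩
    · linarith
    · exact h1 ρ h3 h4
  · by_contra hcon
    rw [Filter.not_frequently] at hcon
    obtain ⟨h1, h2⟩ := one_side2 hF (-1) κ (Or.inr rfl) C (by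
      filter_upwards [hcon, hlog] with n hn1 hn2
      push Not at hn1
      unfold LA at hn1
      rw [le_div_iff₀ (by linarith)] at hn1
      linarith) (fun _ => hreal) m hm
    rcases hκ with h3 | ⟨ρ, h3, h4⟩
    · linarith
    · exact h1 ρ h3 h4
  · by_contra hcon
    rw [Filter.not_frequently] at hcon
    obtain ⟨h1, h2⟩ := one_side hF (-1) κ (Or.inr rfl) (-Real.log C) (by
      filter_upwards [hcon, hlog] with n hn1 hn2
      push Not at hn1
      have h1 := EP_pos a b n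
      have h2 : 0 < Real.log (n : ℝ) ^ κ := Real.rpow_pos_of_pos (by linarith) _
      have h3 := Real.log_le_log (by positivity) hn1
      rw [Real.log_mul hC.ne' h2.ne', Real.log_rpow (by linarith)] at h3
      linarith) (fun _ => hreal) m hm
    rcases hκ with h3 | ⟨ρ, h3, h4⟩
    · linarith
    · exact h1 ρ h3 h4

end Pool.Agent.H438R3.BSD
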