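import Pool.Agent.H438R3.BSD.Core2
import Pool.Agent.H438R3.BSD.Prod
import Pool.Agent.H438R3.BSD.Main2

/-! One-sided bounds for the partial Euler products at the centre, for general local factors of
weight one. -/

set_option autoImplicit false

open Complex Filter Topology Finset

namespace Pool.Agent.H438R3.BSD.Gen

open Pool.Agent.H438R3.BSD

/-- `LL p s + ell p * p ^ (1 - s)` -/
noncomputable def dd (LL : ℕ → ℂ → ℂ) (ell : ℕ → ℝ) (p : ℕ) (s : ℂ) : ℂ :=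
  LL p s + (ell p : ℂ) * (p : ℂ) ^ (1 - s)

/-- Local data of weight one: `LL p s` is the logarithm of the Euler factor and `ell p` is minus its
value at `s = 1`. -/
structure Loc (LL : ℕ → ℂ → ℂ) (ell : ℕ → ℝ) (A : ℝ) : Prop where
  pos : 0 ≤ A
  zeroL : ∀ n s, ¬ n.Prime → LL n s = 0
  zeroE : ∀ n, ¬ n.Prime → ell n = 0
  ell_le : ∀ n : ℕ, 1 ≤ n → |ell n| ≤ A * (n : ℝ) ^ (-(1 / 2) : ℝ)
  dd_le : ∀ (n : ℕ) (s : ℂ), n.Prime → 1 ≤ s.re → ‖dd LL ell n s‖ ≤ A * (n : ℝ) ^ (-s.re)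
  dd_real : ∀ (n : ℕ) (w : ℝ), n.Prime → 0 < w → ‖dd LL ell n (1 + w)‖ ≤
    A * ((n : ℝ) ^ (-(1 + w)) - (n : ℝ) ^ (-(1 + 2 * w)) + (n : ℝ) ^ (-(3 / 2) : ℝ))
  diff : ∀ n : ℕ, DifferentiableOn ℂ (LL n) {s | 1 < s.re}

variable {LL : ℕ → ℂ → ℂ} {ell : ℕ → ℝ} {A : ℝ}

/-- the coefficients -/
noncomputable def mm (ell : ℕ → ℝ) (ε κ : ℝ) (n : ℕ) : ℝ :=
  if n.Prime then ε * (κ / n - ell n) else 0

lemma dd_zero (h : Loc LL ell A) {n : ℕ} (hn : ¬ n.Prime) (s : ℂ) : dd LL ell n s = 0 := by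
  unfold dd
  rw [h.zeroL n s hn, h.zeroE n hn]
  simp

lemma dd_le (h : Loc LL ell A) (n : ℕ) (s : ℂ) (hs : 1 ≤ s.re) :
    ‖dd LL ell n s‖ ≤ A * (n : ℝ) ^ (-s.re) := by
  have := h.pos
  by_cases hn : n.Prime
  · exact h.dd_le n s hn hs
  · rw [dd_zero h hn, norm_zero]; positivity

lemma mm_le (h : Loc LL ell A) (ε κ : ℝ) (hε : |ε| = 1) (n : ℕ) (hn : 1 ≤ n) :
    |mm ell ε κ n| ≤ (|κ| + A) * (n : ℝ) ^ (-(1 / 2) : ℝ) := by
  have := h.pos
  unfold mm
  have hn1 : (1 : ℝ) ≤ n := by exact_mod_cast hn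
  split_ifs with hp
  · rw [abs_mul, hε, one_mul]
    have h1 := h.ell_le n hn
    have h2 : |κ / (n : ℝ)| ≤ |κ| * (n : ℝ) ^ (-(1 / 2) : ℝ) := by
      rw [abs_div, abs_of_pos (by linarith : (0 : ℝ) < n), div_eq_mul_inv, ← Real.rpow_neg_one]
      refine mul_le_mul_of_nonneg_left ?_ (abs_nonneg _)
      exact Real.rpow_le_rpow_of_exponent_le hn1 (by norm_num)
    calc |κ / (n : ℝ) - ell n| ≤ |κ / (n : ℝ)| + |ell n| := abs_sub _ _
      _ ≤ _ := by linarith
  · simp only [abs_zero]; positivity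

lemma PS_le (h : Loc LL ell A) (ε κ C : ℝ) (hε : |ε| = 1) (n : ℕ) (hn : 1 ≤ n) :
    |PS C (mm ell ε κ) n| ≤ (|C| + 2 * (|κ| + A)) * (n : ℝ) ^ (1 / 2 : ℝ) := by
  have := h.pos
  have hn1 : (1 : ℝ) ≤ n := by exact_mod_cast hn
  have h1 : (1 : ℝ) ≤ (n : ℝ) ^ (1 / 2 : ℝ) := Real.one_le_rpow hn1 (by norm_num)
  unfold PS
  calc |C + ∑ k ∈ Icc 1 n, mm ell ε κ k| ≤ |C| + |∑ k ∈ Icc 1 n, mm ell ε κ k| := abs_add_le _ _
    _ ≤ |C| + ∑ k ∈ Icc 1 n, (|κ| + A) * (k : ℝ) ^ (-(1 / 2) : ℝ) := by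
        refine add_le_add_right ((Finset.abs_sum_le_sum_abs _ _).trans ?_) _
        refine Finset.sum_le_sum fun k hk => ?_
        exact mm_le h ε κ hε k (mem_Icc.1 hk).1
    _ = |C| * 1 + (|κ| + A) * ∑ k ∈ Icc 1 n, (k : ℝ) ^ (-(1 / 2) : ℝ) := by rw [Finset.mul_sum, mul_one]
    _ ≤ |C| * (n : ℝ) ^ (1 / 2 : ℝ) + (|κ| + A) * (2 * (n : ℝ) ^ (1 / 2 : ℝ)) := by
        have := sum_rpow_half n
        gcongr
    _ = _ := by ring

lemma dd_summable (h : Loc LL ell A) {s : ℂ} (hs : 1 < s.re) : Summable (fun p => dd LL ell p s) := by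
  refine Summable.of_norm_bounded ((Real.summable_nat_rpow.2 (by linarith : -s.re < -1)).mul_left A) ?_
  exact fun p => dd_le h p s hs.le

lemma DD_differentiable (h : Loc LL ell A) :
    DifferentiableOn ℂ (fun s => ∑' p, dd LL ell p s) {s | 1 < s.re} := by
  intro s0 hs0
  have hs0' : 1 < s0.re := hs0
  set t := (1 + s0.re) / 2 with ht
  have ht1 : 1 < t := by rw [ht]; linarith
  have ht2 : t < s0.re := by rw [ht]; linarith
  have hd : DifferentiableOn ℂ (fun s => ∑' p, dd LL ell p s) {s | t < s.re} := by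
    refine differentiableOn_tsum_of_summable_norm (u := fun p : ℕ => A * (p : ℝ) ^ (-t))
      ((Real.summable_nat_rpow.2 (by linarith : -t < -1)).mul_left A) (fun p => ?_) (isOpen_re_gt t)
      (fun p s hs => ?_)
    · by_cases hp : p.Prime
      · have hpc : (p : ℂ) ≠ 0 := by exact_mod_cast hp.ne_zero
        unfold dd
        refine ((h.diff p).mono (fun s (hs : t < s.re) => (lt_trans ht1 hs : 1 < s.re))).add ?_
        intro s _
        have d2 : DifferentiableAt ℂ (fun s : ℂ => (p : ℂ) ^ (1 - s)) s :=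
          DifferentiableAt.const_cpow (by fun_prop) (Or.inl hpc)
        exact (d2.const_mul _).differentiableWithinAt
      · have e : dd LL ell p = fun _ => 0 := funext fun s => dd_zero h hp s
        rw [e]
        exact differentiableOn_const _
    · have hs' : t < s.re := hs
      refine (dd_le h p s (by linarith)).trans ?_
      rcases Nat.eq_zero_or_pos p with h0 | h0
      · rw [h0]
        simp only [Nat.cast_zero]
        rw [Real.zero_rpow (by linarith), Real.zero_rpow (by linarith)]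
      · have hp1 : (1 : ℝ) ≤ p := by exact_mod_cast h0
        refine mul_le_mul_of_nonneg_left ?_ h.pos
        exact Real.rpow_le_rpow_of_exponent_le hp1 (by linarith)
  exact (hd.differentiableAt ((isOpen_re_gt t).mem_nhds ht2)).differentiableWithinAt

lemma DD_bound (h : Loc LL ell A) : ∃ K : ℝ, ∀ᶠ w : ℝ in 𝓝[>] 0, ‖∑' p, dd LL ell p (1 + w)‖ ≤ K := by
  obtain ⟨C1, hC1⟩ := Pool.Agent.H341R2.lam_bounded
  set K3 : ℝ := ∑' p : Nat.Primes, (p : ℝ) ^ (-(3 / 2) : ℝ) with hK3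
  refine ⟨A * (2 * C1 + Real.log 2 + K3), ?_⟩
  have hC2 : ∀ᶠ w : ℝ in 𝓝[>] 0, |Pool.Agent.H341R2.lam (2 * w) + Real.log (2 * w)| ≤ C1 := by
    have ht : Tendsto (fun w : ℝ => 2 * w) (𝓝[>] 0) (𝓝[>] 0) := by
      rw [tendsto_nhdsWithin_iff]
      constructor
      · have : ContinuousAt (fun w : ℝ => 2 * w) 0 := by fun_prop
        have h2 := this.tendsto
        simp only [mul_zero] at h2
        exact h2.mono_left nhdsWithin_le_nhds
      · filter_upwards [self_mem_nhdsWithin] with w hw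
        have : (0 : ℝ) < w := hw
        show (0 : ℝ) < 2 * w
        linarith
    exact ht.eventually hC1
  filter_upwards [hC1, hC2, self_mem_nhdsWithin] with w h1 h2 h3
  have hw : (0 : ℝ) < w := h3
  have hs1 := lam_hasSum hw
  have hs2 := lam_hasSum (w := 2 * w) (by linarith)
  have hs3 : HasSum (fun n : ℕ => if n.Prime then (n : ℝ) ^ (-(3 / 2) : ℝ) else 0) K3 :=
    hasSum_primes (f := fun n : ℕ => (n : ℝ) ^ (-(3 / 2) : ℝ))
      (Pool.Agent.H341R2.summable_prime_rpow (by norm_num)).hasSum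
  have hs4 := ((hs1.sub hs2).add hs3).mul_left A
  have hb : ‖∑' p, dd LL ell p (1 + w)‖ ≤
      A * (Pool.Agent.H341R2.lam w - Pool.Agent.H341R2.lam (2 * w) + K3) := by
    refine tsum_of_norm_bounded hs4 (fun p => ?_)
    by_cases hp : p.Prime
    · simp only [if_pos hp]
      exact h.dd_real p w hp hw
    · simp only [if_neg hp]
      rw [dd_zero h hp, norm_zero]
      simp
  refine hb.trans (mul_le_mul_of_nonneg_left ?_ h.pos)
  rw [Real.log_mul (by norm_num) hw.ne'] at h2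
  have h9 := (abs_le.1 h1).2
  have h10 := (abs_le.1 h2).1
  linarith

lemma ellterm_summable (h : Loc LL ell A) {s : ℂ} (hs : 3 / 2 < s.re) :
    Summable (fun n : ℕ => (ell n : ℂ) * (n : ℂ) ^ (1 - s)) := by
  refine Summable.of_norm_bounded
    ((Real.summable_nat_rpow.2 (by linarith : 1 / 2 - s.re < -1)).mul_left A) (fun n => ?_)
  have := h.pos
  rcases Nat.eq_zero_or_pos n with h0 | h0
  · rw [h0, h.zeroE 0 Nat.not_prime_zero]
    simp only [Complex.ofReal_zero, zero_mul, norm_zero]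
    positivity
  · have hn0 : (0 : ℝ) < n := by exact_mod_cast h0
    rw [norm_mul, Complex.norm_real, Real.norm_eq_abs, Complex.norm_natCast_cpow_of_pos h0]
    have h1 := h.ell_le n h0
    calc |ell n| * (n : ℝ) ^ (1 - s).re ≤
        (A * (n : ℝ) ^ (-(1 / 2) : ℝ)) * (n : ℝ) ^ (1 - s).re :=
          mul_le_mul_of_nonneg_right h1 (by positivity)
      _ = A * ((n : ℝ) ^ (-(1 / 2) : ℝ) * (n : ℝ) ^ (1 - s).re) := by ring
      _ = A * (n : ℝ) ^ (1 / 2 - s.re) := by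
          rw [← Real.rpow_add hn0]; congr 2; simp; ring

lemma prod_eq (h : Loc LL ell A) {F : ℂ → ℂ} {s : ℂ} (hs : 3 / 2 < s.re)
    (hprod : HasProd (fun p : ℕ => exp (LL p s)) (F s)) :
    F s = exp ((∑' p, dd LL ell p s) - ∑' n : ℕ, (ell n : ℂ) * (n : ℂ) ^ (1 - s)) := by
  have hL := ellterm_summable h hs
  have hD := dd_summable h (by linarith : 1 < s.re)
  have h1 := hD.hasSum.sub hL.hasSum
  have e : (fun p => dd LL ell p s - (ell p : ℂ) * (p : ℂ) ^ (1 - s)) = fun p => LL p s := by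
    funext p
    unfold dd
    ring
  rw [e] at h1
  exact hprod.unique h1.cexp

lemma P_hasSum (h : Loc LL ell A) (ε κ : ℝ) {s : ℂ} (hs : 3 / 2 < s.re) :
    HasSum (fun n : ℕ => (mm ell ε κ (n + 1) : ℂ) * ((n + 1 : ℕ) : ℂ) ^ (1 - s))
        (ε * (κ * LSeries pr s - ∑' n : ℕ, (ell n : ℂ) * (n : ℂ) ^ (1 - s))) := by
  have hs1 : 1 < s.re := by linarith
  have hL := ellterm_summable h hs
  have h1 : HasSum (LSeries.term pr s) (LSeries pr s) := (pr_summable hs1).hasSum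
  have h2 := ((h1.mul_left (κ : ℂ)).sub hL.hasSum).mul_left (ε : ℂ)
  have e : (fun n : ℕ => (ε : ℂ) * (κ * LSeries.term pr s n - (ell n : ℂ) * (n : ℂ) ^ (1 - s))) =
      fun n : ℕ => (mm ell ε κ n : ℂ) * ((n : ℕ) : ℂ) ^ (1 - s) := by
    funext n
    by_cases hp : n.Prime
    · have hnc : (n : ℂ) ≠ 0 := by exact_mod_cast hp.ne_zero
      rw [LSeries.term_of_ne_zero hp.ne_zero]
      unfold mm pr
      rw [if_pos hp, if_pos hp, sub_eq_add_neg 1 s, Complex.cpow_add _ _ hnc, Complex.cpow_one,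
        Complex.cpow_neg]
      have hns : (n : ℂ) ^ s ≠ 0 := by
        rw [Complex.cpow_ne_zero_iff]; exact Or.inl hnc
      push_cast
      field_simp
    · have h3 := h.zeroE n hp
      unfold mm LSeries.term pr
      simp [hp, h3]
  rw [e] at h2
  have h3 := (hasSum_nat_add_iff' (f := fun n : ℕ => (mm ell ε κ n : ℂ) * ((n : ℕ) : ℂ) ^ (1 - s)) 1).2 h2
  have h4 : mm ell ε κ 0 = 0 := by unfold mm; simp [Nat.not_prime_zero]
  simp only [sum_range_one, h4, Complex.ofReal_zero, zero_mul, sub_zero] at h3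
  exact h3

/-- The abstract theorem. -/
theorem main_abs (h : Loc LL ell A) (ε κ C : ℝ) (hε : ε = 1 ∨ ε = -1)
    (hG : ∀ n, 0 ≤ PS C (mm ell ε κ) n) (F : ℂ → ℂ) (hF : Differentiable ℂ F)
    (hprod : ∀ s : ℂ, 3 / 2 < s.re → HasProd (fun p : ℕ => exp (LL p s)) (F s))
    (hreal : ε = -1 → ∀ σ : ℝ, 1 < σ → F σ ≠ 0) :
    (∀ s : ℂ, 1 < s.re → F s ≠ 0) ∧
    ∃ K : ℝ, ∀ᶠ w : ℝ in 𝓝[>] 0, ε * (κ * Real.log w) - K ≤ ε * Real.log ‖F (1 + w)‖ := by
  have hε1 : |ε| = 1 := by rcases hε with h | h <;> rw [h] <;> simp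
  have hε2 : (ε : ℂ) * ε = 1 := by
    rcases hε with h | h <;> rw [h] <;> push_cast <;> ring
  have hε3 : ε * ε = 1 := by rcases hε with h | h <;> rw [h] <;> norm_num
  have hApos := h.pos
  set m := mm ell ε κ with hm
  set Kc : ℝ := |C| + 2 * (|κ| + A) with hKc
  have hKc0 : 0 ≤ Kc := by positivity
  have hPS : ∀ n : ℕ, 1 ≤ n → |PS C m n| ≤ Kc * (n : ℝ) ^ (1 / 2 : ℝ) :=
    fun n hn => PS_le h ε κ C hε1 n hn
  set W : ℂ → ℂ := fun s => (∑' p, dd LL ell p s) - κ * LSeries pr s - ε * (EE C m s + C) with hW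
  have hWd : DifferentiableOn ℂ W {s | 1 < s.re} := by
    apply DifferentiableOn.sub
    · exact (DD_differentiable h).sub (pr_differentiable.const_mul _)
    · exact ((EE_differentiable hKc0 hPS).add_const _).const_mul _
  have hrel : ∀ s : ℂ, 3 / 2 < s.re →
      F s = exp (W s + ε * (s - 1) * LSeries (fun n => (PS C m n : ℂ)) s) := by
    intro s hs
    have hFe := prod_eq h hs (hprod s hs)
    have hP := P_hasSum h ε κ hs
    have hab := abel_rel hKc0 hPS s hs _ hP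
    rw [hFe]
    congr 1
    have e6 : (ε : ℂ) * (s - 1) * LSeries (fun n => (PS C m n : ℂ)) s =
        ε * (EE C m s + C + ε * (κ * LSeries pr s - ∑' n : ℕ, (ell n : ℂ) * (n : ℂ) ^ (1 - s))) := by
      rw [← hab]; ring
    rw [e6, hW]
    simp only
    linear_combination (-(κ * LSeries pr s - ∑' n : ℕ, (ell n : ℂ) * (n : ℂ) ^ (1 - s))) * hε2
  obtain ⟨hsum, hall⟩ := core (PS C m) hG ε hε F W hF hWd (fun s hs => PS_summable hPS s hs) hrel hreal
  refine ⟨fun s hs => by rw [hall s hs]; exact Complex.exp_ne_zero _, ?_⟩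
  obtain ⟨K1, hK1⟩ := DD_bound h
  obtain ⟨C1, hC1⟩ := Pool.Agent.H341R2.lam_bounded
  refine ⟨K1 + |κ| * C1 + (2 * Kc * K32 + |C|), ?_⟩
  have hw1 : ∀ᶠ w : ℝ in 𝓝[>] 0, w ≤ 1 := by
    have : Set.Iic (1 : ℝ) ∈ 𝓝 (0 : ℝ) := Iic_mem_nhds one_pos
    exact mem_nhdsWithin_of_mem_nhds this
  filter_upwards [hK1, hC1, self_mem_nhdsWithin, hw1] with w h1 h2 h3 h4
  have hw : (0 : ℝ) < w := h3
  have hre : (1 : ℝ) < ((1 : ℂ) + w).re := by simp [hw]
  have h5 := hall (1 + w) hre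
  have h6 : Real.log ‖F (1 + w)‖ = (W (1 + w)).re +
      (ε * ((1 + w : ℂ) - 1) * LSeries (fun n => (PS C m n : ℂ)) (1 + w)).re := by
    rw [h5, Complex.norm_exp, Real.log_exp, add_re]
  have h7 : (ε * ((1 + w : ℂ) - 1) * LSeries (fun n => (PS C m n : ℂ)) (1 + w)).re =
      ε * (w * (LSeries (fun n => (PS C m n : ℂ)) ((1 + w : ℝ) : ℂ)).re) := by
    have e1 : (ε : ℂ) * ((1 + w : ℂ) - 1) = ((ε * w : ℝ) : ℂ) := by push_cast; ring
    have e2 : ((1 : ℂ) + w) = ((1 + w : ℝ) : ℂ) := by push_cast; rfl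
    rw [e1, Complex.re_ofReal_mul, e2]
    ring
  have h8 := re_LSeries_nonneg (PS C m) hG (1 + w)
  have h9 : 0 ≤ w * (LSeries (fun n => (PS C m n : ℂ)) ((1 + w : ℝ) : ℂ)).re := mul_nonneg hw.le h8
  have h10 : ε * Real.log ‖F (1 + w)‖ = ε * (W (1 + w)).re +
      w * (LSeries (fun n => (PS C m n : ℂ)) ((1 + w : ℝ) : ℂ)).re := by
    rw [h6, h7, mul_add, ← mul_assoc ε ε, hε3, one_mul]
  rw [h10]
  have h11 : (W (1 + w)).re = (∑' p, dd LL ell p (1 + w)).re - κ * Pool.Agent.H341R2.lam w -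
      ε * ((EE C m (1 + w)).re + C) := by
    rw [hW]
    simp only
    rw [pr_eq_lam hw]
    simp only [sub_re, re_ofReal_mul, add_re, ofReal_re]
  have h12 : |(∑' p, dd LL ell p (1 + w)).re| ≤ K1 := (Complex.abs_re_le_norm _).trans h1
  have h13 : |(EE C m (1 + w)).re| ≤ 2 * Kc * K32 := by
    refine (Complex.abs_re_le_norm _).trans ((EE_bound hKc0 hPS (1 + w) hre.le).2.trans ?_)
    have e3 : ‖(1 : ℂ) + w - 1‖ = w := by
      rw [add_sub_cancel_left, Complex.norm_real, Real.norm_eq_abs, abs_of_pos hw]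
    have e4 : ‖(1 : ℂ) + w‖ = 1 + w := by
      have : ((1 : ℂ) + w) = ((1 + w : ℝ) : ℂ) := by push_cast; rfl
      rw [this, Complex.norm_real, Real.norm_eq_abs, abs_of_pos (by linarith)]
    rw [e3, e4]
    have hK32 : 0 ≤ K32 := tsum_nonneg fun n => by positivity
    have e5 : w * (1 + w) ≤ 2 := by nlinarith
    calc w * (1 + w) * Kc * K32 ≤ 2 * Kc * K32 := by gcongr
      _ = _ := rfl
  rw [h11]
  have h14 : |κ * (Pool.Agent.H341R2.lam w + Real.log w)| ≤ |κ| * C1 := by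
    rw [abs_mul]; exact mul_le_mul_of_nonneg_left h2 (abs_nonneg _)
  have h15 := abs_le.1 h12
  have h16 := abs_le.1 h13
  have h17 := abs_le.1 h14
  have h18 := abs_le.1 (le_refl |C|)
  rcases hε with h | h
  · rw [h]
    nlinarith [h15.1, h16.1, h16.2, h17.1, h17.2, h18.1, h18.2]
  · rw [h]
    nlinarith [h15.1, h15.2, h16.1, h16.2, h17.1, h17.2, h18.1, h18.2]

/-- The abstract theorem, for logarithmic averages. -/
theorem main_abs2 (h : Loc LL ell A) (ε κ C : ℝ) (hε : ε = 1 ∨ ε = -1)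
    (hG : ∀ n, 0 ≤ AS C (mm ell ε κ) n) (F : ℂ → ℂ) (hF : Differentiable ℂ F)
    (hprod : ∀ s : ℂ, 3 / 2 < s.re → HasProd (fun p : ℕ => exp (LL p s)) (F s))
    (hreal : ε = -1 → ∀ σ : ℝ, 1 < σ → F σ ≠ 0) :
    (∀ s : ℂ, 1 < s.re → F s ≠ 0) ∧
    ∃ K : ℝ, ∀ᶠ w : ℝ in 𝓝[>] 0, ε * (κ * Real.log w) - K ≤ ε * Real.log ‖F (1 + w)‖ := by
  have hε1 : |ε| = 1 := by rcases hε with h | h <;> rw [h] <;> simp
  have hε2 : (ε : ℂ) * ε = 1 := by
    rcases hε with h | h <;> rw [h] <;> push_cast <;> ring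
  have hε3 : ε * ε = 1 := by rcases hε with h | h <;> rw [h] <;> norm_num
  have hApos := h.pos
  set m := mm ell ε κ with hm
  set Kc : ℝ := |C| + 2 * (|κ| + A) with hKc
  have hKc0 : 0 ≤ Kc := by positivity
  have hPS : ∀ n : ℕ, 1 ≤ n → |PS C m n| ≤ Kc * (n : ℝ) ^ (1 / 2 : ℝ) :=
    fun n hn => PS_le h ε κ C hε1 n hn
  have hAS : ∀ n : ℕ, 1 ≤ n → |AS C m n| ≤ 2 * Kc * (n : ℝ) ^ (1 / 2 : ℝ) :=
    fun n _ => AS_le hKc0 hPS n
  set E2 : ℂ → ℂ := EE 0 (fun k => PS C m k / k) with hE2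
  set W : ℂ → ℂ := fun s => (∑' p, dd LL ell p s) - κ * LSeries pr s - ε * (EE C m s + C)
    - ε * ((s - 1) * E2 s) with hW
  have hWd : DifferentiableOn ℂ W {s | 1 < s.re} := by
    apply DifferentiableOn.sub
    · apply DifferentiableOn.sub
      · exact (DD_differentiable h).sub (pr_differentiable.const_mul _)
      · exact ((EE_differentiable hKc0 hPS).add_const _).const_mul _
    · apply DifferentiableOn.const_mul
      apply DifferentiableOn.mul (by fun_prop)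
      exact EE_differentiable (by positivity : (0 : ℝ) ≤ 2 * Kc) hAS
  have hrel : ∀ s : ℂ, 3 / 2 < s.re →
      F s = exp (W s + ε * (s - 1) ^ 2 * LSeries (fun n => (AS C m n : ℂ)) s) := by
    intro s hs
    have hs1 : 1 < s.re := by linarith
    have hFe := prod_eq h hs (hprod s hs)
    have hP := P_hasSum h ε κ hs
    have hab := abel_rel hKc0 hPS s hs _ hP
    have hP2 : HasSum (fun n : ℕ => ((PS C m (n + 1) / ((n + 1 : ℕ) : ℝ) : ℝ) : ℂ) * ((n + 1 : ℕ) : ℂ) ^ (1 - s))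
        (LSeries (fun n => (PS C m n : ℂ)) s) := by
      have h3 : HasSum (LSeries.term (fun n => (PS C m n : ℂ)) s) (LSeries (fun n => (PS C m n : ℂ)) s) :=
        (PS_summable hPS s hs).hasSum
      have h4 := (hasSum_nat_add_iff' (f := LSeries.term (fun n => (PS C m n : ℂ)) s) 1).2 h3
      simp only [sum_range_one, LSeries.term_zero, sub_zero] at h4
      have e : (fun n : ℕ => ((PS C m (n + 1) / ((n + 1 : ℕ) : ℝ) : ℝ) : ℂ) * ((n + 1 : ℕ) : ℂ) ^ (1 - s)) =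
          fun n => LSeries.term (fun n => (PS C m n : ℂ)) s (n + 1) := by
        funext n
        have hn : ((n + 1 : ℕ) : ℂ) ≠ 0 := by exact_mod_cast (by omega : n + 1 ≠ 0)
        have hns : ((n + 1 : ℕ) : ℂ) ^ s ≠ 0 := by
          rw [Complex.cpow_ne_zero_iff]; exact Or.inl hn
        rw [LSeries.term_of_ne_zero (by omega : n + 1 ≠ 0), sub_eq_add_neg 1 s,
          Complex.cpow_add _ _ hn, Complex.cpow_one, Complex.cpow_neg]
        push_cast at hn hns ⊢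
        field_simp
      rw [e]
      exact h4
    have hab2 := abel_rel (C := 0) (m := fun k => PS C m k / k) (by positivity : (0 : ℝ) ≤ 2 * Kc) hAS s hs _ hP2
    have hab2' : (s - 1) * LSeries (fun n => (AS C m n : ℂ)) s = E2 s + LSeries (fun n => (PS C m n : ℂ)) s := by
      have := hab2
      simp only [Complex.ofReal_zero, add_zero] at this
      exact this
    rw [hFe]
    congr 1
    have e6 : (ε : ℂ) * (s - 1) ^ 2 * LSeries (fun n => (AS C m n : ℂ)) s =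
        ε * ((s - 1) * E2 s) + ε * (EE C m s + C + ε * (κ * LSeries pr s -
          ∑' n : ℕ, (ell n : ℂ) * (n : ℂ) ^ (1 - s))) := by
      have e7 : (ε : ℂ) * (s - 1) ^ 2 * LSeries (fun n => (AS C m n : ℂ)) s =
          ε * ((s - 1) * ((s - 1) * LSeries (fun n => (AS C m n : ℂ)) s)) := by ring
      rw [e7, hab2', ← hab]; ring
    rw [e6, hW]
    simp only
    linear_combination (-(κ * LSeries pr s - ∑' n : ℕ, (ell n : ℂ) * (n : ℂ) ^ (1 - s))) * hε2
  obtain ⟨hsum, hall⟩ := core2 (AS C m) hG ε hε F W hF hWd (fun s hs => PS_summable hAS s hs) hrel hreal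
  refine ⟨fun s hs => by rw [hall s hs]; exact Complex.exp_ne_zero _, ?_⟩
  obtain ⟨K1, hK1⟩ := DD_bound h
  obtain ⟨C1, hC1⟩ := Pool.Agent.H341R2.lam_bounded
  refine ⟨K1 + |κ| * C1 + (2 * Kc * K32 + |C|) + 4 * Kc * K32, ?_⟩
  have hw1 : ∀ᶠ w : ℝ in 𝓝[>] 0, w ≤ 1 := by
    have : Set.Iic (1 : ℝ) ∈ 𝓝 (0 : ℝ) := Iic_mem_nhds one_pos
    exact mem_nhdsWithin_of_mem_nhds this
  filter_upwards [hK1, hC1, self_mem_nhdsWithin, hw1] with w h1 h2 h3 h4
  have hw : (0 : ℝ) < w := h3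
  have hre : (1 : ℝ) < ((1 : ℂ) + w).re := by simp [hw]
  have h5 := hall (1 + w) hre
  have h6 : Real.log ‖F (1 + w)‖ = (W (1 + w)).re +
      (ε * ((1 + w : ℂ) - 1) ^ 2 * LSeries (fun n => (AS C m n : ℂ)) (1 + w)).re := by
    rw [h5, Complex.norm_exp, Real.log_exp, add_re]
  have h7 : (ε * ((1 + w : ℂ) - 1) ^ 2 * LSeries (fun n => (AS C m n : ℂ)) (1 + w)).re =
      ε * (w ^ 2 * (LSeries (fun n => (AS C m n : ℂ)) ((1 + w : ℝ) : ℂ)).re) := by
    have e1 : (ε : ℂ) * ((1 + w : ℂ) - 1) ^ 2 = ((ε * w ^ 2 : ℝ) : ℂ) := by push_cast; ring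
    have e2 : ((1 : ℂ) + w) = ((1 + w : ℝ) : ℂ) := by push_cast; rfl
    rw [e1, Complex.re_ofReal_mul, e2]
    ring
  have h8 := re_LSeries_nonneg (AS C m) hG (1 + w)
  have h9 : 0 ≤ w ^ 2 * (LSeries (fun n => (AS C m n : ℂ)) ((1 + w : ℝ) : ℂ)).re := mul_nonneg (by positivity) h8
  have h10 : ε * Real.log ‖F (1 + w)‖ = ε * (W (1 + w)).re +
      w ^ 2 * (LSeries (fun n => (AS C m n : ℂ)) ((1 + w : ℝ) : ℂ)).re := by
    rw [h6, h7, mul_add, ← mul_assoc ε ε, hε3, one_mul]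
  rw [h10]
  have h11 : (W (1 + w)).re = (∑' p, dd LL ell p (1 + w)).re - κ * Pool.Agent.H341R2.lam w -
      ε * ((EE C m (1 + w)).re + C) - ε * (w * (E2 (1 + w)).re) := by
    rw [hW]
    simp only
    rw [pr_eq_lam hw]
    have e8 : ((1 : ℂ) + w - 1) * E2 (1 + w) = (w : ℂ) * E2 (1 + w) := by ring
    rw [e8]
    simp only [sub_re, re_ofReal_mul, add_re, ofReal_re]
  have h12 : |(∑' p, dd LL ell p (1 + w)).re| ≤ K1 := (Complex.abs_re_le_norm _).trans h1
  have h13 : |(EE C m (1 + w)).re| ≤ 2 * Kc * K32 := by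
    refine (Complex.abs_re_le_norm _).trans ((EE_bound hKc0 hPS (1 + w) hre.le).2.trans ?_)
    have e3 : ‖(1 : ℂ) + w - 1‖ = w := by
      rw [add_sub_cancel_left, Complex.norm_real, Real.norm_eq_abs, abs_of_pos hw]
    have e4 : ‖(1 : ℂ) + w‖ = 1 + w := by
      have : ((1 : ℂ) + w) = ((1 + w : ℝ) : ℂ) := by push_cast; rfl
      rw [this, Complex.norm_real, Real.norm_eq_abs, abs_of_pos (by linarith)]
    rw [e3, e4]
    have hK32 : 0 ≤ K32 := tsum_nonneg fun n => by positivity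
    have e5 : w * (1 + w) ≤ 2 := by nlinarith
    calc w * (1 + w) * Kc * K32 ≤ 2 * Kc * K32 := by gcongr
      _ = _ := rfl
  have hK32 : 0 ≤ K32 := tsum_nonneg fun n => by positivity
  have h13b : |w * (E2 (1 + w)).re| ≤ 4 * Kc * K32 := by
    rw [abs_mul, abs_of_pos hw]
    have h20 : |(E2 (1 + w)).re| ≤ 4 * Kc * K32 := by
      refine (Complex.abs_re_le_norm _).trans
        ((EE_bound (by positivity : (0 : ℝ) ≤ 2 * Kc) hAS (1 + w) hre.le).2.trans ?_)
      have e3 : ‖(1 : ℂ) + w - 1‖ = w := by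
        rw [add_sub_cancel_left, Complex.norm_real, Real.norm_eq_abs, abs_of_pos hw]
      have e4 : ‖(1 : ℂ) + w‖ = 1 + w := by
        have : ((1 : ℂ) + w) = ((1 + w : ℝ) : ℂ) := by push_cast; rfl
        rw [this, Complex.norm_real, Real.norm_eq_abs, abs_of_pos (by linarith)]
      rw [e3, e4]
      have e5 : w * (1 + w) ≤ 2 := by nlinarith
      calc w * (1 + w) * (2 * Kc) * K32 ≤ 2 * (2 * Kc) * K32 := by gcongr
        _ = 4 * Kc * K32 := by ring
    have h21 : 0 ≤ 4 * Kc * K32 := by positivity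
    nlinarith [abs_nonneg (E2 (1 + w)).re]
  rw [h11]
  have h14 : |κ * (Pool.Agent.H341R2.lam w + Real.log w)| ≤ |κ| * C1 := by
    rw [abs_mul]; exact mul_le_mul_of_nonneg_left h2 (abs_nonneg _)
  have h15 := abs_le.1 h12
  have h16 := abs_le.1 h13
  have h17 := abs_le.1 h14
  have h18 := abs_le.1 (le_refl |C|)
  have h19 := abs_le.1 h13b
  rcases hε with h | h
  · rw [h]
    nlinarith [h15.1, h16.1, h16.2, h17.1, h17.2, h18.1, h18.2, h19.1, h19.2]
  · rw [h]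
    nlinarith [h15.1, h15.2, h16.1, h16.2, h17.1, h17.2, h18.1, h18.2, h19.1, h19.2]

end Pool.Agent.H438R3.BSD.Gen
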