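import Pool.Agent.H438R3.BSD.Gen3
import Pool.Agent.H341R2.CurveFacts

/-! Application to the cohomology of powers of hyperelliptic curves. -/

set_option autoImplicit false

open Complex Filter Topology Finset

namespace Pool.Agent.H438R3.BSD.Gen

open Pool.Agent.H438R3.BSD

/-- `p` is a prime of good reduction of `y² = f(x)` -/
def goodH (f : Polynomial ℤ) (p : ℕ) : Prop :=
  ∃ h : p.Prime, Pool.Agent.H341R2.GoodPrime f 1 ⟨p, h⟩

/-- the trace of the `m`-th power of Frobenius at `p` on `H^(2 j + 1)` of the `n`-th power of the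
curve, divided by `p ^ (m j)` -/
noncomputable def cH (f : Polynomial ℤ) (n j : ℕ) (p m : ℕ) : ℝ :=
  if h : p.Prime then
    (Pool.Agent.H341R2.traceH n (2 * j + 1) f 1 ⟨p, h⟩ m : ℝ) / (p : ℝ) ^ (m * j) else 0

lemma cH_le (f : Polynomial ℤ) (hd : 1 ≤ f.natDegree) (n j : ℕ) (p : ℕ) (hp : goodH f p) (m : ℕ)
    (hm : 1 ≤ m) : |cH f n j p m| ≤ (5 * f.natDegree + 1 + 2) ^ n * (p : ℝ) ^ ((m : ℝ) / 2) := by
  obtain ⟨h, hg⟩ := hp
  have hp0 : (0 : ℝ) < p := by exact_mod_cast h.pos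
  unfold cH
  rw [dif_pos h]
  have h1 := Pool.Agent.H341R2.traceH1_bound hg hd m (by omega)
  have h2 := Pool.Agent.H341R2.coeff_bound (Pool.Agent.H341R2.traceH1 f 1 ⟨p, h⟩ m) ((p : ℤ) ^ m)
    (Real.sqrt ((p : ℝ) ^ m)) (5 * f.natDegree + 1) (Real.sqrt_nonneg _) (by positivity)
    (by rw [Real.sq_sqrt (by positivity)]; push_cast; rfl) h1 n (2 * j + 1)
  have e : Pool.Agent.H341R2.traceH n (2 * j + 1) f 1 ⟨p, h⟩ m =
      ((1 + Polynomial.C (Pool.Agent.H341R2.traceH1 f 1 ⟨p, h⟩ m) * Polynomial.X +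
        Polynomial.C ((p : ℤ) ^ m) * Polynomial.X ^ 2 : Polynomial ℤ) ^ n).coeff (2 * j + 1) := rfl
  rw [e, abs_div, abs_of_pos (by positivity : (0 : ℝ) < (p : ℝ) ^ (m * j)), div_le_iff₀ (by positivity)]
  refine h2.trans (le_of_eq ?_)
  have e2 : Real.sqrt ((p : ℝ) ^ m) ^ (2 * j + 1) = (p : ℝ) ^ ((m : ℝ) / 2) * (p : ℝ) ^ (m * j) := by
    rw [pow_succ, pow_mul, Real.sq_sqrt (by positivity), ← pow_mul, mul_comm, Real.sqrt_eq_rpow,
      ← Real.rpow_natCast, ← Real.rpow_mul hp0.le]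
    congr 2
    ring
  rw [e2]
  ring

open Classical in
/-- `L(H^(2 j + 1)(C^n), s + j)`, the product over the primes of good reduction -/
def IsLH (f : Polynomial ℤ) (n j : ℕ) (F : ℂ → ℂ) : Prop :=
  Differentiable ℂ F ∧ ∀ s : ℂ, (3 : ℝ) / 2 < s.re →
    HasProd (fun p : Nat.Primes => if Pool.Agent.H341R2.GoodPrime f 1 p then
      Pool.Agent.H341R2.goodFactor n (2 * j + 1) f 1 p (s + j) else 1) (F s)

open Classical in
/-- the logarithm of the product of the values at `s = 1` of the polynomials of Frobenius over the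
good primes `p ≤ x` -/
noncomputable def lH (f : Polynomial ℤ) (n j : ℕ) (x : ℕ) : ℝ :=
  ∑ p ∈ Finset.Icc 1 x, if h : p.Prime then
    (if Pool.Agent.H341R2.GoodPrime f 1 ⟨p, h⟩ then
      -∑' m : ℕ, (Pool.Agent.H341R2.traceH n (2 * j + 1) f 1 ⟨p, h⟩ (m + 1) : ℝ) /
        (((m : ℝ) + 1) * (p : ℝ) ^ ((m + 1) * (j + 1))) else 0) else 0

open Classical in
lemma lH_eq (f : Polynomial ℤ) (n j : ℕ) (x : ℕ) :
    lH f n j x = lE (ellc (goodH f) (cH f n j)) x := by
  unfold lH lE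
  refine Finset.sum_congr rfl fun p _ => ?_
  unfold ellc
  by_cases h : p.Prime
  · rw [dif_pos h]
    by_cases hg : Pool.Agent.H341R2.GoodPrime f 1 ⟨p, h⟩
    · have hp0 : (0 : ℝ) < p := by exact_mod_cast h.pos
      rw [if_pos hg, if_pos (show goodH f p from ⟨h, hg⟩)]
      congr 1
      refine tsum_congr fun m => ?_
      unfold cH
      rw [dif_pos h]
      have e : (p : ℝ) ^ (-((m : ℝ) + 1)) = ((p : ℝ) ^ (m + 1))⁻¹ := by
        rw [Real.rpow_neg hp0.le]
        congr 1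
        have : (m : ℝ) + 1 = ((m + 1 : ℕ) : ℝ) := by push_cast; rfl
        rw [this, Real.rpow_natCast]
      rw [e, Nat.mul_succ, pow_add]
      field_simp
    · rw [if_neg hg, if_neg (fun hh : goodH f p => hg hh.2)]
  · rw [dif_neg h, if_neg (fun hh : goodH f p => h hh.1)]

open Classical in
lemma prodH (f : Polynomial ℤ) (n j : ℕ) {F : ℂ → ℂ} (hF : IsLH f n j F) (s : ℂ)
    (hs : 3 / 2 < s.re) :
    HasProd (fun p : ℕ => exp (LLc (goodH f) (cH f n j) p s)) (F s) := by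
  have h1 := hF.2 s hs
  have h2 : HasProd ((fun p : ℕ => exp (LLc (goodH f) (cH f n j) p s)) ∘ ((↑) : Nat.Primes → ℕ)) (F s) := by
    suffices e0 : ((fun p : ℕ => exp (LLc (goodH f) (cH f n j) p s)) ∘ ((↑) : Nat.Primes → ℕ)) =
        (fun p : Nat.Primes => if Pool.Agent.H341R2.GoodPrime f 1 p then
        Pool.Agent.H341R2.goodFactor n (2 * j + 1) f 1 p (s + j) else 1) by
      rw [e0]; exact h1
    funext p
    simp only [Function.comp_apply]
    unfold LLc
    have hpc : ((p : ℕ) : ℂ) ≠ 0 := by exact_mod_cast p.2.ne_zero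
    by_cases hg : Pool.Agent.H341R2.GoodPrime f 1 p
    · rw [if_pos hg, if_pos (show goodH f (p : ℕ) from ⟨p.2, hg⟩)]
      unfold Pool.Agent.H341R2.goodFactor
      congr 1
      refine tsum_congr fun m => ?_
      unfold cH
      rw [dif_pos p.2]
      have e1 : ((p : ℕ) : ℂ) ^ (-((m + 1 : ℂ) * (s + j))) =
          ((p : ℕ) : ℂ) ^ (-((m + 1 : ℂ) * s)) / (((p : ℕ) : ℂ) ^ ((m + 1) * j)) := by
        rw [← Complex.cpow_natCast, ← Complex.cpow_sub _ _ hpc]
        congr 1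
        push_cast
        ring
      rw [e1]
      push_cast
      ring
    · rw [if_neg hg, if_neg (fun hh : goodH f (p : ℕ) => hg hh.2), Complex.exp_zero]
  have h3 : Function.mulSupport (fun p : ℕ => exp (LLc (goodH f) (cH f n j) p s)) ⊆
      Set.range ((↑) : Nat.Primes → ℕ) := by
    intro p hp
    by_contra hcon
    apply hp
    have : ¬ p.Prime := fun h => hcon ⟨⟨p, h⟩, rfl⟩
    simp only
    unfold LLc
    rw [if_neg (fun hh : goodH f p => this hh.1), Complex.exp_zero]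
  exact (Function.Injective.hasProd_iff Subtype.val_injective (fun x hx => by
    by_contra h
    exact hx (h3 h))).1 h2

/-- The theorem for the cohomology of powers of hyperelliptic curves. -/
theorem hyp_main (f : Polynomial ℤ) (hd : 1 ≤ f.natDegree) (n j : ℕ) {F : ℂ → ℂ}
    (hF : IsLH f n j F) :
    ∃ m : ℕ, analyticOrderAt F 1 = m ∧
    (∀ κ : ℝ, (κ < m ∨ ∃ ρ : ℂ, 1 < ρ.re ∧ F ρ = 0) → ∀ C : ℝ,
      (∃ᶠ x : ℕ in atTop, C < LA (lH f n j) κ x) ∧
      ∃ᶠ x : ℕ in atTop, C < lH f n j x - κ * Real.log (Real.log x)) ∧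
    ((∀ σ : ℝ, 1 < σ → F σ ≠ 0) →
      ∀ κ : ℝ, ((m : ℝ) < κ ∨ ∃ ρ : ℂ, 1 < ρ.re ∧ F ρ = 0) → ∀ C : ℝ,
      (∃ᶠ x : ℕ in atTop, LA (lH f n j) κ x < C) ∧
      ∃ᶠ x : ℕ in atTop, lH f n j x - κ * Real.log (Real.log x) < C) := by
  classical
  have hloc := locC (good := goodH f) (c := cH f n j) (K := (5 * f.natDegree + 1 + 2) ^ n)
    (fun p hp => hp.1) (by positivity) (fun p hp m hm => cH_le f hd n j p hp m hm)
  exact main hloc hF.1 (prodH f n j hF) (lH f n j) 0 (fun k => by rw [lH_eq]; simp)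

end Pool.Agent.H438R3.BSD.Gen
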