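import Pool.Agent.H353R2.P1

/-! Landau's theorem on Dirichlet series with nonnegative coefficients, on an arbitrary disc
(adapted from `H353.landau_ball`). -/

set_option autoImplicit false

open Complex Filter Topology Set
open scoped Nat

namespace Pool.Agent.H438R3.BSD

theorem landau_disc (h : ℕ → ℝ) (hn : ∀ n, 0 ≤ h n) (H : ℂ → ℂ) (c ρ : ℝ) (hρ : 0 < ρ)
    (hH : DifferentiableOn ℂ H (Metric.ball (c : ℂ) ρ))
    (habs2 : LSeries.abscissaOfAbsConv (fun n => (h n : ℂ)) < (c : EReal))
    (heq : ∀ᶠ s in 𝓝 (c : ℂ), H s = LSeries (fun n => (h n : ℂ)) s) (σ : ℝ) (hσ : c - ρ < σ)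
    (hσ2 : σ ≤ c) :
    LSeriesSummable (fun n => (h n : ℂ)) σ := by
  set a : ℕ → ℂ := fun n => (h n : ℂ) with ha
  have habs2' : LSeries.abscissaOfAbsConv a < (((c : ℂ)).re : EReal) := by
    simpa using habs2
  have hT := Complex.hasSum_taylorSeries_on_ball (c := (c:ℂ)) (r := ρ.toNNReal) (f := H) (by
      intro z hz
      rw [Real.coe_toNNReal _ hρ.le] at hz ⊢
      exact hH z hz)
    (z := (σ : ℂ)) (by
      rw [Real.coe_toNNReal _ hρ.le, Metric.mem_ball, dist_eq_norm]
      have : (σ : ℂ) - c = ((σ - c : ℝ) : ℂ) := by push_cast; rfl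
      rw [this, Complex.norm_real, Real.norm_eq_abs, abs_of_nonpos (by linarith)]
      linarith)
  have hder : ∀ k, iteratedDeriv k H c = (-1) ^ k * LSeries (LSeries.logMul^[k] a) c := by
    intro k
    rw [← LSeries_iteratedDeriv k habs2']
    exact Filter.EventuallyEq.iteratedDeriv_eq k heq
  have hTre := Complex.hasSum_re hT
  set b : ℕ → ℝ := fun k => ((k ! : ℂ)⁻¹ • ((σ : ℂ) - c) ^ k • iteratedDeriv k H c).re with hb
  have hsk : ∀ k, LSeriesSummable (LSeries.logMul^[k] a) c := fun k =>
    LSeriesSummable_of_abscissaOfAbsConv_lt_re (by rwa [LSeries.absicssaOfAbsConv_logPowMul])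
  -- real terms
  set t : ℕ → ℕ → ℝ := fun k n => (c - σ) ^ k / (k ! : ℝ) * ((Real.log n) ^ k * (if n = 0 then 0 else h n / (n:ℝ) ^ c)) with ht
  have htn : ∀ k n, 0 ≤ t k n := by
    intro k n
    have h2 : 0 ≤ (c - σ) ^ k / (k ! : ℝ) := by
      have : 0 ≤ c - σ := by linarith
      positivity
    refine mul_nonneg h2 (mul_nonneg (pow_nonneg (Real.log_natCast_nonneg n) k) ?_)
    split_ifs
    · exact le_rfl
    · exact div_nonneg (hn n) (by positivity)
  have hterm : ∀ k n, LSeries.term (LSeries.logMul^[k] a) c n =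
      (((Real.log n) ^ k * (if n = 0 then 0 else h n / (n:ℝ) ^ c) : ℝ) : ℂ) := by
    intro k n
    by_cases h0 : n = 0
    · simp [h0]
    · rw [LSeries.term_of_ne_zero h0, H353.logMul_iter, if_neg h0, ha]
      push_cast
      rw [Complex.ofReal_cpow (Nat.cast_nonneg n)]
      push_cast
      ring
  have hbk : ∀ k, HasSum (t k) (b k) := by
    intro k
    have h2 : HasSum (LSeries.term (LSeries.logMul^[k] a) c) (LSeries (LSeries.logMul^[k] a) c) :=
      (hsk k).hasSum
    rw [funext (hterm k)] at h2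
    have h3 := Complex.hasSum_re h2
    simp only [Complex.ofReal_re] at h3
    have h4 := h3.mul_left ((c - σ) ^ k / (k ! : ℝ))
    have e : b k = (c - σ) ^ k / (k ! : ℝ) * (LSeries (LSeries.logMul^[k] a) c).re := by
      rw [hb]
      simp only [smul_eq_mul]
      rw [hder k]
      have e2 : ((k ! : ℂ))⁻¹ * (((σ : ℂ) - c) ^ k * ((-1) ^ k * LSeries (LSeries.logMul^[k] a) c)) =
          (((c - σ) ^ k / (k ! : ℝ) : ℝ) : ℂ) * LSeries (LSeries.logMul^[k] a) c := by
        push_cast
        have : ((c:ℂ) - σ) ^ k = ((σ : ℂ) - c) ^ k * (-1) ^ k := by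
          rw [← mul_pow]
          congr 1
          ring
        rw [this]
        ring
      rw [e2, Complex.re_ofReal_mul]
    rw [e]
    exact h4
  -- bound the partial sums
  have hmain : ∀ N : ℕ, ∑ n ∈ Finset.range N, (if n = 0 then 0 else h n / (n:ℝ) ^ σ) ≤ (H σ).re := by
    intro N
    have h2 : HasSum (fun k => ∑ n ∈ Finset.range N, t k n)
        (∑ n ∈ Finset.range N, (if n = 0 then 0 else h n / (n:ℝ) ^ σ)) := by
      refine hasSum_sum fun n _ => ?_
      by_cases h0 : n = 0
      · simp only [ht, h0, if_true, mul_zero]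
        exact hasSum_zero
      · simp only [ht, if_neg h0]
        have hn0 : (0:ℝ) < n := by exact_mod_cast Nat.pos_of_ne_zero h0
        have h3' := NormedSpace.expSeries_div_hasSum_exp ((c - σ) * Real.log n)
        rw [← Real.exp_eq_exp_ℝ] at h3'
        have h3 := h3'.mul_right (h n / (n:ℝ) ^ c)
        have e : Real.exp ((c - σ) * Real.log n) * (h n / (n:ℝ) ^ c) = h n / (n:ℝ) ^ σ := by
          rw [Real.rpow_def_of_pos hn0, Real.rpow_def_of_pos hn0, div_eq_mul_inv, div_eq_mul_inv,
            ← Real.exp_neg, ← Real.exp_neg]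
          rw [mul_left_comm, ← Real.exp_add]
          congr 2
          ring
        rw [e] at h3
        have e5 : (fun k : ℕ => (c - σ) ^ k / (k ! : ℝ) * (Real.log n ^ k * (h n / (n:ℝ) ^ c))) =
            fun k : ℕ => ((c - σ) * Real.log n) ^ k / (k ! : ℝ) * (h n / (n:ℝ) ^ c) := by
          funext k
          rw [mul_pow]
          ring
        rw [e5]
        exact h3
    refine hasSum_le (fun k => ?_) h2 hTre
    exact sum_le_hasSum _ (fun n _ => htn k n) (hbk k)
  have hS : Summable (fun n : ℕ => if n = 0 then 0 else h n / (n:ℝ) ^ σ) :=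
    summable_of_sum_range_le (fun n => by
      split_ifs
      · exact le_rfl
      · exact div_nonneg (hn n) (by positivity)) hmain
  refine Summable.of_norm ?_
  convert hS using 2 with n
  by_cases h0 : n = 0
  · simp [h0]
  · rw [LSeries.norm_term_eq, if_neg h0, if_neg h0, ha]
    simp only [Complex.norm_real, Real.norm_eq_abs, abs_of_nonneg (hn n), Complex.ofReal_re]

end Pool.Agent.H438R3.BSD
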