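import Pool.Agent.H438R3.BSD.Prod
import Pool.Agent.H341R2.WeilSharp
import Pool.Agent.H341R2.EulerProd
import Pool.Agent.Helper256.KM.E1

/-! One-sided bounds for the products `∏_{p ≤ x} N_p / p` of an elliptic curve. -/

set_option autoImplicit false

open Complex Filter Topology Finset

namespace Pool.Agent.H438R3.BSD

/-- the primes not dividing twice the discriminant of the cubic -/
def Good (a b : ℤ) (p : ℕ) : Prop := p.Prime ∧ ¬ ((p : ℤ) ∣ 2 * (-4 * a ^ 3 - 27 * b ^ 2))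

/-- the number of affine points of `y² = x³ + a x + b` modulo `p` -/
noncomputable def Np (a b : ℤ) (p : ℕ) : ℕ :=
  Nat.card {q : ZMod p × ZMod p // q.2 ^ 2 = q.1 ^ 3 + (a : ZMod p) * q.1 + (b : ZMod p)}

open Classical in
/-- the product of `(N_p + 1) / p` over the good primes `p ≤ x` -/
noncomputable def EP (a b : ℤ) (x : ℕ) : ℝ :=
  ∏ p ∈ (Finset.Icc 1 x).filter (Good a b), ((Np a b p : ℝ) + 1) / p

open Classical in
/-- `F` is the entire function which extends the `L`-series of the curve -/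
def IsL (a b : ℤ) (F : ℂ → ℂ) : Prop :=
  Differentiable ℂ F ∧ ∀ s : ℂ, (3 : ℝ) / 2 < s.re →
    HasProd (fun p : ℕ => if Good a b p then
      (1 - ((p : ℂ) - (Np a b p : ℂ)) * (p : ℂ) ^ (-s) + (p : ℂ) ^ (1 - 2 * s))⁻¹ else 1) (F s)

open Polynomial in
theorem hasse (a b : ℤ) (p : ℕ) (hp : p.Prime) (hp2 : p ≠ 2) :
    |(p : ℝ) - Np a b p| ≤ 2 * Real.sqrt p := by
  classical
  have : Fact p.Prime := ⟨hp⟩
  set f : (ZMod p)[X] := X ^ 3 + C (a : ZMod p) * X + C (b : ZMod p) with hf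
  have hdeg : f.natDegree = 3 := by
    rw [hf]
    compute_degree!
  have hF : ringChar (ZMod p) ≠ 2 := by rwa [ZMod.ringChar_zmod_n]
  have hns : ∀ (c : ZMod p) (h : (ZMod p)[X]), f ≠ C c * h ^ 2 := by
    intro c h heq
    have h1 : f.natDegree = (C c * h ^ 2).natDegree := by rw [heq]
    rcases eq_or_ne c 0 with h0 | h0
    · rw [h0, C_0, zero_mul, natDegree_zero, hdeg] at h1
      omega
    · rw [natDegree_C_mul h0, natDegree_pow, hdeg] at h1
      omega
  have hw := Pool.Agent.H341R2.Sharp.weil_sharp hF f (by omega) hns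
  rw [hdeg, ZMod.card] at hw
  have heval : ∀ x : ZMod p, f.eval x = x ^ 3 + (a : ZMod p) * x + (b : ZMod p) := by
    intro x
    rw [hf]
    simp
  have hcard : (Np a b p : ℤ) = p + ∑ x : ZMod p, quadraticChar (ZMod p) (f.eval x) := by
    have h1 : Np a b p = ∑ x : ZMod p, Nat.card {y : ZMod p // y ^ 2 = f.eval x} := by
      unfold Np
      have e : {q : ZMod p × ZMod p // q.2 ^ 2 = q.1 ^ 3 + (a : ZMod p) * q.1 + (b : ZMod p)} ≃
          Σ x : ZMod p, {y : ZMod p // y ^ 2 = f.eval x} :=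
        { toFun := fun q => ⟨q.1.1, q.1.2, q.2.trans (heval _).symm⟩
          invFun := fun q => ⟨(q.1, q.2.1), q.2.2.trans (heval _)⟩
          left_inv := fun q => rfl
          right_inv := fun q => rfl }
      rw [Nat.card_congr e, Nat.card_sigma]
    have h2 : ∀ x : ZMod p, (Nat.card {y : ZMod p // y ^ 2 = f.eval x} : ℤ) =
        quadraticChar (ZMod p) (f.eval x) + 1 := by
      intro x
      rw [← quadraticChar_card_sqrts hF (f.eval x), Set.toFinset_card, ← Nat.card_eq_fintype_card]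
      rfl
    rw [h1]
    push_cast
    rw [Finset.sum_congr rfl fun x _ => h2 x, Finset.sum_add_distrib]
    simp [add_comm]
  have hcard' : (Np a b p : ℝ) = p + ∑ x : ZMod p, (quadraticChar (ZMod p) (f.eval x) : ℝ) := by
    exact_mod_cast hcard
  rw [hcard']
  have e1 : (p : ℝ) - (p + ∑ x : ZMod p, (quadraticChar (ZMod p) (f.eval x) : ℝ)) =
      -∑ x : ZMod p, (quadraticChar (ZMod p) (f.eval x) : ℝ) := by ring
  rw [e1, abs_neg]
  refine hw.trans (le_of_eq ?_)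
  norm_num

/-- a Frobenius eigenvalue -/
noncomputable def al (a b : ℤ) (p : ℕ) : ℂ :=
  ⟨((p : ℝ) - Np a b p) / 2, Real.sqrt (p - (((p : ℝ) - Np a b p) / 2) ^ 2)⟩

lemma good_ne_two {a b : ℤ} {p : ℕ} (h : Good a b p) : p ≠ 2 := by
  rintro rfl
  exact h.2 (Dvd.intro _ rfl)

lemma al_sq {a b : ℤ} {p : ℕ} (h : Good a b p) :
    0 ≤ (p : ℝ) - (((p : ℝ) - Np a b p) / 2) ^ 2 := by
  have h1 := hasse a b p h.1 (good_ne_two h)
  have h2 : (((p : ℝ) - Np a b p) / 2) ^ 2 ≤ p := by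
    have h3 : |((p : ℝ) - Np a b p) / 2| ≤ Real.sqrt p := by
      rw [abs_div, abs_of_pos (by norm_num : (0 : ℝ) < 2)]
      linarith
    calc (((p : ℝ) - Np a b p) / 2) ^ 2 = |((p : ℝ) - Np a b p) / 2| ^ 2 := (sq_abs _).symm
      _ ≤ Real.sqrt p ^ 2 := pow_le_pow_left₀ (abs_nonneg _) h3 2
      _ = p := Real.sq_sqrt (by positivity)
  linarith

lemma al_mul_conj {a b : ℤ} {p : ℕ} (h : Good a b p) : al a b p * starRingEnd ℂ (al a b p) = p := by
  rw [Complex.mul_conj, Complex.normSq_apply]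
  have h1 := Real.mul_self_sqrt (al_sq h)
  unfold al
  simp only
  rw [h1]
  push_cast
  ring

lemma al_add_conj (a b : ℤ) (p : ℕ) : al a b p + starRingEnd ℂ (al a b p) = (p : ℂ) - Np a b p := by
  rw [Complex.add_conj]
  unfold al
  simp only
  push_cast
  ring

lemma al_norm {a b : ℤ} {p : ℕ} (h : Good a b p) : ‖al a b p‖ = (p : ℝ) ^ (1 / 2 : ℝ) := by
  have h1 : ‖al a b p‖ ^ 2 = p := by
    have h2 := al_mul_conj h
    rw [Complex.mul_conj, Complex.normSq_eq_norm_sq] at h2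
    exact_mod_cast h2
  rw [← Real.sqrt_eq_rpow, ← h1, Real.sqrt_sq (norm_nonneg _)]

lemma factor_eq {a b : ℤ} {p : ℕ} (h : Good a b p) (s : ℂ) :
    (1 - al a b p * (p : ℂ) ^ (-s)) * (1 - starRingEnd ℂ (al a b p) * (p : ℂ) ^ (-s)) =
      1 - ((p : ℂ) - (Np a b p : ℂ)) * (p : ℂ) ^ (-s) + (p : ℂ) ^ (1 - 2 * s) := by
  have hpc : (p : ℂ) ≠ 0 := by exact_mod_cast h.1.ne_zero
  have e1 : (p : ℂ) ^ (1 - 2 * s) = p * ((p : ℂ) ^ (-s) * (p : ℂ) ^ (-s)) := by
    rw [← Complex.cpow_add _ _ hpc]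
    nth_rewrite 2 [← Complex.cpow_one (p : ℂ)]
    rw [← Complex.cpow_add _ _ hpc]
    congr 1
    ring
  rw [e1, ← al_add_conj]
  have h2 := al_mul_conj h
  linear_combination ((p : ℂ) ^ (-s) * (p : ℂ) ^ (-s)) * h2

open Classical in
lemma ell_eq {a b : ℤ} {p : ℕ} (h : Good a b p) :
    ell (Good a b) (al a b) p = Real.log (((Np a b p : ℝ) + 1) / p) := by
  have hp0 : (0 : ℝ) < p := by exact_mod_cast h.1.pos
  have hpc : (p : ℂ) ≠ 0 := by exact_mod_cast h.1.ne_zero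
  unfold ell
  rw [if_pos h]
  have h1 : ‖1 - al a b p / p‖ ^ 2 = ((Np a b p : ℝ) + 1) / p := by
    have h2 : (1 - al a b p / p) * starRingEnd ℂ (1 - al a b p / p) = ((((Np a b p : ℝ) + 1) / p : ℝ) : ℂ) := by
      rw [map_sub, map_one, map_div₀, Complex.conj_natCast]
      push_cast
      field_simp
      have h3 := al_mul_conj h
      have h4 := al_add_conj a b p
      linear_combination h3 - (p : ℂ) * h4
    rw [Complex.mul_conj, Complex.normSq_eq_norm_sq] at h2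
    exact_mod_cast h2
  rw [← h1, Real.log_pow]
  norm_num

open Classical in
lemma log_EP (a b : ℤ) (n : ℕ) : Real.log (EP a b n) =
    ∑ p ∈ Finset.Icc 1 n, if p.Prime then ell (Good a b) (al a b) p else 0 := by
  unfold EP
  rw [Real.log_prod]
  · rw [Finset.sum_filter]
    refine Finset.sum_congr rfl fun p _ => ?_
    by_cases h : Good a b p
    · rw [if_pos h, if_pos h.1, ell_eq h]
    · rw [if_neg h]
      unfold ell
      simp [h]
  · intro p hp
    have h := (Finset.mem_filter.1 hp).2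
    have hp0 : (0 : ℝ) < p := by exact_mod_cast h.1.pos
    positivity

open Classical in
lemma EP_pos (a b : ℤ) (n : ℕ) : 0 < EP a b n := by
  unfold EP
  refine Finset.prod_pos fun p hp => ?_
  have h := (Finset.mem_filter.1 hp).2
  have hp0 : (0 : ℝ) < p := by exact_mod_cast h.1.pos
  positivity

open Classical in
lemma PS_eq (a b : ℤ) (ε κ C : ℝ) (n : ℕ) :
    PS C (mm (Good a b) (al a b) ε κ) n =
      C + ε * (κ * ∑ p ∈ (Finset.Icc 1 n).filter Nat.Prime, (1 : ℝ) / p - Real.log (EP a b n)) := by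
  unfold PS
  rw [log_EP, Finset.sum_filter, Finset.mul_sum, ← Finset.sum_sub_distrib, Finset.mul_sum]
  congr 1
  refine Finset.sum_congr rfl fun p _ => ?_
  unfold mm
  split_ifs <;> ring

open Classical in
/-- the hypotheses of the abstract theorem from a one-sided bound for large `x` -/
lemma exists_const (a b : ℤ) (ε κ : ℝ) (hε : ε = 1 ∨ ε = -1) (C0 : ℝ)
    (h : ∀ᶠ n : ℕ in atTop, ε * (Real.log (EP a b n) - κ * Real.log (Real.log n)) ≤ C0) :
    ∃ C : ℝ, ∀ n, 0 ≤ PS C (mm (Good a b) (al a b) ε κ) n := by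
  have hε1 : |ε| = 1 := by rcases hε with h | h <;> rw [h] <;> simp
  obtain ⟨C1, hC1, hup⟩ := Pool.Agent.Helper256.KM.mertens_upper
  obtain ⟨C2, hC2, hlow⟩ := Pool.Agent.Helper256.KM.mertens_lower
  obtain ⟨n0, hn0⟩ := eventually_atTop.1 h
  set n1 := max n0 2 with hn1
  have hg : ∀ p, Good a b p → p.Prime := fun p hp => hp.1
  have ha : ∀ p, Good a b p → ‖al a b p‖ = (p : ℝ) ^ (1 / 2 : ℝ) := fun p hp => al_norm hp
  set Kc : ℝ := |(0 : ℝ)| + 2 * (|κ| + 5) with hKc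
  refine ⟨|C0| + |κ| * (C1 + C2) + Kc * (n1 : ℝ) ^ (1 / 2 : ℝ), fun n => ?_⟩
  have hPS : PS (|C0| + |κ| * (C1 + C2) + Kc * (n1 : ℝ) ^ (1 / 2 : ℝ)) (mm (Good a b) (al a b) ε κ) n =
      (|C0| + |κ| * (C1 + C2) + Kc * (n1 : ℝ) ^ (1 / 2 : ℝ)) + PS 0 (mm (Good a b) (al a b) ε κ) n := by
    unfold PS; ring
  have hpos1 : 0 ≤ |κ| * (C1 + C2) := by positivity
  have hpos2 : 0 ≤ Kc * (n1 : ℝ) ^ (1 / 2 : ℝ) := by positivity
  have hpos3 : 0 ≤ |C0| := abs_nonneg _
  rcases Nat.lt_or_ge n n1 with hlt | hge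
  · rw [hPS]
    rcases Nat.eq_zero_or_pos n with h0 | h0
    · rw [h0, PS_zero]; linarith
    · have h1 := PS_le hg ha ε κ 0 hε1 n h0
      have h2 : (n : ℝ) ^ (1 / 2 : ℝ) ≤ (n1 : ℝ) ^ (1 / 2 : ℝ) :=
        Real.rpow_le_rpow (by positivity) (by exact_mod_cast hlt.le) (by norm_num)
      have h3 : |PS 0 (mm (Good a b) (al a b) ε κ) n| ≤ Kc * (n1 : ℝ) ^ (1 / 2 : ℝ) :=
        h1.trans (mul_le_mul_of_nonneg_left h2 (by positivity))
      have h4 := (abs_le.1 h3).1
      linarith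
  · have hn2 : (2 : ℝ) ≤ n := by exact_mod_cast (le_trans (le_max_right _ _) hge)
    have h1 := hup n hn2
    have h2 := hlow n hn2
    rw [Nat.floor_natCast] at h1 h2
    have h3 := hn0 n ((le_max_left _ _).trans hge)
    rw [PS_eq]
    set S : ℝ := ∑ p ∈ (Finset.Icc 1 n).filter Nat.Prime, (1 : ℝ) / p with hS
    set ll := Real.log (Real.log (n : ℝ)) with hll
    have h4 : |κ * (S - ll)| ≤ |κ| * (C1 + C2) := by
      rw [abs_mul]
      refine mul_le_mul_of_nonneg_left ?_ (abs_nonneg _)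
      rw [abs_le]
      constructor <;> linarith
    have h5 := abs_le.1 h4
    have h6 := le_abs_self C0
    rcases hε with h | h
    · rw [h] at h3 ⊢
      nlinarith [h5.1, h5.2]
    · rw [h] at h3 ⊢
      nlinarith [h5.1, h5.2]

open Classical in
lemma prod_of_isL {a b : ℤ} {F : ℂ → ℂ} (hF : IsL a b F) (s : ℂ) (hs : 3 / 2 < s.re) :
    HasProd (fun p : ℕ => if Good a b p then
      ((1 - al a b p * (p : ℂ) ^ (-s)) * (1 - starRingEnd ℂ (al a b p) * (p : ℂ) ^ (-s)))⁻¹ else 1)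
      (F s) := by
  have h1 := hF.2 s hs
  have e : (fun p : ℕ => if Good a b p then
      ((1 - al a b p * (p : ℂ) ^ (-s)) * (1 - starRingEnd ℂ (al a b p) * (p : ℂ) ^ (-s)))⁻¹ else 1) =
      fun p : ℕ => if Good a b p then
      (1 - ((p : ℂ) - (Np a b p : ℂ)) * (p : ℂ) ^ (-s) + (p : ℂ) ^ (1 - 2 * s))⁻¹ else 1 := by
    funext p
    split_ifs with h
    · rw [factor_eq h]
    · rfl
  rw [e]
  exact h1

open Classical in
/-- One-sided bounds: `ε = 1` upper bounds, `ε = -1` lower bounds. -/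
theorem one_side {a b : ℤ} {F : ℂ → ℂ} (hF : IsL a b F) (ε κ : ℝ) (hε : ε = 1 ∨ ε = -1) (C0 : ℝ)
    (h : ∀ᶠ n : ℕ in atTop, ε * (Real.log (EP a b n) - κ * Real.log (Real.log n)) ≤ C0)
    (hreal : ε = -1 → ∀ σ : ℝ, 1 < σ → F σ ≠ 0) (m : ℕ) (hm : analyticOrderAt F 1 = m) :
    (∀ s : ℂ, 1 < s.re → F s ≠ 0) ∧ ε * (m - κ) ≤ 0 := by
  obtain ⟨C, hC⟩ := exists_const a b ε κ hε C0 h
  have hg : ∀ p, Good a b p → p.Prime := fun p hp => hp.1
  have ha : ∀ p, Good a b p → ‖al a b p‖ = (p : ℝ) ^ (1 / 2 : ℝ) := fun p hp => al_norm hp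
  obtain ⟨h1, K, hK⟩ := main_abs hg ha ε κ C hε hC F hF.1 (prod_of_isL hF) hreal
  refine ⟨h1, ?_⟩
  have han : AnalyticAt ℂ F 1 := hF.1.analyticAt 1
  have hmer : meromorphicOrderAt F 1 = ((m : ℤ) : WithTop ℤ) := by
    rw [han.meromorphicOrderAt_eq, hm]
    rfl
  obtain ⟨C3, hC3⟩ := Pool.Agent.H341R2.log_norm_meromorphic han.meromorphicAt hmer
  by_contra hcon
  push Not at hcon
  have hbot : Tendsto (fun w : ℝ => Real.log w) (𝓝[>] 0) atBot := Real.tendsto_log_nhdsGT_zero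
  have hev : ∀ᶠ w : ℝ in 𝓝[>] 0, ε * (m - κ) * Real.log w < -(K + |C3|) := by
    have := hbot.const_mul_atBot hcon
    exact this.eventually (eventually_lt_atBot _)
  obtain ⟨w, hw1, hw2, hw3⟩ := (hK.and (hC3.and hev)).exists
  have h5 := hw2.2
  have h6 := le_abs_self C3
  push_cast at h5
  have h7 := abs_le.1 h5
  have e2 : ε * (m - κ) * Real.log w = ε * (m * Real.log w) - ε * (κ * Real.log w) := by ring
  rw [e2] at hw3
  rcases hε with h | h
  · rw [h] at hw1 hw3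
    linarith [h7.1, h7.2]
  · rw [h] at hw1 hw3
    linarith [h7.1, h7.2]

open Classical in
theorem F_ne_zero {a b : ℤ} {F : ℂ → ℂ} (hF : IsL a b F) : F 2 ≠ 0 := by
  have hg : ∀ p, Good a b p → p.Prime := fun p hp => hp.1
  have ha : ∀ p, Good a b p → ‖al a b p‖ = (p : ℝ) ^ (1 / 2 : ℝ) := fun p hp => al_norm hp
  have hre : (1 : ℝ) < (2 : ℂ).re := by simp
  have hL : Summable (fun n : ℕ => (ell (Good a b) (al a b) n : ℂ) * (n : ℂ) ^ (1 - (2 : ℂ))) := by
    refine Summable.of_norm_bounded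
      ((Real.summable_nat_rpow.2 (by norm_num : -(3 / 2) < (-1 : ℝ))).mul_left 5) (fun n => ?_)
    rcases Nat.eq_zero_or_pos n with h0 | h0
    · rw [h0]
      have : ¬ Good a b 0 := fun h => Nat.not_prime_zero h.1
      simp only [ell, if_neg this, Complex.ofReal_zero, zero_mul, norm_zero]
      positivity
    · have hn0 : (0 : ℝ) < n := by exact_mod_cast h0
      rw [norm_mul, Complex.norm_real, Real.norm_eq_abs, Complex.norm_natCast_cpow_of_pos h0]
      have h1 := ell_le hg ha n h0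
      calc |ell (Good a b) (al a b) n| * (n : ℝ) ^ (1 - (2 : ℂ)).re ≤
          (5 * (n : ℝ) ^ (-(1 / 2) : ℝ)) * (n : ℝ) ^ (1 - (2 : ℂ)).re :=
            mul_le_mul_of_nonneg_right h1 (by positivity)
        _ = 5 * ((n : ℝ) ^ (-(1 / 2) : ℝ) * (n : ℝ) ^ (1 - (2 : ℂ)).re) := by ring
        _ = 5 * (n : ℝ) ^ (-(3 / 2) : ℝ) := by
            rw [← Real.rpow_add hn0]; congr 2; simp; norm_num
  have hD := dd_summable hg ha hre
  have hLL : HasSum (fun p => LL (Good a b) (al a b) p 2)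
      ((∑' p, dd (Good a b) (al a b) p 2) - ∑' n : ℕ, (ell (Good a b) (al a b) n : ℂ) * (n : ℂ) ^ (1 - (2 : ℂ))) := by
    have h1 := hD.hasSum.sub hL.hasSum
    have e : (fun p => LL (Good a b) (al a b) p 2) = fun p => dd (Good a b) (al a b) p 2 -
        (ell (Good a b) (al a b) p : ℂ) * (p : ℂ) ^ (1 - (2 : ℂ)) := by
      funext p
      rw [dd_eq hg ha]
      ring
    rw [e]
    exact h1
  have hFe : F 2 = exp ((∑' p, dd (Good a b) (al a b) p 2) -
      ∑' n : ℕ, (ell (Good a b) (al a b) n : ℂ) * (n : ℂ) ^ (1 - (2 : ℂ))) := by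
    refine (prod_of_isL hF 2 (by norm_num)).unique ?_
    have h2 := hLL.cexp
    convert h2 using 1
    funext p
    simp only [Function.comp_apply]
    unfold LL
    split_ifs with hp
    · have hpp := hg p hp
      have hp2 : (2 : ℝ) ≤ p := by exact_mod_cast hpp.two_le
      have hne : ∀ β : ℂ, ‖β‖ = (p : ℝ) ^ (1 / 2 : ℝ) → 1 - β * (p : ℂ) ^ (-(2 : ℂ)) ≠ 0 := by
        intro β hβ h0
        have h3 := norm_a hpp hβ 2
        have h4 : ‖β * (p : ℂ) ^ (-(2 : ℂ))‖ < 1 := by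
          rw [h3]; exact lt_of_le_of_lt (x_rpow_le hp2 (by norm_num)) (by norm_num)
        have h5 : β * (p : ℂ) ^ (-(2 : ℂ)) = 1 := (sub_eq_zero.1 h0).symm
        rw [h5, norm_one] at h4
        exact lt_irrefl _ h4
      rw [Complex.exp_add, Complex.exp_neg, Complex.exp_neg, Complex.exp_log (hne _ (ha p hp)),
        Complex.exp_log (hne _ (norm_conj_alpha hg ha hp)), mul_inv]
    · rw [Complex.exp_zero]
  rw [hFe]
  exact Complex.exp_ne_zero _

theorem order_finite {a b : ℤ} {F : ℂ → ℂ} (hF : IsL a b F) : ∃ m : ℕ, analyticOrderAt F 1 = m := by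
  have h1 : analyticOrderAt F 1 ≠ ⊤ := by
    intro htop
    rw [analyticOrderAt_eq_top] at htop
    have h2 := (hF.1.differentiableOn (s := Set.univ)).analyticOnNhd isOpen_univ
    have h3 := h2.eqOn_zero_of_preconnected_of_eventuallyEq_zero isPreconnected_univ (Set.mem_univ 1) htop
    exact F_ne_zero hF (h3 (Set.mem_univ 2))
  exact ⟨(analyticOrderAt F 1).toNat, (ENat.coe_toNat h1).symm⟩

end Pool.Agent.H438R3.BSD
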