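import Pool.Agent.H438R3.BSD.GenN3
import Pool.Agent.H341R2.WeilSharp
import Pool.Agent.H921R2.TatePole.Base

/-! Elliptic curves over number fields: local data. -/

set_option autoImplicit false

open Complex Filter Topology Finset NumberField IsDedekindDomain
open Pool.Agent.H921R2.TatePole

namespace Pool.Agent.H438R3.BSD.NF

section field

variable {k : Type} [Field k] [Finite k]

/-- the number of affine points of `y² = x³ + a x + b` -/
noncomputable def aff (a b : k) : ℕ :=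
  Nat.card {q : k × k // q.2 ^ 2 = q.1 ^ 3 + a * q.1 + b}

open Polynomial in
theorem hasse (h2 : (2 : k) ≠ 0) (a b : k) :
    |(Nat.card k : ℝ) - aff a b| ≤ 2 * Real.sqrt (Nat.card k) := by
  classical
  let _ : Fintype k := Fintype.ofFinite k
  set f : k[X] := X ^ 3 + C a * X + C b with hf
  have hdeg : f.natDegree = 3 := by
    rw [hf]
    compute_degree!
  have hF : ringChar k ≠ 2 := by
    intro h
    apply h2
    have := ringChar.Nat.cast_ringChar (R := k)
    rw [h] at this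
    exact_mod_cast this
  have hns : ∀ (c : k) (h : k[X]), f ≠ C c * h ^ 2 := by
    intro c h heq
    have h1 : f.natDegree = (C c * h ^ 2).natDegree := by rw [heq]
    rcases eq_or_ne c 0 with h0 | h0
    · rw [h0, C_0, zero_mul, natDegree_zero, hdeg] at h1
      omega
    · rw [natDegree_C_mul h0, natDegree_pow, hdeg] at h1
      omega
  have hw := Pool.Agent.H341R2.Sharp.weil_sharp hF f (by omega) hns
  rw [hdeg] at hw
  have heval : ∀ x : k, f.eval x = x ^ 3 + a * x + b := by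
    intro x
    rw [hf]
    simp
  have hcard : (aff a b : ℤ) = Fintype.card k + ∑ x : k, quadraticChar k (f.eval x) := by
    have h1 : aff a b = ∑ x : k, Nat.card {y : k // y ^ 2 = f.eval x} := by
      unfold aff
      have e : {q : k × k // q.2 ^ 2 = q.1 ^ 3 + a * q.1 + b} ≃
          Σ x : k, {y : k // y ^ 2 = f.eval x} :=
        { toFun := fun q => ⟨q.1.1, q.1.2, q.2.trans (heval _).symm⟩
          invFun := fun q => ⟨(q.1, q.2.1), q.2.2.trans (heval _)⟩
          left_inv := fun q => rfl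
          right_inv := fun q => rfl }
      rw [Nat.card_congr e, Nat.card_sigma]
    have h2 : ∀ x : k, (Nat.card {y : k // y ^ 2 = f.eval x} : ℤ) =
        quadraticChar k (f.eval x) + 1 := by
      intro x
      rw [← quadraticChar_card_sqrts hF (f.eval x), Set.toFinset_card, ← Nat.card_eq_fintype_card]
      rfl
    rw [h1]
    push_cast
    rw [Finset.sum_congr rfl fun x _ => h2 x, Finset.sum_add_distrib]
    simp [add_comm]
  have hcard' : (aff a b : ℝ) = Fintype.card k + ∑ x : k, (quadraticChar k (f.eval x) : ℝ) := by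
    exact_mod_cast hcard
  rw [hcard', Nat.card_eq_fintype_card]
  have e1 : (Fintype.card k : ℝ) - (Fintype.card k + ∑ x : k, (quadraticChar k (f.eval x) : ℝ)) =
      -∑ x : k, (quadraticChar k (f.eval x) : ℝ) := by ring
  rw [e1, abs_neg]
  refine hw.trans (le_of_eq ?_)
  norm_num

end field

variable {K : Type} [Field K] [NumberField K]

/-- the places not dividing twice the discriminant of the cubic -/
def Good (a b : 𝓞 K) (v : HeightOneSpectrum (𝓞 K)) : Prop :=
  2 * (4 * a ^ 3 + 27 * b ^ 2) ∉ v.asIdeal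

/-- the number of affine points of `y² = x³ + a x + b` over the residue field of `v` -/
noncomputable def Np (a b : 𝓞 K) (v : HeightOneSpectrum (𝓞 K)) : ℕ :=
  Nat.card {q : (𝓞 K ⧸ v.asIdeal) × (𝓞 K ⧸ v.asIdeal) // q.2 ^ 2 = q.1 ^ 3 +
    Ideal.Quotient.mk v.asIdeal a * q.1 + Ideal.Quotient.mk v.asIdeal b}

lemma hasse_v (a b : 𝓞 K) (v : HeightOneSpectrum (𝓞 K)) (hv : Good a b v) :
    |(nm v : ℝ) - Np a b v| ≤ 2 * Real.sqrt (nm v) := by
  have hmax : v.asIdeal.IsMaximal := v.isPrime.isMaximal v.ne_bot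
  letI : Field (𝓞 K ⧸ v.asIdeal) := Ideal.Quotient.field v.asIdeal
  have : Finite (𝓞 K ⧸ v.asIdeal) := Ideal.finiteQuotientOfFreeOfNeBot v.asIdeal v.ne_bot
  have h2 : (2 : 𝓞 K ⧸ v.asIdeal) ≠ 0 := by
    intro h
    apply hv
    have h3 : (2 : 𝓞 K) ∈ v.asIdeal := by
      rw [← Ideal.Quotient.eq_zero_iff_mem]
      exact (map_ofNat (Ideal.Quotient.mk v.asIdeal) 2).trans h
    exact v.asIdeal.mul_mem_right _ h3
  have hcard : nm v = Nat.card (𝓞 K ⧸ v.asIdeal) := by
    unfold nm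
    rw [Ideal.absNorm_apply, Submodule.cardQuot_apply]
  have h4 := hasse h2 (Ideal.Quotient.mk v.asIdeal a) (Ideal.Quotient.mk v.asIdeal b)
  rw [hcard]
  exact h4

/-- a Frobenius eigenvalue -/
noncomputable def al (a b : 𝓞 K) (v : HeightOneSpectrum (𝓞 K)) : ℂ :=
  ⟨((nm v : ℝ) - Np a b v) / 2, Real.sqrt (nm v - (((nm v : ℝ) - Np a b v) / 2) ^ 2)⟩

section

variable {a b : 𝓞 K} {v : HeightOneSpectrum (𝓞 K)}

lemma al_sq (h : Good a b v) : 0 ≤ (nm v : ℝ) - (((nm v : ℝ) - Np a b v) / 2) ^ 2 := by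
  have h1 := hasse_v a b v h
  have h2 : (((nm v : ℝ) - Np a b v) / 2) ^ 2 ≤ nm v := by
    have h3 : |((nm v : ℝ) - Np a b v) / 2| ≤ Real.sqrt (nm v) := by
      rw [abs_div, abs_of_pos (by norm_num : (0 : ℝ) < 2)]
      linarith
    calc (((nm v : ℝ) - Np a b v) / 2) ^ 2 = |((nm v : ℝ) - Np a b v) / 2| ^ 2 := (sq_abs _).symm
      _ ≤ Real.sqrt (nm v) ^ 2 := pow_le_pow_left₀ (abs_nonneg _) h3 2
      _ = nm v := Real.sq_sqrt (by positivity)
  linarith

lemma al_mul_conj (h : Good a b v) : al a b v * starRingEnd ℂ (al a b v) = nm v := by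
  rw [Complex.mul_conj, Complex.normSq_apply]
  have h1 := Real.mul_self_sqrt (al_sq h)
  unfold al
  simp only
  rw [h1]
  push_cast
  ring

variable (a b v) in
lemma al_add_conj : al a b v + starRingEnd ℂ (al a b v) = (nm v : ℂ) - Np a b v := by
  rw [Complex.add_conj]
  unfold al
  simp only
  push_cast
  ring

lemma al_norm (h : Good a b v) : ‖al a b v‖ = (nm v : ℝ) ^ (1 / 2 : ℝ) := by
  have h1 : ‖al a b v‖ ^ 2 = nm v := by
    have h2 := al_mul_conj h
    rw [Complex.mul_conj, Complex.normSq_eq_norm_sq] at h2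
    exact_mod_cast h2
  rw [← Real.sqrt_eq_rpow, ← h1, Real.sqrt_sq (norm_nonneg _)]

lemma nm_pos (v : HeightOneSpectrum (𝓞 K)) : (0 : ℝ) < nm v := by
  have := two_le_nm v
  exact_mod_cast (by omega : 0 < nm v)

lemma nm_ne (v : HeightOneSpectrum (𝓞 K)) : (nm v : ℂ) ≠ 0 := by
  have := two_le_nm v
  exact_mod_cast (by omega : nm v ≠ 0)

lemma factor_eq (h : Good a b v) (s : ℂ) :
    (1 - al a b v * (nm v : ℂ) ^ (-s)) * (1 - starRingEnd ℂ (al a b v) * (nm v : ℂ) ^ (-s)) =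
      1 - ((nm v : ℂ) - (Np a b v : ℂ)) * (nm v : ℂ) ^ (-s) + (nm v : ℂ) ^ (1 - 2 * s) := by
  have hpc := nm_ne v
  have e1 : (nm v : ℂ) ^ (1 - 2 * s) = nm v * ((nm v : ℂ) ^ (-s) * (nm v : ℂ) ^ (-s)) := by
    rw [← Complex.cpow_add _ _ hpc]
    nth_rewrite 2 [← Complex.cpow_one (nm v : ℂ)]
    rw [← Complex.cpow_add _ _ hpc]
    congr 1
    ring
  rw [e1, ← al_add_conj]
  have h2 := al_mul_conj h
  linear_combination ((nm v : ℂ) ^ (-s) * (nm v : ℂ) ^ (-s)) * h2

lemma norm_sq_eq (h : Good a b v) :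
    ‖1 - al a b v / nm v‖ ^ 2 = ((Np a b v : ℝ) + 1) / nm v := by
  have hp0 := nm_pos v
  have hpc := nm_ne v
  have h2 : (1 - al a b v / nm v) * starRingEnd ℂ (1 - al a b v / nm v) =
      ((((Np a b v : ℝ) + 1) / nm v : ℝ) : ℂ) := by
    rw [map_sub, map_one, map_div₀, Complex.conj_natCast]
    push_cast
    field_simp
    have h3 := al_mul_conj h
    have h4 := al_add_conj a b v
    linear_combination h3 - (nm v : ℂ) * h4
  rw [Complex.mul_conj, Complex.normSq_eq_norm_sq] at h2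
  exact_mod_cast h2

lemma norm_z_lt (h : Good a b v) {β : ℂ} (hβ : ‖β‖ = (nm v : ℝ) ^ (1 / 2 : ℝ)) (s : ℂ) (hs : 1 ≤ s.re) :
    ‖β * (nm v : ℂ) ^ (-s)‖ < 1 := by
  have hp0 := nm_pos v
  have h2 : (2 : ℝ) ≤ nm v := by exact_mod_cast two_le_nm v
  rw [norm_mul, hβ, Complex.norm_natCast_cpow_of_pos (by exact_mod_cast hp0), neg_re, ← Real.rpow_add hp0]
  exact lt_of_le_of_lt (x_rpow_le h2 (by linarith)) (by norm_num)

/-- the logarithm of the local factor as a series -/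
lemma local_series (h : Good a b v) (s : ℂ) (hs : 1 ≤ s.re) :
    HasSum (fun m : ℕ => (((al a b v) ^ (m + 1) + (starRingEnd ℂ (al a b v)) ^ (m + 1)).re : ℂ) *
      (nm v : ℂ) ^ (-((m + 1 : ℂ) * s)) / (m + 1 : ℂ))
      (-Complex.log (1 - al a b v * (nm v : ℂ) ^ (-s)) +
        -Complex.log (1 - starRingEnd ℂ (al a b v) * (nm v : ℂ) ^ (-s))) := by
  have hc : ‖starRingEnd ℂ (al a b v)‖ = (nm v : ℝ) ^ (1 / 2 : ℝ) := by
    rw [Complex.norm_conj]; exact al_norm h
  have h1 := Complex.hasSum_taylorSeries_neg_log (norm_z_lt h (al_norm h) s hs)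
  have h2 := Complex.hasSum_taylorSeries_neg_log (norm_z_lt h hc s hs)
  have h3 := (hasSum_nat_add_iff' (f := fun n : ℕ => (al a b v * (nm v : ℂ) ^ (-s)) ^ n / n) 1).2 h1
  have h4 := (hasSum_nat_add_iff' (f := fun n : ℕ => (starRingEnd ℂ (al a b v) * (nm v : ℂ) ^ (-s)) ^ n / n) 1).2 h2
  simp only [sum_range_one, Nat.cast_zero, div_zero, sub_zero] at h3 h4
  have h5 := h3.add h4
  suffices e : (fun m : ℕ => (((al a b v) ^ (m + 1) + (starRingEnd ℂ (al a b v)) ^ (m + 1)).re : ℂ) *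
      (nm v : ℂ) ^ (-((m + 1 : ℂ) * s)) / (m + 1 : ℂ)) = fun n : ℕ =>
      (al a b v * (nm v : ℂ) ^ (-s)) ^ (n + 1) / ((n + 1 : ℕ) : ℂ) +
      (starRingEnd ℂ (al a b v) * (nm v : ℂ) ^ (-s)) ^ (n + 1) / ((n + 1 : ℕ) : ℂ) by
    rw [e]; exact h5
  funext m
  have e1 : (((al a b v) ^ (m + 1) + (starRingEnd ℂ (al a b v)) ^ (m + 1)).re : ℂ) =
      (al a b v) ^ (m + 1) + (starRingEnd ℂ (al a b v)) ^ (m + 1) := by
    rw [← map_pow, Complex.add_conj, Complex.ofReal_re]
  have e2 : (nm v : ℂ) ^ (-((m + 1 : ℂ) * s)) = ((nm v : ℂ) ^ (-s)) ^ (m + 1) := by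
    rw [← Complex.cpow_nat_mul]
    congr 1
    push_cast
    ring
  rw [e1, e2, mul_pow, mul_pow]
  push_cast
  ring

end

end Pool.Agent.H438R3.BSD.NF
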