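import Pool.Agent.H438R3.BSD.NF

/-! Elliptic curves over number fields: grouping the places by their norms. -/

set_option autoImplicit false

open Complex Filter Topology Finset NumberField IsDedekindDomain
open Pool.Agent.H921R2.TatePole

namespace Pool.Agent.H438R3.BSD.NF

variable {K : Type} [Field K] [NumberField K]

variable (K) in
lemma fib_finite (n : ℕ) : {v : HeightOneSpectrum (𝓞 K) | nm v = n}.Finite := by
  rcases Set.eq_empty_or_nonempty {v : HeightOneSpectrum (𝓞 K) | nm v = n} with h | ⟨v0, h0⟩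
  · rw [h]; exact Set.finite_empty
  · have hf := fiber_finite (K := K) (below v0)
    have h1 : {v : HeightOneSpectrum (𝓞 K) | below v = below v0}.Finite := Set.finite_coe_iff.1 hf
    refine h1.subset fun v hv => ?_
    have h2 : nm v = nm v0 := (show nm v = n from hv).trans (show nm v0 = n from h0).symm
    apply Subtype.ext
    show (Ideal.absNorm v.asIdeal).minFac = (Ideal.absNorm v0.asIdeal).minFac
    unfold nm at h2
    rw [h2]

variable (K) in
/-- the places of norm `n` -/
noncomputable def fib (n : ℕ) : Finset (HeightOneSpectrum (𝓞 K)) := (fib_finite K n).toFinset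

lemma mem_fib {n : ℕ} {v : HeightOneSpectrum (𝓞 K)} : v ∈ fib K n ↔ nm v = n := by
  unfold fib
  rw [Set.Finite.mem_toFinset]
  rfl

variable (K) in
lemma fib_card (n : ℕ) : (fib K n).card ≤ Module.finrank ℚ K := by
  rcases (fib K n).eq_empty_or_nonempty with h | ⟨v0, h0⟩
  · rw [h]; simp
  · refine card_above (below v0) _ fun v hv => ?_
    have h2 : nm v = nm v0 := (mem_fib.1 hv).trans (mem_fib.1 h0).symm
    apply Subtype.ext
    show (Ideal.absNorm v.asIdeal).minFac = (Ideal.absNorm v0.asIdeal).minFac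
    unfold nm at h2
    rw [h2]

variable (a b : 𝓞 K)

/-- some good place has norm `n` -/
def good (n : ℕ) : Prop := ∃ v : HeightOneSpectrum (𝓞 K), Good a b v ∧ nm v = n

open Classical in
/-- the sum of the `m`-th powers of the Frobenius eigenvalues at the good places of norm `n` -/
noncomputable def cc (n m : ℕ) : ℝ :=
  ∑ v ∈ fib K n, if Good a b v then ((al a b v) ^ m + (starRingEnd ℂ (al a b v)) ^ m).re else 0

lemma good_two {n : ℕ} (h : good a b n) : 2 ≤ n := by
  obtain ⟨v, -, hv⟩ := h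
  rw [← hv]
  exact two_le_nm v

open Classical in
lemma cc_le {n : ℕ} (hn : good a b n) (m : ℕ) :
    |cc a b n m| ≤ (2 * Module.finrank ℚ K) * (n : ℝ) ^ ((m : ℝ) / 2) := by
  have hn0 : (0 : ℝ) < n := by
    have := good_two a b hn
    exact_mod_cast (by omega : 0 < n)
  unfold cc
  calc _ ≤ ∑ v ∈ fib K n, |if Good a b v then
        ((al a b v) ^ m + (starRingEnd ℂ (al a b v)) ^ m).re else 0| := Finset.abs_sum_le_sum_abs _ _
    _ ≤ ∑ v ∈ fib K n, 2 * (n : ℝ) ^ ((m : ℝ) / 2) := by
        refine Finset.sum_le_sum fun v hv => ?_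
        have hvn := mem_fib.1 hv
        split_ifs with h
        · refine (Complex.abs_re_le_norm _).trans ((norm_add_le _ _).trans ?_)
          rw [norm_pow, norm_pow, Complex.norm_conj, al_norm h, hvn, ← Real.rpow_natCast,
            ← Real.rpow_mul hn0.le]
          have : (1 / 2 : ℝ) * (m : ℝ) = (m : ℝ) / 2 := by ring
          rw [this]
          exact le_of_eq (by ring)
        · rw [abs_zero]; positivity
    _ = (fib K n).card * (2 * (n : ℝ) ^ ((m : ℝ) / 2)) := by rw [Finset.sum_const, nsmul_eq_mul]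
    _ ≤ Module.finrank ℚ K * (2 * (n : ℝ) ^ ((m : ℝ) / 2)) := by
        refine mul_le_mul_of_nonneg_right ?_ (by positivity)
        exact_mod_cast fib_card K n
    _ = _ := by ring

/-- sum over the prime powers which are not primes -/
lemma sum_powers (Q : ℕ → Prop) [DecidablePred Q]
    (hQ : ∀ n, Q n → ∃ (p : Nat.Primes) (k : ℕ), n = (p : ℕ) ^ (k + 2)) :
    Summable (fun n : ℕ => if Q n then (1 : ℝ) / n else 0) := by
  have hs1 : Summable (fun p : Nat.Primes => ((p : ℕ) : ℝ) ^ (-2 : ℝ)) :=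
    Nat.Primes.summable_rpow.2 (by norm_num)
  have hs2 : Summable (fun j : ℕ => (1 / 2 : ℝ) ^ j) := summable_geometric_two
  have hs3 := Summable.mul_of_nonneg hs1 hs2 (fun p => by positivity) (fun j => by positivity)
  set T : Set ℕ := {n | Q n} with hT
  have hex : ∀ n : T, ∃ x : Nat.Primes × ℕ, (n : ℕ) = (x.1 : ℕ) ^ (x.2 + 2) := by
    intro n
    obtain ⟨p, k, h⟩ := hQ n n.2
    exact ⟨(p, k), h⟩
  choose i hi using hex
  have hinj : Function.Injective i := by
    intro m n h
    apply Subtype.ext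
    rw [hi m, hi n, h]
  have hs4 := hs3.comp_injective hinj
  have hs5 : Summable (fun n : T => (1 : ℝ) / (n : ℕ)) := by
    refine Summable.of_nonneg_of_le (fun n => by positivity) (fun n => ?_) hs4
    simp only [Function.comp_apply]
    have hp2 : (2 : ℝ) ≤ ((i n).1 : ℕ) := by exact_mod_cast (i n).1.2.two_le
    have hp0 : (0 : ℝ) < ((i n).1 : ℕ) := by linarith
    have e1 : (1 : ℝ) / (n : ℕ) = (((i n).1 : ℕ) : ℝ) ^ (-2 : ℝ) * ((((i n).1 : ℕ) : ℝ)⁻¹) ^ (i n).2 := by
      have h1 : ((n : ℕ) : ℝ) = (((i n).1 : ℕ) : ℝ) ^ ((i n).2 + 2) := by exact_mod_cast hi n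
      rw [h1, Real.rpow_neg hp0.le, inv_pow, pow_add, one_div, mul_inv, mul_comm]
      norm_cast
    rw [e1]
    refine mul_le_mul_of_nonneg_left ?_ (by positivity)
    apply pow_le_pow_left₀ (by positivity)
    rw [one_div]
    exact inv_anti₀ (by norm_num) hp2
  have h6 := (summable_subtype_iff_indicator (s := T) (f := fun n : ℕ => (1 : ℝ) / n)).1 hs5
  refine h6.congr fun n => ?_
  rw [Set.indicator_apply]
  rfl

lemma good_sum [DecidablePred (good a b)] :
    Summable (fun n : ℕ => if good a b n ∧ ¬ n.Prime then (1 : ℝ) / n else 0) := by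
  classical
  have := sum_powers (fun n => good a b n ∧ ¬ n.Prime) (by
    rintro n ⟨⟨v, -, hv⟩, hn⟩
    obtain ⟨h1, h2, -⟩ := nm_eq v
    have h3 : 2 ≤ deg v := by
      by_contra hcon
      have : deg v = 1 := by omega
      rw [this, pow_one] at h1
      apply hn
      rw [← hv, h1]
      exact (below v).2
    refine ⟨below v, deg v - 2, ?_⟩
    rw [← hv, h1]
    congr 1
    omega)
  refine this.congr fun n => ?_
  congr

open Classical in
lemma locNF : GenN.Loc (GenN.LLc (good a b) (cc a b)) (GenN.ellc (good a b) (cc a b))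
    (4 * (2 * Module.finrank ℚ K))
    (fun n => 4 * (2 * Module.finrank ℚ K) * ((n : ℝ) ^ (-(3 / 2) : ℝ) +
      if good a b n ∧ ¬ n.Prime then (1 : ℝ) / n else 0)) :=
  GenN.locC (fun _ h => good_two a b h) (by positivity) (fun _ h m _ => cc_le a b h m)
    (good_sum a b)

open Classical in
/-- the factor at `v` -/
noncomputable def fac (s : ℂ) (v : HeightOneSpectrum (𝓞 K)) : ℂ :=
  if Good a b v then (1 - ((nm v : ℂ) - (Np a b v : ℂ)) * (nm v : ℂ) ^ (-s) +
    (nm v : ℂ) ^ (1 - 2 * s))⁻¹ else 1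

lemma one_sub_ne {v : HeightOneSpectrum (𝓞 K)} (h : Good a b v) {β : ℂ}
    (hβ : ‖β‖ = (nm v : ℝ) ^ (1 / 2 : ℝ)) (s : ℂ) (hs : 1 ≤ s.re) : 1 - β * (nm v : ℂ) ^ (-s) ≠ 0 := by
  intro h0
  have h4 := norm_z_lt h hβ s hs
  have h5 : β * (nm v : ℂ) ^ (-s) = 1 := (sub_eq_zero.1 h0).symm
  rw [h5, norm_one] at h4
  exact lt_irrefl _ h4

open Classical in
/-- the logarithm of the factor -/
noncomputable def lfac (s : ℂ) (v : HeightOneSpectrum (𝓞 K)) : ℂ :=
  if Good a b v then -Complex.log (1 - al a b v * (nm v : ℂ) ^ (-s)) +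
        -Complex.log (1 - starRingEnd ℂ (al a b v) * (nm v : ℂ) ^ (-s)) else 0

lemma exp_lfac (s : ℂ) (hs : 1 ≤ s.re) (v : HeightOneSpectrum (𝓞 K)) :
    exp (lfac a b s v) = fac a b s v := by
  unfold lfac fac
  split_ifs with h
  · have hc : ‖starRingEnd ℂ (al a b v)‖ = (nm v : ℝ) ^ (1 / 2 : ℝ) := by
      rw [Complex.norm_conj]; exact al_norm h
    rw [Complex.exp_add, Complex.exp_neg, Complex.exp_neg,
      Complex.exp_log (one_sub_ne a b h (al_norm h) s hs),
      Complex.exp_log (one_sub_ne a b h hc s hs), ← mul_inv, factor_eq h]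
  · exact Complex.exp_zero

open Classical in
lemma LLc_eq (s : ℂ) (hs : 1 ≤ s.re) (n : ℕ) :
    GenN.LLc (good a b) (cc a b) n s = ∑ v ∈ fib K n, lfac a b s v := by
  unfold GenN.LLc
  split_ifs with hn
  · have h1 : HasSum (fun m : ℕ => ∑ v ∈ fib K n, (if Good a b v then
        (((al a b v) ^ (m + 1) + (starRingEnd ℂ (al a b v)) ^ (m + 1)).re : ℂ) *
        (nm v : ℂ) ^ (-((m + 1 : ℂ) * s)) / (m + 1 : ℂ) else 0)) (∑ v ∈ fib K n, lfac a b s v) := by
      refine hasSum_sum fun v _ => ?_
      unfold lfac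
      by_cases h : Good a b v
      · simp only [if_pos h]
        exact local_series h s hs
      · simp only [if_neg h]
        exact hasSum_zero
    rw [← h1.tsum_eq]
    refine tsum_congr fun m => ?_
    unfold cc
    rw [Complex.ofReal_sum, Finset.sum_mul, Finset.sum_div]
    refine Finset.sum_congr rfl fun v hv => ?_
    rw [mem_fib.1 hv]
    split_ifs
    · rfl
    · simp
  · symm
    refine Finset.sum_eq_zero fun v hv => ?_
    unfold lfac
    rw [if_neg fun h => hn ⟨v, h, mem_fib.1 hv⟩]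

open Classical in
lemma ellc_eq (n : ℕ) : GenN.ellc (good a b) (cc a b) n =
    ∑ v ∈ fib K n, if Good a b v then Real.log (((Np a b v : ℝ) + 1) / nm v) else 0 := by
  have h1 : ((GenN.ellc (good a b) (cc a b) n : ℝ) : ℂ) = -GenN.LLc (good a b) (cc a b) n 1 := by
    unfold GenN.ellc GenN.LLc
    split_ifs with hn
    · push_cast
      congr 1
      refine tsum_congr fun m => ?_
      rw [Complex.ofReal_cpow (Nat.cast_nonneg n)]
      push_cast
      rw [mul_one]
    · simp
  have h2 : GenN.ellc (good a b) (cc a b) n = (-GenN.LLc (good a b) (cc a b) n 1).re := by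
    rw [← h1, Complex.ofReal_re]
  rw [h2, LLc_eq a b 1 (by simp) n, Complex.neg_re, Complex.re_sum, ← Finset.sum_neg_distrib]
  refine Finset.sum_congr rfl fun v _ => ?_
  unfold lfac
  split_ifs with h
  · have e1 : al a b v * (nm v : ℂ) ^ (-(1 : ℂ)) = al a b v / nm v := by
      rw [Complex.cpow_neg_one, div_eq_mul_inv]
    have e2 : starRingEnd ℂ (al a b v) * (nm v : ℂ) ^ (-(1 : ℂ)) = starRingEnd ℂ (al a b v / nm v) := by
      rw [Complex.cpow_neg_one, map_div₀, Complex.conj_natCast, div_eq_mul_inv]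
    rw [e1, e2, ← norm_sq_eq h, Real.log_pow]
    have e3 : (1 : ℂ) - starRingEnd ℂ (al a b v / nm v) = starRingEnd ℂ (1 - al a b v / nm v) := by
      rw [map_sub, map_one]
    rw [e3]
    simp only [Complex.add_re, Complex.neg_re, Complex.log_re, Complex.norm_conj]
    push_cast
    ring
  · simp

open Classical in
lemma prodNF {F : ℂ → ℂ} {s : ℂ} (hs : 1 ≤ s.re) (h : HasProd (fac a b s) (F s)) :
    HasProd (fun n : ℕ => exp (GenN.LLc (good a b) (cc a b) n s)) (F s) := by
  have h1 := (Equiv.hasProd_iff (Equiv.sigmaFiberEquiv (nm (K := K)))).2 h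
  refine h1.sigma fun n => ?_
  rw [LLc_eq a b s hs n, Complex.exp_sum]
  have : Fintype {v : HeightOneSpectrum (𝓞 K) // nm v = n} :=
    Fintype.subtype (fib K n) fun v => mem_fib
  have h2 := hasProd_fintype (fun v : {v : HeightOneSpectrum (𝓞 K) // nm v = n} => fac a b s v.1)
  have h3 : ∏ v ∈ fib K n, exp (lfac a b s v) =
      ∏ v : {v : HeightOneSpectrum (𝓞 K) // nm v = n}, fac a b s v.1 := by
    rw [Finset.prod_congr rfl fun v _ => exp_lfac a b s hs v]
    exact Finset.prod_subtype (fib K n) (fun v => mem_fib) (fac a b s)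
  rw [h3]
  exact h2

end Pool.Agent.H438R3.BSD.NF
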